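import Pool.Agent.Helper15.AWC.Twist2

/-!
# A Galois argument for sums of roots of unity
-/

open scoped Classical BigOperators

set_option linter.unusedSectionVars false

noncomputable section

namespace Pool.Agent.Helper15.AW

/-- a complex number which is an integral multiple of `D` -/
def Mul0 (D : ℤ) (x : ℂ) : Prop := ∃ y : ℤ, x = (D : ℂ) * (y : ℂ)

lemma Mul0.sub {D : ℤ} {x y : ℂ} (hx : Mul0 D x) (hy : Mul0 D y) : Mul0 D (x - y) := by
  obtain ⟨a, rfl⟩ := hx
  obtain ⟨b, rfl⟩ := hy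
  exact ⟨a - b, by push_cast; ring⟩

lemma Mul0.sum {D : ℤ} {ι : Type*} (s : Finset ι) (f : ι → ℂ) (h : ∀ i ∈ s, Mul0 D (f i)) :
    Mul0 D (∑ i ∈ s, f i) := by
  induction s using Finset.induction_on with
  | empty => exact ⟨0, by simp⟩
  | insert a s ha ih =>
    rw [Finset.sum_insert ha]
    obtain ⟨x, hx⟩ := h a (Finset.mem_insert_self _ _)
    obtain ⟨y, hy⟩ := ih fun i hi => h i (Finset.mem_insert_of_mem hi)
    exact ⟨x + y, by rw [hx, hy]; push_cast; ring⟩

section

variable {C : Type} [Group C] [Finite C] (kap : C →* ℂˣ) {Q : Type} [Fintype Q] (w : Q → C)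

/-- the power sums -/
def pw (k : ℕ) : ℂ := ∑ q : Q, ((kap (w q) : ℂˣ) : ℂ) ^ k

lemma kap_pow_card (x : C) : ((kap x : ℂˣ) : ℂ) ^ Nat.card C = 1 := by
  rw [← Units.val_pow_eq_pow_val, ← map_pow, pow_card_eq_one', map_one, Units.val_one]

lemma pw_coprime (hr : Rat0 (pw kap w 1)) {k : ℕ} (hk : k.Coprime (Nat.card C)) :
    pw kap w k = pw kap w 1 := by
  obtain ⟨r, hr⟩ := hr
  have hn : 0 < Nat.card C := Nat.card_pos
  have hw := Complex.isPrimitiveRoot_exp (Nat.card C) hn.ne'
  set om := Complex.exp (2 * Real.pi * Complex.I / (Nat.card C : ℕ)) with hom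
  have h1 : ∀ x : C, ∃ j : ℕ, om ^ j = ((kap x : ℂˣ) : ℂ) := by
    intro x
    obtain ⟨i, _, hi⟩ := hw.eq_pow_of_pow_eq_one (kap_pow_card kap x)
    exact ⟨i, hi⟩
  choose j hj using h1
  let P : Polynomial ℚ := ∑ q : Q, Polynomial.X ^ (j (w q))
  have hP : ∀ k : ℕ, Polynomial.aeval (om ^ k) P = pw kap w k := by
    intro k
    simp only [P, map_sum, map_pow, Polynomial.aeval_X]
    refine Finset.sum_congr rfl fun q _ => ?_
    rw [← hj, ← pow_mul, ← pow_mul, mul_comm]
  have h2 : Polynomial.aeval om (P - Polynomial.C r) = 0 := by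
    have h3 := hP 1
    rw [pow_one] at h3
    rw [map_sub, h3, hr, Polynomial.aeval_C]
    simp
  have h3 := minpoly.dvd ℚ om h2
  have hwk : IsPrimitiveRoot (om ^ k) (Nat.card C) := hw.pow_of_coprime k hk
  rw [← Polynomial.cyclotomic_eq_minpoly_rat hw hn,
    Polynomial.cyclotomic_eq_minpoly_rat hwk hn] at h3
  have h4 : Polynomial.aeval (om ^ k) (P - Polynomial.C r) = 0 := by
    obtain ⟨R, hR⟩ := h3
    rw [hR, map_mul, minpoly.aeval, zero_mul]
  rw [map_sub, hP, Polynomial.aeval_C, sub_eq_zero] at h4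
  rw [h4, hr]
  simp

/-- the number of elements with `w^e = 1` -/
def kn (e : ℕ) : ℕ := Nat.card {q : Q // w q ^ e = 1}

lemma pw_sum (hk : Function.Injective kap) {e : ℕ} (he : e ∣ Nat.card C) :
    ∑ k ∈ (Finset.range (Nat.card C)).filter (fun k => e ∣ k), pw kap w k =
      ((Nat.card C / e : ℕ) : ℂ) * (kn w e : ℂ) := by
  have hn : 0 < Nat.card C := Nat.card_pos
  obtain ⟨f, hf⟩ := he
  have he0 : 0 < e := by
    rcases Nat.eq_zero_or_pos e with h | h
    · rw [h, zero_mul] at hf; omega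
    · exact h
  have h1 : ∑ k ∈ (Finset.range (Nat.card C)).filter (fun k => e ∣ k), pw kap w k =
      ∑ i ∈ Finset.range f, pw kap w (e * i) := by
    symm
    refine Finset.sum_bij (fun i _ => e * i) ?_ ?_ ?_ ?_
    · intro i hi
      rw [Finset.mem_range] at hi
      rw [Finset.mem_filter, Finset.mem_range, hf]
      exact ⟨Nat.mul_lt_mul_of_pos_left hi he0, dvd_mul_right _ _⟩
    · intro i _ i' _ h
      exact Nat.eq_of_mul_eq_mul_left he0 h
    · intro k hk
      rw [Finset.mem_filter, Finset.mem_range, hf] at hk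
      obtain ⟨hk1, i, rfl⟩ := hk
      exact ⟨i, Finset.mem_range.2 (Nat.lt_of_mul_lt_mul_left hk1), rfl⟩
    · intro i _
      rfl
  rw [h1, hf, Nat.mul_div_cancel_left f he0]
  unfold pw
  rw [Finset.sum_comm]
  have h2 : ∀ q : Q, ∑ i ∈ Finset.range f, ((kap (w q) : ℂˣ) : ℂ) ^ (e * i) =
      if w q ^ e = 1 then (f : ℂ) else 0 := by
    intro q
    have h3 : ∀ i, ((kap (w q) : ℂˣ) : ℂ) ^ (e * i) = (((kap (w q) : ℂˣ) : ℂ) ^ e) ^ i :=
      fun i => pow_mul _ _ _
    simp only [h3]
    by_cases hq : w q ^ e = 1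
    · have h4 : ((kap (w q) : ℂˣ) : ℂ) ^ e = 1 := by
        rw [← Units.val_pow_eq_pow_val, ← map_pow, hq, map_one, Units.val_one]
      rw [if_pos hq, h4]
      simp
    · rw [if_neg hq]
      have h4 : ((kap (w q) : ℂˣ) : ℂ) ^ e ≠ 1 := by
        intro h
        apply hq
        apply hk
        rw [map_pow, map_one]
        exact Units.ext (by rw [Units.val_pow_eq_pow_val, h, Units.val_one])
      have h5 : (((kap (w q) : ℂˣ) : ℂ) ^ e) ^ f = 1 := by
        rw [← pow_mul, ← hf, kap_pow_card]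
      have h6 := geom_sum_mul (((kap (w q) : ℂˣ) : ℂ) ^ e) f
      rw [h5, sub_self] at h6
      rcases mul_eq_zero.1 h6 with h7 | h7
      · exact h7
      · exact absurd (sub_eq_zero.1 h7) h4
  rw [Finset.sum_congr rfl fun q _ => h2 q, ← Finset.sum_filter, Finset.sum_const, nsmul_eq_mul,
    mul_comm]
  congr 2
  unfold kn
  rw [Nat.card_eq_fintype_card, Fintype.card_subtype]

theorem galois_dvd (hk : Function.Injective kap) (hr : Rat0 (pw kap w 1)) (D : ℤ)
    (hD : ∀ e : ℕ, e ∣ Nat.card C → D ∣ (kn w e : ℤ)) :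
    ∃ s : ℤ, pw kap w 1 = (s : ℂ) ∧ D ∣ (Nat.totient (Nat.card C) : ℤ) * s := by
  have hn : 0 < Nat.card C := Nat.card_pos
  -- the sums over the exponents with given divisor
  let T : ℕ → ℂ := fun e => ∑ k ∈ (Finset.range (Nat.card C)).filter
    (fun k => k.gcd (Nat.card C) = e), pw kap w k
  have hA : ∀ e : ℕ, e ∣ Nat.card C →
      ∑ k ∈ (Finset.range (Nat.card C)).filter (fun k => e ∣ k), pw kap w k =
        ∑ e' ∈ (Nat.card C).divisors.filter (fun e' => e ∣ e'), T e' := by
    intro e he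
    have h1 : ∀ k ∈ (Finset.range (Nat.card C)).filter (fun k => e ∣ k),
        k.gcd (Nat.card C) ∈ (Nat.card C).divisors.filter (fun e' => e ∣ e') := by
      intro k hk
      rw [Finset.mem_filter] at hk ⊢
      refine ⟨Nat.mem_divisors.2 ⟨Nat.gcd_dvd_right _ _, hn.ne'⟩, Nat.dvd_gcd hk.2 he⟩
    rw [← Finset.sum_fiberwise_of_maps_to h1]
    refine Finset.sum_congr rfl fun e' he' => ?_
    simp only [T]
    rw [Finset.filter_filter]
    refine Finset.sum_congr ?_ fun _ _ => rfl
    ext k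
    simp only [Finset.mem_filter, Finset.mem_range]
    constructor
    · rintro ⟨h2, _, h3⟩
      exact ⟨h2, h3⟩
    · rintro ⟨h2, h3⟩
      refine ⟨h2, ?_, h3⟩
      rw [Finset.mem_filter] at he'
      exact he'.2.trans (h3 ▸ Nat.gcd_dvd_left _ _)
  have hT : ∀ d : ℕ, ∀ e : ℕ, e ∣ Nat.card C → Nat.card C ≤ e + d → Mul0 D (T e) := by
    intro d
    induction d with
    | zero =>
      intro e he hle
      have h1 : e = Nat.card C := le_antisymm (Nat.le_of_dvd hn he) (by omega)
      have h2 := hA e he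
      rw [pw_sum kap w hk he] at h2
      have h3 : (Nat.card C).divisors.filter (fun e' => e ∣ e') = {e} := by
        ext e'
        rw [Finset.mem_filter, Nat.mem_divisors, Finset.mem_singleton]
        constructor
        · rintro ⟨⟨h4, _⟩, h5⟩
          rw [h1] at h5 ⊢
          exact Nat.dvd_antisymm h4 h5
        · rintro rfl
          exact ⟨⟨he, hn.ne'⟩, dvd_rfl⟩
      rw [h3, Finset.sum_singleton] at h2
      rw [← h2]
      obtain ⟨y, hy⟩ := hD e he
      refine ⟨((Nat.card C / e : ℕ) : ℤ) * y, ?_⟩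
      have hy' : (kn w e : ℂ) = (D : ℂ) * (y : ℂ) := by exact_mod_cast hy
      rw [hy']
      generalize Nat.card C / e = c
      push_cast
      ring
    | succ d ih =>
      intro e he hle
      have h2 := hA e he
      rw [pw_sum kap w hk he] at h2
      rw [← Finset.add_sum_erase _ _ (Finset.mem_filter.2 ⟨Nat.mem_divisors.2 ⟨he, hn.ne'⟩,
        dvd_refl e⟩)] at h2
      have h3 : T e = ((Nat.card C / e : ℕ) : ℂ) * (kn w e : ℂ) -
          ∑ e' ∈ ((Nat.card C).divisors.filter (fun e' => e ∣ e')).erase e, T e' := by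
        rw [h2, add_sub_cancel_right]
      rw [h3]
      refine Mul0.sub ?_ (Mul0.sum _ _ fun e' he' => ?_)
      · obtain ⟨y, hy⟩ := hD e he
        refine ⟨((Nat.card C / e : ℕ) : ℤ) * y, ?_⟩
        have hy' : (kn w e : ℂ) = (D : ℂ) * (y : ℂ) := by exact_mod_cast hy
        rw [hy']
        generalize Nat.card C / e = c
        push_cast
        ring
      · rw [Finset.mem_erase, Finset.mem_filter, Nat.mem_divisors] at he'
        obtain ⟨hne, ⟨hd, _⟩, hee⟩ := he'
        refine ih e' hd ?_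
        have h4 : e < e' := lt_of_le_of_ne (Nat.le_of_dvd (Nat.pos_of_dvd_of_pos hd hn) hee)
          (Ne.symm hne)
        omega
  have h1 : Mul0 D (T 1) := hT (Nat.card C) 1 (one_dvd _) (by omega)
  have h2 : T 1 = (Nat.totient (Nat.card C) : ℂ) * pw kap w 1 := by
    simp only [T]
    rw [Finset.sum_congr rfl fun k hk => pw_coprime kap w hr (Finset.mem_filter.1 hk).2,
      Finset.sum_const, nsmul_eq_mul]
    congr 2
    unfold Nat.totient
    congr 1
    ext k
    simp only [Finset.mem_filter, Finset.mem_range]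
    rw [Nat.coprime_comm]
  -- the power sum is an integer
  have hint : IsIntegral ℤ (pw kap w 1) := by
    unfold pw
    refine IsIntegral.sum _ fun q _ => IsIntegral.pow ?_ 1
    refine IsIntegral.of_pow (n := Nat.card C) hn ?_
    rw [kap_pow_card]
    exact isIntegral_one
  obtain ⟨r, hr'⟩ := hr
  have h3 : IsIntegral ℤ r := by
    rw [hr'] at hint
    have h5 : ((r : ℚ) : ℂ) = algebraMap ℚ ℂ r := rfl
    rw [h5] at hint
    exact (isIntegral_algebraMap_iff (FaithfulSMul.algebraMap_injective ℚ ℂ)).mp hint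
  obtain ⟨s, hs⟩ := IsIntegrallyClosed.isIntegral_iff.mp h3
  have hs' : pw kap w 1 = (s : ℂ) := by
    rw [hr', ← hs]
    simp
  refine ⟨s, hs', ?_⟩
  obtain ⟨y, hy⟩ := h1
  rw [h2, hs'] at hy
  exact ⟨y, by exact_mod_cast hy⟩

end

end Pool.Agent.Helper15.AW
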