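import Pool.Agent.Helper15.AWC.Lift

/-!
# The number of lifts modulo powers of `p`
-/

open scoped Classical BigOperators
open Representation Pool.Agent.Helper884.IC Pool.Agent.Y63.AWC

set_option linter.unusedSectionVars false

noncomputable section

namespace Pool.Agent.Helper15.AW

open Pool.Agent.Y63.KR (surfaceWord coords map_surfaceWord surfaceWord_cons dg cod dg_spec cod_spec
  cod_pos DZ_iff unit_pow two_mul_ge numHom)

/-- the number of `G`-invariant irreducible characters of `M` of defect zero -/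
def numInv (p : ℕ) {G : Type} [Group G] (M : Subgroup G) : ℕ :=
  Nat.card {theta : M → ℂ // IsIrrChar theta ∧ DZ p theta ∧ Invariant theta}

section

variable {G : Type} [Group G] [Fintype G] {M : Subgroup G} [M.Normal]

lemma numInv_eq {p : ℕ} [hp : Fact p.Prime] :
    numInv p M = ((Irr M).filter fun theta => ¬ p ∣ cod theta ∧ Invariant theta).card := by
  unfold numInv
  rw [← Fintype.card_coe, ← Nat.card_eq_fintype_card]
  refine Nat.card_congr (Equiv.subtypeEquivRight fun theta => ?_)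
  rw [Finset.mem_filter, mem_Irr]
  constructor
  · rintro ⟨h1, h2, h3⟩
    exact ⟨h1, (DZ_iff h1).1 h2, h3⟩
  · rintro ⟨h1, h2, h3⟩
    exact ⟨h1, (DZ_iff h1).2 h2, h3⟩

/-- the lifts of a homomorphism, by characters -/
theorem card_lifts_eq {n : ℕ} (q : Fin (n + 1) → G × G) (hw : surfaceWord q ∈ M)
    (hq : Subgroup.closure (coords q) ⊔ M = ⊤) :
    ∃ z : (M → ℂ) → ℂ, (∀ theta ∈ Irr M, IsIntegral ℤ (z theta) ∧
      (¬ Invariant theta → z theta = 0) ∧ (Invariant theta → Extends G theta → z theta = 1)) ∧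
      (Nat.card {m : Fin (n + 1) → M × M // surfaceWord (mulT q (mapT M.subtype m)) = 1} : ℂ) =
        (Nat.card M : ℂ) * ∑ theta ∈ Irr M, z theta * (cod theta : ℂ) ^ (2 * n) := by
  have h1 : ∀ theta : M → ℂ, ∃ z : ℂ, theta ∈ Irr M → (IsIntegral ℤ z ∧ (¬ Invariant theta → z = 0) ∧
      (Invariant theta → Extends G theta → z = 1) ∧
      ∑ m : Fin (n + 1) → M × M, theta ⟨_, word_lift_mem hw m⟩ =
        z * theta 1 * (((Nat.card M : ℂ) / theta 1) ^ 2) ^ (n + 1)) := by
    intro theta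
    by_cases ht : theta ∈ Irr M
    · obtain ⟨z, hz⟩ := char_sum q hw hq (mem_Irr.1 ht)
      exact ⟨z, fun _ => hz⟩
    · exact ⟨0, fun h => absurd h ht⟩
  choose z hz using h1
  refine ⟨z, fun theta ht => ⟨(hz theta ht).1, (hz theta ht).2.1, (hz theta ht).2.2.1⟩, ?_⟩
  have hM := cardG_ne (G := M)
  have h2 : (Nat.card M : ℂ) *
      (Nat.card {m : Fin (n + 1) → M × M // surfaceWord (mulT q (mapT M.subtype m)) = 1} : ℂ) =
      ∑ m : Fin (n + 1) → M × M, ∑ theta ∈ Irr M, theta ⟨_, word_lift_mem hw m⟩ * theta (1 : M)⁻¹ := by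
    simp_rw [col_orth]
    have h3 : ∀ m : Fin (n + 1) → M × M,
        (Nat.card {x : M // x * ⟨_, word_lift_mem hw m⟩ * x⁻¹ = 1} : ℂ) =
          if surfaceWord (mulT q (mapT M.subtype m)) = 1 then (Nat.card M : ℂ) else 0 := by
      intro m
      by_cases hm : surfaceWord (mulT q (mapT M.subtype m)) = 1
      · rw [if_pos hm]
        norm_cast
        refine Nat.card_congr (Equiv.subtypeUnivEquiv fun x => ?_)
        have : (⟨_, word_lift_mem hw m⟩ : M) = 1 := Subtype.ext hm
        rw [this]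
        group
      · rw [if_neg hm]
        norm_cast
        rw [Nat.card_eq_zero]
        left
        constructor
        rintro ⟨x, hx⟩
        apply hm
        have h4 : (⟨_, word_lift_mem hw m⟩ : M) = 1 := by
          calc (⟨_, word_lift_mem hw m⟩ : M) =
              x⁻¹ * (x * ⟨_, word_lift_mem hw m⟩ * x⁻¹) * x := by group
            _ = 1 := by rw [hx]; group
        exact congrArg Subtype.val h4
    rw [Finset.sum_congr rfl fun m _ => h3 m, ← Finset.sum_filter, Finset.sum_const, nsmul_eq_mul,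
      mul_comm]
    congr 2
    rw [Nat.card_eq_fintype_card, Fintype.card_subtype]
  apply mul_left_cancel₀ hM
  rw [h2, Finset.sum_comm, Finset.mul_sum, Finset.mul_sum]
  refine Finset.sum_congr rfl fun theta ht => ?_
  rw [← Finset.sum_mul, (hz theta ht).2.2.2, inv_one]
  obtain ⟨h4, h5⟩ := dg_spec (mem_Irr.1 ht)
  have h6 : (Nat.card M : ℂ) = (dg theta : ℂ) * (cod theta : ℂ) := by
    rw [← cod_spec (mem_Irr.1 ht)]
    push_cast
    ring
  have h7 : (dg theta : ℂ) ≠ 0 := by exact_mod_cast h5.ne'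
  rw [h4, h6, mul_div_cancel_left₀ _ h7]
  ring

/-- integrality and congruences -/
lemma dvd_of_integral {p : ℕ} [hp : Fact p.Prime] (N : ℕ) (D : ℤ) (w : ℂ) (hw : IsIntegral ℤ w)
    (h : (D : ℂ) = (p : ℂ) ^ (N + 1) * w) : (p : ℤ) ^ (N + 1) ∣ D := by
  have hp0 : ((p : ℂ) ^ (N + 1)) ≠ 0 := pow_ne_zero _ (by exact_mod_cast hp.out.ne_zero)
  have h1 : w = (((D : ℚ) / (p : ℚ) ^ (N + 1) : ℚ) : ℂ) := by
    push_cast
    rw [h, mul_div_cancel_left₀ _ hp0]
  rw [h1] at hw
  have h2 : IsIntegral ℤ ((D : ℚ) / (p : ℚ) ^ (N + 1) : ℚ) := by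
    have h5 : ((((D : ℚ) / (p : ℚ) ^ (N + 1) : ℚ)) : ℂ)
        = algebraMap ℚ ℂ ((D : ℚ) / (p : ℚ) ^ (N + 1) : ℚ) := rfl
    rw [h5] at hw
    exact (isIntegral_algebraMap_iff (FaithfulSMul.algebraMap_injective ℚ ℂ)).mp hw
  obtain ⟨k, hk⟩ := IsIntegrallyClosed.isIntegral_iff.mp h2
  have hp1 : ((p : ℚ) ^ (N + 1)) ≠ 0 := pow_ne_zero _ (by exact_mod_cast hp.out.ne_zero)
  have hk' : (k : ℚ) = (D : ℚ) / (p : ℚ) ^ (N + 1) := by simpa using hk
  refine ⟨k, ?_⟩
  have h3 : (D : ℚ) = (p : ℚ) ^ (N + 1) * k := by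
    rw [hk']
    field_simp
  exact_mod_cast h3

/-- the number of lifts -/
theorem card_lifts {p : ℕ} [hp : Fact p.Prime] {n N : ℕ} (hn0 : n ≠ 0)
    (hn : p ^ N * (p - 1) ∣ n) (hext : ∀ theta : M → ℂ, IsIrrChar theta → DZ p theta →
      Invariant theta → Extends G theta)
    (q : Fin (n + 1) → G × G) (hw : surfaceWord q ∈ M)
    (hq : Subgroup.closure (coords q) ⊔ M = ⊤) :
    (p : ℤ) ^ (N + 1) ∣
      (Nat.card {m : Fin (n + 1) → M × M // surfaceWord (mulT q (mapT M.subtype m)) = 1} : ℤ) -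
        Nat.card M * numInv p M := by
  obtain ⟨z, hz, hcard⟩ := card_lifts_eq q hw hq
  -- the difference of the summands
  have hterm : ∀ theta ∈ Irr M, ∃ w : ℂ, IsIntegral ℤ w ∧
      z theta * (cod theta : ℂ) ^ (2 * n) - (if ¬ p ∣ cod theta ∧ Invariant theta then 1 else 0) =
        (p : ℂ) ^ (N + 1) * w := by
    intro theta ht
    obtain ⟨h1, h2, h3⟩ := hz theta ht
    have hirr := mem_Irr.1 ht
    by_cases hinv : Invariant theta
    · by_cases hp1 : p ∣ cod theta
      · rw [if_neg (fun h => h.1 hp1), sub_zero]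
        obtain ⟨k, hk⟩ := hp1
        refine ⟨z theta * ((p ^ (2 * n - (N + 1)) * k ^ (2 * n) : ℕ) : ℂ), h1.mul ?_, ?_⟩
        · exact isIntegral_algebraMap (R := ℤ) (A := ℂ)
            (x := ((p ^ (2 * n - (N + 1)) * k ^ (2 * n) : ℕ) : ℤ)) |> fun h => by simpa using h
        · have h4 : N + 1 ≤ 2 * n := two_mul_ge (p := p) hn0 hn
          have h5 : (cod theta : ℂ) ^ (2 * n) =
              (p : ℂ) ^ (N + 1) * ((p : ℂ) ^ (2 * n - (N + 1)) * (k : ℂ) ^ (2 * n)) := by
            rw [hk]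
            push_cast
            rw [mul_pow, ← mul_assoc, ← pow_add, Nat.add_sub_cancel' h4]
          rw [h5]
          push_cast
          ring
      · rw [if_pos ⟨hp1, hinv⟩, h3 hinv (hext theta hirr ((DZ_iff hirr).2 hp1) hinv), one_mul]
        have h4 := unit_pow (p := p) (N := N) (n := 2 * n) hp1 (Dvd.dvd.mul_left hn 2)
        have h5 : ((p ^ (N + 1) : ℕ) : ℤ) ∣ ((cod theta ^ (2 * n) : ℕ) : ℤ) - ((1 : ℕ) : ℤ) :=
          (Nat.modEq_iff_dvd.1 h4.symm)
        obtain ⟨k, hk⟩ := h5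
        refine ⟨(k : ℂ), ?_, ?_⟩
        · exact isIntegral_algebraMap (R := ℤ) (A := ℂ) (x := k) |> fun h => by simpa using h
        · have h6 := congrArg (Int.cast : ℤ → ℂ) hk
          push_cast at h6
          exact h6
    · rw [h2 hinv, if_neg (fun h => hinv h.2), zero_mul, sub_zero]
      exact ⟨0, isIntegral_zero, by rw [mul_zero]⟩
  have hw' : ∀ theta : M → ℂ, ∃ w : ℂ, IsIntegral ℤ w ∧ (theta ∈ Irr M →
      z theta * (cod theta : ℂ) ^ (2 * n) - (if ¬ p ∣ cod theta ∧ Invariant theta then 1 else 0) =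
        (p : ℂ) ^ (N + 1) * w) := by
    intro theta
    by_cases ht : theta ∈ Irr M
    · obtain ⟨w, h1, h2⟩ := hterm theta ht
      exact ⟨w, h1, fun _ => h2⟩
    · exact ⟨0, isIntegral_zero, fun h => absurd h ht⟩
  choose w hwi hw2 using hw'
  refine dvd_of_integral N _ ((Nat.card M : ℂ) * ∑ theta ∈ Irr M, w theta)
    (IsIntegral.mul ?_ (IsIntegral.sum _ fun theta _ => hwi theta)) ?_
  · exact isIntegral_algebraMap (R := ℤ) (A := ℂ) (x := ((Nat.card M : ℕ) : ℤ)) |> fun h => by
      simpa using h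
  · push_cast
    rw [hcard, numInv_eq, Finset.card_filter]
    push_cast
    rw [← mul_sub, ← Finset.sum_sub_distrib, Finset.sum_congr rfl fun theta ht => hw2 theta ht,
      ← Finset.mul_sum]
    ring

/-- representatives -/
def liftT {g : ℕ} (r : Fin g → (G ⧸ M) × (G ⧸ M)) : Fin g → G × G :=
  fun i => ((r i).1.out, (r i).2.out)

lemma mapT_liftT {g : ℕ} (r : Fin g → (G ⧸ M) × (G ⧸ M)) :
    mapT (QuotientGroup.mk' M) (liftT r) = r := by
  funext i
  refine Prod.ext ?_ ?_
  · exact Quotient.out_eq (r i).1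
  · exact Quotient.out_eq (r i).2

lemma mapT_lift {g : ℕ} (q : Fin g → G × G) (m : Fin g → M × M) :
    mapT (QuotientGroup.mk' M) (mulT q (mapT M.subtype m)) = mapT (QuotientGroup.mk' M) q := by
  rw [mapT_mulT]
  funext i
  have h1 : (QuotientGroup.mk' M) ((m i).1 : G) = 1 := mk_sub _
  have h2 : (QuotientGroup.mk' M) ((m i).2 : G) = 1 := mk_sub _
  refine Prod.ext ?_ ?_
  · change (QuotientGroup.mk' M) (q i).1 * (QuotientGroup.mk' M) ((m i).1 : G) = _
    rw [h1, mul_one]
    rfl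
  · change (QuotientGroup.mk' M) (q i).2 * (QuotientGroup.mk' M) ((m i).2 : G) = _
    rw [h2, mul_one]
    rfl

/-- the fibre over a generating tuple of the quotient -/
lemma card_fibre {g : ℕ} (r : Fin g → (G ⧸ M) × (G ⧸ M)) :
    Nat.card {q : Fin g → G × G // (surfaceWord q = 1 ∧ Subgroup.closure (coords q) ⊔ M = ⊤) ∧
      mapT (QuotientGroup.mk' M) q = r} =
    if surfaceWord r = 1 ∧ Subgroup.closure (coords r) = ⊤ then
      Nat.card {m : Fin g → M × M // surfaceWord (mulT (liftT r) (mapT M.subtype m)) = 1}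
    else 0 := by
  have hclo : ∀ q : Fin g → G × G, mapT (QuotientGroup.mk' M) q = r →
      (Subgroup.closure (coords q) ⊔ M = ⊤ ↔ Subgroup.closure (coords r) = ⊤) := by
    intro q hq
    rw [← hq, closure_mapT, quot_sup_iff]
  split_ifs with hr
  · have hmem : ∀ a b : G, (QuotientGroup.mk' M) a = (QuotientGroup.mk' M) b → a⁻¹ * b ∈ M := by
      intro a b h
      rw [← QuotientGroup.eq_one_iff, ← QuotientGroup.mk'_apply, map_mul, map_inv, h,
        inv_mul_cancel]
    refine Nat.card_congr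
      { toFun := fun q => ⟨fun i => (⟨((liftT r) i).1⁻¹ * (q.1 i).1, hmem _ _ ?_⟩,
          ⟨((liftT r) i).2⁻¹ * (q.1 i).2, hmem _ _ ?_⟩), ?_⟩
        invFun := fun m => ⟨mulT (liftT r) (mapT M.subtype m.1), ⟨m.2, ?_⟩, ?_⟩
        left_inv := fun q => Subtype.ext (funext fun i => ?_)
        right_inv := fun m => Subtype.ext (funext fun i => ?_) }
    · have h1 := congrFun (mapT_liftT r) i
      have h2 := congrFun q.2.2 i
      exact (congrArg Prod.fst h1).trans (congrArg Prod.fst h2).symm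
    · have h1 := congrFun (mapT_liftT r) i
      have h2 := congrFun q.2.2 i
      exact (congrArg Prod.snd h1).trans (congrArg Prod.snd h2).symm
    · have h3 : mulT (liftT r) (mapT M.subtype fun i =>
          ((⟨((liftT r) i).1⁻¹ * (q.1 i).1, hmem _ _ (by
            have h1 := congrFun (mapT_liftT r) i
            have h2 := congrFun q.2.2 i
            exact (congrArg Prod.fst h1).trans (congrArg Prod.fst h2).symm)⟩ : M),
          (⟨((liftT r) i).2⁻¹ * (q.1 i).2, hmem _ _ (by
            have h1 := congrFun (mapT_liftT r) i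
            have h2 := congrFun q.2.2 i
            exact (congrArg Prod.snd h1).trans (congrArg Prod.snd h2).symm)⟩ : M))) = q.1 := by
        funext i
        refine Prod.ext ?_ ?_
        · exact mul_inv_cancel_left _ _
        · exact mul_inv_cancel_left _ _
      rw [h3]
      exact q.2.1.1
    · rw [hclo _ (by rw [mapT_lift, mapT_liftT])]
      exact hr.2
    · rw [mapT_lift, mapT_liftT]
    · refine Prod.ext ?_ ?_
      · exact mul_inv_cancel_left _ _
      · exact mul_inv_cancel_left _ _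
    · refine Prod.ext (Subtype.ext ?_) (Subtype.ext ?_)
      · exact inv_mul_cancel_left _ _
      · exact inv_mul_cancel_left _ _
  · rw [Nat.card_eq_zero]
    left
    constructor
    rintro ⟨q, ⟨h1, h2⟩, h3⟩
    apply hr
    refine ⟨?_, (hclo q h3).1 h2⟩
    rw [← h3, word_mapT, h1, map_one]

theorem supplements_count [Fintype (Subgroup G)] (g : ℕ) :
    (∑ K : Subgroup G, if K ⊔ M = ⊤ then numSurj g K else 0) =
      Nat.card {q : Fin g → G × G // surfaceWord q = 1 ∧ Subgroup.closure (coords q) ⊔ M = ⊤} := by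
  rw [← fiber_sum (fun q : Fin g → G × G => surfaceWord q = 1 ∧
    Subgroup.closure (coords q) ⊔ M = ⊤) (fun q => Subgroup.closure (coords q))]
  refine Finset.sum_congr rfl fun K _ => ?_
  have hK : ((⊥ : Subgroup G).subgroupOf K).Normal := by
    rw [Subgroup.bot_subgroupOf]; infer_instance
  have h1 := numSurj_quot (G := G) g (bot_le : (⊥ : Subgroup G) ≤ K)
  rw [Subgroup.card_bot, one_pow, one_mul] at h1
  have h2 : numSurj g (K ⧸ (⊥ : Subgroup G).subgroupOf K) = numSurj g K := by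
    have h3 : (⊥ : Subgroup G).subgroupOf K = ⊥ := Subgroup.bot_subgroupOf K
    have h4 : ∀ (Q : Subgroup K) [Q.Normal], Q = ⊥ → numSurj g (K ⧸ Q) = numSurj g K := by
      intro Q _ hQ
      subst hQ
      exact numSurj_congr QuotientGroup.quotientBot g
    exact h4 _ h3
  rw [← h2, h1]
  split_ifs with h
  · refine Nat.card_congr (Equiv.subtypeEquivRight fun q => ?_)
    rw [Subgroup.mem_bot, sup_bot_eq]
    constructor
    · rintro ⟨_, h3, h4⟩
      exact ⟨⟨h3, by rw [h4, h]⟩, h4⟩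
    · rintro ⟨⟨h3, _⟩, h4⟩
      exact ⟨h4 ▸ Subgroup.subset_closure, h3, h4⟩
  · symm
    rw [Nat.card_eq_zero]
    left
    constructor
    rintro ⟨q, ⟨_, h3⟩, h4⟩
    exact h (by rw [← h4]; exact h3)

/-- **The surjections onto the supplements of a normal subgroup.** -/
theorem supplements_mod {p : ℕ} [hp : Fact p.Prime] [Fintype (Subgroup G)] {g N : ℕ} (hg : 2 ≤ g)
    (hd : p ^ N * (p - 1) ∣ g - 1) (hext : ∀ theta : M → ℂ, IsIrrChar theta → DZ p theta →
      Invariant theta → Extends G theta) :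
    (p : ℤ) ^ (N + 1) ∣ ((∑ K : Subgroup G, if K ⊔ M = ⊤ then numSurj g K else 0 : ℕ) : ℤ) -
      Nat.card M * numInv p M * numSurj g (G ⧸ M) := by
  obtain ⟨n, rfl⟩ : ∃ n, g = n + 1 := ⟨g - 1, by omega⟩
  rw [Nat.add_sub_cancel] at hd
  rw [supplements_count, ← fiber_sum (fun q : Fin (n + 1) → G × G => surfaceWord q = 1 ∧
    Subgroup.closure (coords q) ⊔ M = ⊤) (fun q => mapT (QuotientGroup.mk' M) q)]
  have h1 : (Nat.card M * numInv p M * numSurj (n + 1) (G ⧸ M) : ℤ) =
      ∑ r : Fin (n + 1) → (G ⧸ M) × (G ⧸ M),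
        if surfaceWord r = 1 ∧ Subgroup.closure (coords r) = ⊤ then
          (Nat.card M * numInv p M : ℤ) else 0 := by
    rw [← Finset.sum_filter, Finset.sum_const, nsmul_eq_mul, mul_comm]
    congr 2
    unfold numSurj
    rw [Nat.card_eq_fintype_card, Fintype.card_subtype]
  rw [h1, Nat.cast_sum, ← Finset.sum_sub_distrib]
  refine Finset.dvd_sum fun r _ => ?_
  rw [card_fibre]
  split_ifs with hr
  · refine card_lifts (by omega) hd hext (liftT r) ?_ ?_
    · rw [← QuotientGroup.eq_one_iff, ← QuotientGroup.mk'_apply, ← word_mapT, mapT_liftT]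
      exact hr.1
    · rw [← quot_sup_iff, ← closure_mapT, mapT_liftT]
      exact hr.2
  · simp

end

end Pool.Agent.Helper15.AW
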