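import Pool.Agent.Helper15.AWC.Arith
import Pool.Agent.Helper15.AWC.Lift2

/-!
# Surjections onto central extensions
-/

open scoped Classical BigOperators
open Representation Pool.Agent.Helper884.IC Pool.Agent.Y63.AWC

set_option linter.unusedSectionVars false

noncomputable section

namespace Pool.Agent.Helper15.AW

open Pool.Agent.Y63.KR (surfaceWord coords sum_word comm_scalar dg dg_spec)

section

variable {E : Type} [Group E] [Fintype E]

/-- the elements of a central subgroup with `x^e = 1` -/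
def tor (C : Subgroup E) (hC : C ≤ Subgroup.center E) (e : ℕ) : Subgroup E where
  carrier := {x | x ∈ C ∧ x ^ e = 1}
  one_mem' := ⟨one_mem _, one_pow _⟩
  mul_mem' := by
    rintro x y ⟨hx, hx1⟩ ⟨hy, hy1⟩
    refine ⟨mul_mem hx hy, ?_⟩
    have h1 : Commute x y := (Subgroup.mem_center_iff.1 (hC hx) y).symm
    rw [h1.mul_pow, hx1, hy1, one_mul]
  inv_mem' := by
    rintro x ⟨hx, hx1⟩
    refine ⟨inv_mem hx, ?_⟩
    rw [inv_pow, hx1, inv_one]

lemma mem_tor {C : Subgroup E} {hC : C ≤ Subgroup.center E} {e : ℕ} {x : E} :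
    x ∈ tor C hC e ↔ x ∈ C ∧ x ^ e = 1 := Iff.rfl

lemma tor_le (C : Subgroup E) (hC : C ≤ Subgroup.center E) (e : ℕ) : tor C hC e ≤ C :=
  fun _ h => h.1

lemma normal_of_central {A : Subgroup E} (hA : A ≤ Subgroup.center E) (K : Subgroup E) :
    (A.subgroupOf K).Normal := by
  constructor
  intro x hx y
  rw [Subgroup.mem_subgroupOf] at hx ⊢
  have h1 : ((y * x * y⁻¹ : K) : E) = x := by
    rw [Subgroup.coe_mul, Subgroup.coe_mul, Subgroup.mem_center_iff.1 (hA hx) y, Subgroup.coe_inv,
      mul_inv_cancel_right]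
  rw [h1]
  exact hx

/-- the tuples generating modulo `C` -/
def GT (C : Subgroup E) (g : ℕ) : Type :=
  {q : Fin g → E × E // Subgroup.closure (coords q) ⊔ C = ⊤ ∧ surfaceWord q ∈ C}

instance (C : Subgroup E) (g : ℕ) : Fintype (GT C g) := by
  unfold GT
  infer_instance

/-- the product of commutators -/
def gw {C : Subgroup E} {g : ℕ} (q : GT C g) : C := ⟨surfaceWord q.1, q.2.2⟩

theorem kn_dvd (C : Subgroup E) (hC : C ≤ Subgroup.center E) (g : ℕ) (D : ℤ)
    (h : ∀ K : Subgroup E, K ⊔ C = ⊤ → ∀ A : Subgroup E, A ≤ C → A ≤ K →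
      ∀ _ : (A.subgroupOf K).Normal, D ∣ (numSurj g (K ⧸ A.subgroupOf K) : ℤ)) (e : ℕ) :
    D ∣ (kn (gw (C := C) (g := g)) e : ℤ) := by
  have : Fintype (Subgroup E) := Fintype.ofFinite _
  have h1 : kn (gw (C := C) (g := g)) e = Nat.card {q : Fin g → E × E //
      Subgroup.closure (coords q) ⊔ C = ⊤ ∧ surfaceWord q ∈ tor C hC e} := by
    unfold kn
    refine Nat.card_congr
      { toFun := fun q => ⟨q.1.1, q.1.2.1, q.1.2.2, congrArg Subtype.val q.2⟩
        invFun := fun q => ⟨⟨q.1, q.2.1, q.2.2.1⟩, Subtype.ext q.2.2.2⟩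
        left_inv := fun q => rfl
        right_inv := fun q => rfl }
  rw [h1, ← fiber_sum (fun q : Fin g → E × E => Subgroup.closure (coords q) ⊔ C = ⊤ ∧
    surfaceWord q ∈ tor C hC e) (fun q => Subgroup.closure (coords q) ⊔ tor C hC e), Nat.cast_sum]
  refine Finset.dvd_sum fun K _ => ?_
  by_cases hK : K ⊔ C = ⊤ ∧ tor C hC e ≤ K
  · have hn := normal_of_central ((tor_le C hC e).trans hC) K
    have h2 := numSurj_quot (G := E) g hK.2
    have h3 : Nat.card {q : Fin g → E × E // (Subgroup.closure (coords q) ⊔ C = ⊤ ∧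
        surfaceWord q ∈ tor C hC e) ∧ Subgroup.closure (coords q) ⊔ tor C hC e = K} =
        Nat.card {q : Fin g → E × E // coords q ⊆ K ∧
        (surfaceWord q ∈ tor C hC e ∧ Subgroup.closure (coords q) ⊔ tor C hC e = K)} := by
      refine Nat.card_congr (Equiv.subtypeEquivRight fun q => ?_)
      constructor
      · rintro ⟨⟨_, h4⟩, h5⟩
        refine ⟨?_, h4, h5⟩
        rw [← h5]
        exact Subgroup.subset_closure.trans
          (le_sup_left (a := Subgroup.closure (coords q)) (b := tor C hC e))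
      · rintro ⟨_, h4, h5⟩
        refine ⟨⟨?_, h4⟩, h5⟩
        rw [← hK.1, ← h5, sup_assoc, sup_eq_right.2 (tor_le C hC e)]
    rw [h3, ← h2]
    push_cast
    exact Dvd.dvd.mul_left (h K hK.1 _ (tor_le C hC e) hK.2 hn) _
  · have h3 : Nat.card {q : Fin g → E × E // (Subgroup.closure (coords q) ⊔ C = ⊤ ∧
        surfaceWord q ∈ tor C hC e) ∧ Subgroup.closure (coords q) ⊔ tor C hC e = K} = 0 := by
      rw [Nat.card_eq_zero]
      left
      constructor
      rintro ⟨q, ⟨h4, _⟩, h5⟩
      apply hK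
      rw [← h5, sup_assoc, sup_eq_right.2 (tor_le C hC e)]
      exact ⟨h4, le_sup_right⟩
    rw [h3]
    simp

/-- the divisibility of the sum of a faithful character of a central subgroup -/
theorem twisted_dvd (C : Subgroup E) (hC : C ≤ Subgroup.center E) (kap : C →* ℂˣ)
    (hk : Function.Injective kap) (g : ℕ) (D : ℤ)
    (h : ∀ K : Subgroup E, K ⊔ C = ⊤ → ∀ A : Subgroup E, A ≤ C → A ≤ K →
      ∀ _ : (A.subgroupOf K).Normal, D ∣ (numSurj g (K ⧸ A.subgroupOf K) : ℤ)) :
    ∃ s : ℤ, sumGen C kap g ⊤ = (s : ℂ) ∧ D ∣ (Nat.totient (Nat.card C) : ℤ) * s := by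
  have h1 : sumGen C kap g ⊤ = pw kap (gw (C := C) (g := g)) 1 := by
    unfold sumGen pw
    simp only [pow_one]
    have h2 : ∀ q : Fin g → E × E, (if Subgroup.closure (coords q) ⊔ C = ⊤ then
        ext0 C kap (surfaceWord q) else 0) = if Subgroup.closure (coords q) ⊔ C = ⊤ ∧
        surfaceWord q ∈ C then ext0 C kap (surfaceWord q) else 0 := by
      intro q
      by_cases h3 : surfaceWord q ∈ C
      · simp only [h3, and_true]
      · simp only [h3, and_false, if_false]
        unfold ext0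
        rw [dif_neg h3, ite_self]
    rw [Finset.sum_congr rfl fun q _ => h2 q, ← Finset.sum_filter]
    rw [Finset.sum_subtype (p := fun q : Fin g → E × E => Subgroup.closure (coords q) ⊔ C = ⊤ ∧
        surfaceWord q ∈ C) (F := inferInstance) _ (fun q => by simp)]
    refine Finset.sum_congr rfl fun q _ => ?_
    exact ext0_coe C kap (gw q)
  have hr := rat_gen C hC kap g ⊤
  rw [h1] at hr
  rw [h1]
  exact galois_dvd kap _ hk hr D fun e _ => kn_dvd C hC g D h e

end

end Pool.Agent.Helper15.AW
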