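import Pool.Agent.Helper15.AWC.Cent

/-!
# Surjections onto central extensions, II
-/

open scoped Classical BigOperators
open Representation Pool.Agent.Helper884.IC Pool.Agent.Y63.AWC

set_option linter.unusedSectionVars false

noncomputable section

namespace Pool.Agent.Helper15.AW

open Pool.Agent.Y63.KR (surfaceWord coords sum_word comm_scalar dg dg_spec)

section

variable {E Q : Type} [Group E] [Fintype E] [Group Q] [Fintype Q]

theorem sumGen_eq (pi : E →* Q) (hpi : Function.Surjective pi) (kap : pi.ker →* ℂˣ) (g : ℕ)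
    (f : (Fin g → Q × Q) → ℂ)
    (hf : ∀ e : Fin g → E × E, surfaceWord (mapT pi e) = 1 →
      Subgroup.closure (coords (mapT pi e)) = ⊤ → ext0 pi.ker kap (surfaceWord e) = f (mapT pi e)) :
    sumGen pi.ker kap g ⊤ = ((Nat.card pi.ker : ℂ) ^ (2 * g)) *
      ∑ r : Fin g → Q × Q, if surfaceWord r = 1 ∧ Subgroup.closure (coords r) = ⊤ then f r else 0 := by
  have h1 : ∀ e : Fin g → E × E, (if Subgroup.closure (coords e) ⊔ pi.ker = ⊤ then
      ext0 pi.ker kap (surfaceWord e) else 0) =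
      if surfaceWord (mapT pi e) = 1 ∧ Subgroup.closure (coords (mapT pi e)) = ⊤ then
        f (mapT pi e) else 0 := by
    intro e
    have h2 : Subgroup.closure (coords e) ⊔ pi.ker = ⊤ ↔
        Subgroup.closure (coords (mapT pi e)) = ⊤ := by
      rw [closure_mapT]
      constructor
      · intro h
        have h3 := congrArg (Subgroup.map pi) h
        rw [Subgroup.map_sup, Subgroup.map_top_of_surjective _ hpi] at h3
        have h4 : pi.ker.map pi = ⊥ := by
          rw [Subgroup.map_eq_bot_iff]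
        rwa [h4, sup_bot_eq] at h3
      · intro h
        have h3 := congrArg (Subgroup.comap pi) h
        rwa [Subgroup.comap_map_eq, Subgroup.comap_top] at h3
    by_cases h3 : surfaceWord (mapT pi e) = 1
    · by_cases h4 : Subgroup.closure (coords (mapT pi e)) = ⊤
      · rw [if_pos (h2.2 h4), if_pos ⟨h3, h4⟩]
        exact hf e h3 h4
      · rw [if_neg (fun h => h4 (h2.1 h)), if_neg (fun h => h4 h.2)]
    · rw [if_neg (fun h : _ ∧ _ => h3 h.1)]
      have h4 : ext0 pi.ker kap (surfaceWord e) = 0 := by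
        unfold ext0
        rw [dif_neg]
        intro h
        apply h3
        rw [word_mapT]
        exact h
      rw [h4, ite_self]
  unfold sumGen
  rw [Finset.sum_congr rfl fun e _ => h1 e]
  set F : (Fin g → Q × Q) → ℂ := fun r =>
    if surfaceWord r = 1 ∧ Subgroup.closure (coords r) = ⊤ then f r else 0 with hF
  change ∑ e : Fin g → E × E, F (mapT pi e) = _ * ∑ r, F r
  rw [← Finset.sum_fiberwise Finset.univ (fun e : Fin g → E × E => mapT pi e)
    (fun e => F (mapT pi e)), Finset.mul_sum]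
  refine Finset.sum_congr rfl fun r _ => ?_
  have h5 : ∑ e ∈ Finset.univ.filter (fun e : Fin g → E × E => mapT pi e = r), F (mapT pi e) =
      ∑ e ∈ Finset.univ.filter (fun e : Fin g → E × E => mapT pi e = r), F r :=
    Finset.sum_congr rfl fun e he => by rw [(Finset.mem_filter.1 he).2]
  rw [h5, Finset.sum_const, nsmul_eq_mul]
  congr 1
  have h6 := card_fib pi hpi g (fun q => q = r)
  rw [Nat.card_eq_fintype_card, Fintype.card_subtype] at h6
  have h7 : Nat.card {q : Fin g → Q × Q // q = r} = 1 := by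
    rw [Nat.card_eq_fintype_card, Fintype.card_subtype_eq]
  rw [h7, mul_one] at h6
  exact_mod_cast h6

end

lemma dvd_of_small {p : ℕ} [hp : Fact p.Prime] {c B n : ℕ} (hc : 0 < c) (hB : c < p ^ B) {s : ℤ}
    (h : (p : ℤ) ^ (n + B) ∣ (c : ℤ) * s) : (p : ℤ) ^ n ∣ s := by
  obtain ⟨v, c', hc', rfl⟩ := Nat.exists_eq_pow_mul_and_not_dvd hc.ne' p hp.out.one_lt.ne'
  have hc0 : 0 < c' := Nat.pos_of_ne_zero (by rintro rfl; simp at hc')
  have hv : v < B := by
    by_contra hcon
    push Not at hcon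
    have h1 : p ^ B ≤ p ^ v := Nat.pow_le_pow_right hp.out.pos hcon
    have h2 : p ^ v ≤ p ^ v * c' := Nat.le_mul_of_pos_right _ hc0
    omega
  obtain ⟨k, rfl⟩ := Nat.exists_eq_add_of_lt hv
  have h1 : (p : ℤ) ^ (n + (v + k + 1)) = (p : ℤ) ^ v * (p : ℤ) ^ (n + k + 1) := by
    rw [← pow_add]
    congr 1
    ring
  rw [h1] at h
  push_cast at h
  rw [mul_assoc] at h
  have hp0 : ((p : ℤ) ^ v) ≠ 0 := pow_ne_zero _ (by exact_mod_cast hp.out.ne_zero)
  have h2 := (mul_dvd_mul_iff_left hp0).1 h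
  have hcop : IsCoprime ((p : ℤ) ^ (n + k + 1)) (c' : ℤ) := by
    refine IsCoprime.pow_left ?_
    rw [Nat.isCoprime_iff_coprime]
    exact (Nat.Prime.coprime_iff_not_dvd hp.out).2 hc'
  have h3 := hcop.dvd_of_dvd_mul_left h2
  exact (pow_dvd_pow _ (by omega)).trans h3

section

variable {E Q : Type} [Group E] [Fintype E] [Group Q] [Fintype Q]

/-- the sum of the values of a faithful character of the kernel of a central extension is small -/
theorem twist_final {p : ℕ} [hp : Fact p.Prime] (pi : E →* Q) (hpi : Function.Surjective pi)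
    (hC : pi.ker ≤ Subgroup.center E) (hpC : ¬ p ∣ Nat.card pi.ker) (kap : pi.ker →* ℂˣ)
    (hk : Function.Injective kap) (g B n : ℕ) (hB : Nat.totient (Nat.card pi.ker) < p ^ B)
    (h : ∀ K : Subgroup E, K ⊔ pi.ker = ⊤ → ∀ A : Subgroup E, A ≤ pi.ker → A ≤ K →
      ∀ _ : (A.subgroupOf K).Normal, (p : ℤ) ^ (n + B) ∣ (numSurj g (K ⧸ A.subgroupOf K) : ℤ))
    (f : (Fin g → Q × Q) → ℂ) (hfi : ∀ r, surfaceWord r = 1 → Subgroup.closure (coords r) = ⊤ →
      IsIntegral ℤ (f r))
    (hf : ∀ e : Fin g → E × E, surfaceWord (mapT pi e) = 1 →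
      Subgroup.closure (coords (mapT pi e)) = ⊤ → ext0 pi.ker kap (surfaceWord e) = f (mapT pi e)) :
    ∃ y : ℂ, IsIntegral ℤ y ∧ (∑ r : Fin g → Q × Q,
      if surfaceWord r = 1 ∧ Subgroup.closure (coords r) = ⊤ then f r else 0) =
        (p : ℂ) ^ n * y := by
  obtain ⟨s, hs, hd⟩ := twisted_dvd pi.ker hC kap hk g _ h
  rw [sumGen_eq pi hpi kap g f hf] at hs
  set Z : ℂ := ∑ r : Fin g → Q × Q,
      if surfaceWord r = 1 ∧ Subgroup.closure (coords r) = ⊤ then f r else 0 with hZ
  have hZi : IsIntegral ℤ Z := by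
    rw [hZ]
    refine IsIntegral.sum _ fun r _ => ?_
    split_ifs with hr
    · exact hfi r hr.1 hr.2
    · exact isIntegral_zero
  have h1 : (p : ℤ) ^ n ∣ s :=
    dvd_of_small (Nat.totient_pos.2 Nat.card_pos) hB hd
  obtain ⟨s', rfl⟩ := h1
  have hcop : IsCoprime ((Nat.card pi.ker : ℤ) ^ (2 * g)) ((p : ℤ) ^ n) := by
    refine IsCoprime.pow ?_
    rw [Nat.isCoprime_iff_coprime]
    exact ((Nat.Prime.coprime_iff_not_dvd hp.out).2 hpC).symm
  obtain ⟨u, v, huv⟩ := hcop
  have huv' : (u : ℂ) * (Nat.card pi.ker : ℂ) ^ (2 * g) + (v : ℂ) * (p : ℂ) ^ n = 1 := by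
    exact_mod_cast huv
  refine ⟨(u : ℂ) * (s' : ℂ) + (v : ℂ) * Z, ?_, ?_⟩
  · refine IsIntegral.add ?_ (IsIntegral.mul ?_ hZi)
    · have := isIntegral_algebraMap (R := ℤ) (A := ℂ) (x := u * s')
      simpa using this
    · have := isIntegral_algebraMap (R := ℤ) (A := ℂ) (x := v)
      simpa using this
  · have h2 : Z = ((u : ℂ) * (Nat.card pi.ker : ℂ) ^ (2 * g) + (v : ℂ) * (p : ℂ) ^ n) * Z := by
      rw [huv', one_mul]
    refine h2.trans ?_
    rw [add_mul, mul_assoc, hs]
    push_cast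
    ring

end

end Pool.Agent.Helper15.AW
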