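import Pool.Agent.Helper15.AWC.Trans4

/-!
# Characters of central subgroups
-/

open scoped Classical BigOperators
open Representation Pool.Agent.Helper884.IC Pool.Agent.Y63.AWC

set_option linter.unusedSectionVars false

noncomputable section

namespace Pool.Agent.Helper15.AW

open Pool.Agent.Y63.KR (surfaceWord coords dg cod dg_spec cod_spec cod_pos DZ_iff)

/-- extension of linear characters -/
lemma extend_linear {G : Type} [Group G] [Finite G] (M : Subgroup G) (d : M →* ℂˣ)
    (h : ∀ x : M, (x : G) ∈ commutator G → d x = 1) : ∃ chi : G →* ℂˣ, ∀ x : M, chi x = d x := by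
  have : Finite (Abelianization G) := inferInstanceAs (Finite (G ⧸ commutator G))
  let f : M →* M.map (Abelianization.of (G := G)) :=
    (Abelianization.of (G := G)).subgroupMap M
  have hf : Function.Surjective f := (Abelianization.of (G := G)).subgroupMap_surjective M
  have hker : f.ker ≤ d.ker := by
    intro x hx
    rw [MonoidHom.mem_ker] at hx ⊢
    apply h
    have h1 : Abelianization.of (x : G) = 1 := congrArg Subtype.val hx
    rw [← Abelianization.ker_of]
    exact h1
  let d' : M.map (Abelianization.of (G := G)) →* ℂˣ := f.liftOfSurjective hf ⟨d, hker⟩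
  have hd' : ∀ x : M, d' (f x) = d x := by
    intro x
    exact MonoidHom.liftOfRightInverse_comp_apply f _ _ ⟨d, hker⟩ x
  obtain ⟨chi, hchi⟩ := MonoidHom.domRestrict_surjective (M := ℂ)
    (M.map (Abelianization.of (G := G))) d'
  refine ⟨chi.comp Abelianization.of, fun x => ?_⟩
  rw [← hd', ← hchi]
  rfl

section

variable {G : Type} [Group G] [Fintype G] {M : Subgroup G} [M.Normal]

theorem exists_controls_central {p : ℕ} [hp : Fact p.Prime] (hM : M ≤ Subgroup.center G)
    (hpM : ¬ p ∣ Nat.card M) {theta : M → ℂ} (ht : IsIrrChar theta) :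
    ∃ (E : Type) (_ : Group E) (_ : Fintype E) (pi : E →* G ⧸ M),
      Controls p theta pi ∧ Nat.card pi.ker ≤ Monoid.exponent (M ⊓ commutator G : Subgroup G) := by
  obtain ⟨V, _, _, _, rho, hr, rfl⟩ := ht
  have hcomm : IsMulCommutative M := ⟨⟨fun a b => Subtype.ext
    (Subgroup.mem_center_iff.1 (hM b.2) a)⟩⟩
  have hdim : Module.finrank ℂ V = 1 := IsIrreducible.finrank_eq_one_of_isMulCommutative (ρ := rho)
  have hinv : Invariant rho.character := by
    intro g x y hxy
    have h1 : y = x := by
      apply Subtype.ext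
      rw [hxy, Subgroup.mem_center_iff.1 (hM x.2) g, mul_inv_cancel_right]
    rw [h1]
  have hsurj := fstH_surj rho hr hinv
  set n := Monoid.exponent (M ⊓ commutator G : Subgroup G) with hn
  let dt : (Module.End ℂ V)ˣ →* ℂˣ := Units.map (LinearMap.det : Module.End ℂ V →* ℂ)
  let d : M →* ℂˣ := (dt.comp (MonoidHom.toHomUnits rho)) ^ n
  have hd : ∀ x : M, (x : G) ∈ commutator G → d x = 1 := by
    intro x hx
    have h1 : (⟨(x : G), x.2, hx⟩ : (M ⊓ commutator G : Subgroup G)) ^ n = 1 :=
      Monoid.pow_exponent_eq_one _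
    have h1' : (x : G) ^ n = 1 := congrArg Subtype.val h1
    have h2 : x ^ n = 1 := Subtype.ext (by rw [Subgroup.coe_pow]; exact h1')
    change (dt.comp (MonoidHom.toHomUnits rho)) x ^ n = 1
    rw [← map_pow, h2, map_one]
  obtain ⟨chi, hchi⟩ := extend_linear M d hd
  let t : Khat rho →* ℂˣ := (chi.comp (fstH rho))⁻¹ * (dt.comp (sndH rho)) ^ n
  refine exists_controls_of rho hr hsurj t n ?_ ?_ ?_
  · intro h
    apply hpM
    refine h.trans ((Group.exponent_dvd_nat_card).trans ?_)
    exact Subgroup.card_dvd_of_le inf_le_left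
  · intro x
    change (chi (x : G))⁻¹ * (dt.comp (MonoidHom.toHomUnits rho)) x ^ n = 1
    rw [hchi x]
    exact inv_mul_cancel _
  · intro z
    change (chi (1 : G))⁻¹ * dt (sndH rho (scal rho z)) ^ n = z ^ n
    rw [map_one, inv_one, one_mul]
    congr 1
    apply Units.ext
    change LinearMap.det ((sndH rho (scal rho z) : (Module.End ℂ V)ˣ) : Module.End ℂ V) = z
    rw [scal_snd, LinearMap.det_smul, hdim, pow_one, map_one, mul_one]

end

/-- the exponent is smaller than the order -/
lemma exponent_lt {G : Type} [Group G] [Finite G] (h : ¬ (IsCyclic (Subgroup.center G) ∧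
    Subgroup.center G ≤ commutator G)) :
    Monoid.exponent (Subgroup.center G ⊓ commutator G : Subgroup G) <
      Nat.card (Subgroup.center G) := by
  have h1 : Monoid.exponent (Subgroup.center G ⊓ commutator G : Subgroup G) ≤
      Nat.card (Subgroup.center G ⊓ commutator G : Subgroup G) :=
    Nat.le_of_dvd Nat.card_pos Group.exponent_dvd_nat_card
  have h2 : Nat.card (Subgroup.center G ⊓ commutator G : Subgroup G) ≤
      Nat.card (Subgroup.center G) := Subgroup.card_le_of_le inf_le_left
  by_contra hcon
  push Not at hcon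
  have h3 : Nat.card (Subgroup.center G ⊓ commutator G : Subgroup G) =
      Nat.card (Subgroup.center G) := le_antisymm h2 (hcon.trans h1)
  have h4 : Subgroup.center G ⊓ commutator G = Subgroup.center G :=
    Subgroup.eq_of_le_of_card_ge inf_le_left h3.ge
  apply h
  refine ⟨?_, inf_eq_left.1 h4⟩
  rw [h4] at hcon h1
  let _ : CommGroup (Subgroup.center G) :=
    { (inferInstance : Group (Subgroup.center G)) with
      mul_comm := fun a b => Subtype.ext (Subgroup.mem_center_iff.1 b.2 a) }
  exact IsCyclic.of_exponent_eq_card (α := Subgroup.center G) (le_antisymm h1 hcon)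

end Pool.Agent.Helper15.AW
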