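import Pool.Agent.Helper15.AWC.Decomp

/-!
# The weight conjecture and the continuity of the number of surjections
-/

open scoped Classical BigOperators

set_option linter.unusedSectionVars false

noncomputable section

namespace Pool.Agent.Helper15.AW

open Pool.Agent.Y63.KR (surfaceWord numHom coords map_surfaceWord weightHom regularPairs
  weight_mod card_mul_surfaceCount surfaceCount_mod surfaceCount)
open Pool.Agent.Y63.AWC (numDefectZero numWeights numRegularClasses card_mul_numRegularClasses
  numRegularClasses_congr numWeights_congr numDefectZero_congr)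
open Pool.Agent.Y63.NV (Closed Reduced XP reduction' xp_closed pgroup_top)

section

variable {p g : ℕ} {G : Type} [Group G]

lemma normSum_rad (h : ∀ M : Subgroup G, M.Normal → IsPGroup p M → M = ⊥) :
    normSum p g G = numSurj g G := by
  unfold normSum
  have hb : (⊥ : Subgroup G).Normal ∧ IsPGroup p (⊥ : Subgroup G) :=
    ⟨inferInstance, IsPGroup.of_bot⟩
  have : Unique {Q : Subgroup G // Q.Normal ∧ IsPGroup p Q} :=
    { default := ⟨⊥, hb⟩
      uniq := fun Q => Subtype.ext (h Q.1 Q.2.1 Q.2.2) }
  rw [finsum_unique]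
  have hd : (default : {Q : Subgroup G // Q.Normal ∧ IsPGroup p Q}).1 = ⊥ := 
    h _ (default : {Q : Subgroup G // Q.Normal ∧ IsPGroup p Q}).2.1
      (default : {Q : Subgroup G // Q.Normal ∧ IsPGroup p Q}).2.2
  have hn := (default : {Q : Subgroup G // Q.Normal ∧ IsPGroup p Q}).2.1
  rw [numSurj_quot_congr g hd, hd, Subgroup.card_bot, one_mul]
  exact numSurj_congr QuotientGroup.quotientBot g

lemma word_one (q : Fin 1 → G × G) :
    surfaceWord q = (q 0).1 * (q 0).2 * (q 0).1⁻¹ * (q 0).2⁻¹ := by
  simp [surfaceWord]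

lemma coords_one (q : Fin 1 → G × G) : coords q = {(q 0).1, (q 0).2} := by
  unfold coords
  rw [Set.range_unique, Set.range_unique]
  rfl

lemma regGen_rad [Finite G] [hp : Fact p.Prime]
    (h : ∀ M : Subgroup G, M.Normal → IsPGroup p M → M = ⊥) :
    regGen p G = numSurj 1 G := by
  unfold regGen numSurj
  have hcomm : ∀ a b : G, a * b * a⁻¹ * b⁻¹ = 1 ↔ a * b = b * a := by
    intro a b
    rw [mul_assoc, ← mul_inv_rev, mul_inv_eq_one]
  refine Nat.card_congr
    { toFun := fun q => ⟨fun _ => q.1, ?_, ?_⟩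
      invFun := fun q => ⟨q.1 0, ⟨?_, ?_⟩, ?_⟩
      left_inv := fun q => rfl
      right_inv := fun q => Subtype.ext (funext fun i => by rw [Subsingleton.elim i 0]) }
  · rw [word_one]
    exact (hcomm _ _).2 q.2.1.2
  · rw [coords_one]
    exact q.2.2
  · have h1 : (q.1 0).1 * (q.1 0).2 = (q.1 0).2 * (q.1 0).1 := by
      rw [← hcomm, ← word_one]
      exact q.2.1
    have h2 : Subgroup.closure {(q.1 0).1, (q.1 0).2} = ⊤ := by
      rw [← coords_one]
      exact q.2.2
    intro hdvd
    have hcent : ∀ x y : G, x * y = y * x := by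
      have hc := Subgroup.isMulCommutative_closure
        (k := ({(q.1 0).1, (q.1 0).2} : Set G)) (by
        intro x hx y hy
        rcases hx with rfl | rfl <;> rcases hy with rfl | rfl
        · rfl
        · exact h1
        · exact h1.symm
        · rfl)
      intro x y
      have hx : x ∈ Subgroup.closure {(q.1 0).1, (q.1 0).2} := by rw [h2]; trivial
      have hy : y ∈ Subgroup.closure {(q.1 0).1, (q.1 0).2} := by rw [h2]; trivial
      exact congrArg Subtype.val (hc.is_comm.comm ⟨x, hx⟩ ⟨y, hy⟩)
    set x := (q.1 0).1 with hx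
    obtain ⟨k, hk⟩ := hdvd
    have hpos : 0 < orderOf x := orderOf_pos x
    have hk0 : k ≠ 0 := by
      rintro rfl
      omega
    have ho : orderOf (x ^ k) = p := by
      rw [orderOf_pow' x hk0, hk, Nat.gcd_mul_left_left, Nat.mul_div_cancel _ (Nat.pos_of_ne_zero hk0)]
    have hM : Subgroup.zpowers (x ^ k) = ⊥ := by
      refine h _ ⟨?_⟩ ?_
      · intro y hy z
        rw [hcent z y, mul_inv_cancel_right]
        exact hy
      · rw [IsPGroup.iff_card]
        exact ⟨1, by rw [Nat.card_zpowers, ho, pow_one]⟩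
    rw [Subgroup.zpowers_eq_bot] at hM
    rw [hM, orderOf_one] at ho
    exact hp.out.one_lt.ne ho
  · rw [← hcomm, ← word_one]
    exact q.2.1
  · rw [← coords_one]
    exact q.2.2

theorem term_rad [Finite G] [hp : Fact p.Prime]
    (h : ∀ M : Subgroup G, M.Normal → IsPGroup p M → M = ⊥) :
    term p g G = (numSurj g G : ℤ) - numSurj 1 G := by
  unfold term
  rw [normSum_rad h, regGen_rad h]

lemma top_congr (f : ∀ (H : Type) [Group H], ℤ)
    (hf : ∀ (H K : Type) [Group H] [Group K], (H ≃* K) → f H = f K) :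
    f (⊤ : Subgroup G) = f G := hf _ _ Subgroup.topEquiv

lemma map_equiv {L : Subgroup G} (K : Subgroup L) : Nonempty (K ≃* K.map L.subtype) :=
  ⟨K.equivMapOfInjective _ L.subtype_injective⟩

/-- the contribution of `G` is the value at `G` of the Möbius transform of `|K| (w(K) - l(K))` -/
theorem term_mod [Finite G] [hp : Fact p.Prime] [Fintype (Subgroup G)] {N : ℕ} (hg : 2 ≤ g)
    (hd : p ^ N * (p - 1) ∣ g - 1) (D : Subgroup G → ℤ)
    (hD : ∀ L : Subgroup G, (∑ K : Subgroup G, if K ≤ L then D K else 0) =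
      (Nat.card L : ℤ) * (numWeights p L - numRegularClasses p L)) :
    (p : ℤ) ^ (N + 1) ∣ term p g G - D ⊤ := by
  have key := mobius_dvd ((p : ℤ) ^ (N + 1)) (fun K : Subgroup G => term p g K) D ?_ ⊤
  · have h1 : term p g (⊤ : Subgroup G) = term p g G := term_congr Subgroup.topEquiv p g
    rwa [h1] at key
  · intro L
    have : Fintype (Subgroup L) := Fintype.ofFinite _
    rw [hD L, ← sum_sub_subgroup L (fun K => term p g K)]
    have h2 : ∑ K : Subgroup L, term p g (K.map L.subtype) = ∑ K : Subgroup L, term p g K :=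
      Finset.sum_congr rfl fun K _ => by
        obtain ⟨e⟩ := map_equiv K
        exact (term_congr e p g).symm
    rw [h2, ← F_sum (p := p) (g := g) (G := L)]
    obtain ⟨n, rfl⟩ : ∃ n, g = n + 1 := ⟨g - 1, by omega⟩
    have h3 := weight_mod (p := p) (G := L) (N := N) (n := n) (by omega) (by simpa using hd)
    have h4 : Nat.card L * numRegularClasses p L = regularPairs p L :=
      card_mul_numRegularClasses p L
    rw [← h4]
    have h5 : (weightHom p (n + 1) L : ℤ) - ((Nat.card L * numRegularClasses p L : ℕ) : ℤ) -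
        (Nat.card L : ℤ) * (numWeights p L - numRegularClasses p L) =
        (weightHom p (n + 1) L : ℤ) - ((Nat.card L * numWeights p L : ℕ) : ℤ) := by
      push_cast
      ring
    rw [h5]
    exact h3

theorem numHom_sum' [Finite G] [Fintype (Subgroup G)] (g : ℕ) :
    numHom g G = ∑ K : Subgroup G, numSurj g K := by
  have : Fintype G := Fintype.ofFinite G
  unfold numHom
  rw [Nat.card_eq_fintype_card, Fintype.card_subtype,
    Finset.card_eq_sum_card_fiberwise (f := fun q : Fin g → G × G =>
      Subgroup.closure (coords q)) (t := Finset.univ)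
      (fun _ _ => Finset.mem_coe.2 (Finset.mem_univ _))]
  refine Finset.sum_congr rfl fun K _ => ?_
  have hK : ((⊥ : Subgroup G).subgroupOf K).Normal := by
    rw [Subgroup.bot_subgroupOf]; infer_instance
  have h1 := numSurj_quot (G := G) g (bot_le : (⊥ : Subgroup G) ≤ K)
  rw [Subgroup.card_bot, one_pow, one_mul] at h1
  have h2 : numSurj g (K ⧸ (⊥ : Subgroup G).subgroupOf K) = numSurj g K := by
    rw [numSurj_quot_congr g (Subgroup.bot_subgroupOf K)]
    exact numSurj_congr QuotientGroup.quotientBot g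
  rw [← h2, h1, Nat.card_eq_fintype_card, Fintype.card_subtype, Finset.filter_filter]
  congr 1
  ext q
  simp only [Finset.mem_filter, Finset.mem_univ, true_and, Subgroup.mem_bot, sup_bot_eq]
  constructor
  · rintro ⟨h3, h4⟩
    exact ⟨h4 ▸ Subgroup.subset_closure, h3, h4⟩
  · rintro ⟨_, h3, h4⟩
    exact ⟨h3, h4⟩

/-- the number of surjections tends to the Möbius transform of `|K| z(K)` -/
theorem numSurj_mod [Finite G] [hp : Fact p.Prime] [Fintype (Subgroup G)] {N : ℕ} (hg : 2 ≤ g)
    (hd : p ^ N * (p - 1) ∣ g - 1) (e : Subgroup G → ℤ)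
    (he : ∀ L : Subgroup G, (∑ K : Subgroup G, if K ≤ L then e K else 0) =
      (Nat.card L : ℤ) * numDefectZero p L) :
    (p : ℤ) ^ (N + 1) ∣ (numSurj g G : ℤ) - e ⊤ := by
  have key := mobius_dvd ((p : ℤ) ^ (N + 1)) (fun K : Subgroup G => (numSurj g K : ℤ)) e ?_ ⊤
  · have h1 : numSurj g (⊤ : Subgroup G) = numSurj g G := numSurj_congr Subgroup.topEquiv g
    rwa [h1] at key
  · intro L
    have : Fintype (Subgroup L) := Fintype.ofFinite _
    rw [he L, ← sum_sub_subgroup L (fun K => (numSurj g K : ℤ))]
    have h2 : ∑ K : Subgroup L, (numSurj g (K.map L.subtype) : ℤ) =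
        ((∑ K : Subgroup L, numSurj g K : ℕ) : ℤ) := by
      push_cast
      exact Finset.sum_congr rfl fun K _ => by
        obtain ⟨e⟩ := map_equiv K
        rw [numSurj_congr e]
    rw [h2, ← numHom_sum']
    obtain ⟨n, rfl⟩ : ∃ n, g = n + 1 := ⟨g - 1, by omega⟩
    have h3 := surfaceCount_mod (p := p) (G := L) (N := N) (n := n) (by omega) (by simpa using hd)
    have h4 := card_mul_surfaceCount (G := L) n
    rw [← h4]
    push_cast
    rw [← mul_sub]
    exact Dvd.dvd.mul_left h3 _

/-- if the conjecture holds for the proper subgroups, the contribution of `G` is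
`|G| (w(G) - l(G))` -/
theorem term_mod_of_proper [Finite G] [hp : Fact p.Prime] {N : ℕ} (hg : 2 ≤ g)
    (hd : p ^ N * (p - 1) ∣ g - 1)
    (h : ∀ L : Subgroup G, L ≠ ⊤ → numRegularClasses p L = numWeights p L) :
    (p : ℤ) ^ (N + 1) ∣ term p g G -
      (Nat.card G : ℤ) * (numWeights p G - numRegularClasses p G) := by
  have : Fintype (Subgroup G) := Fintype.ofFinite _
  have key := term_mod (p := p) (g := g) (G := G) hg hd
    (fun K => if K = ⊤ then (Nat.card G : ℤ) * (numWeights p G - numRegularClasses p G) else 0) ?_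
  · simpa using key
  · intro L
    by_cases hL : L = ⊤
    · subst hL
      rw [Finset.sum_eq_single (⊤ : Subgroup G)]
      · rw [if_pos le_rfl, if_pos rfl, Subgroup.card_top,
          numWeights_congr (p := p) (Subgroup.topEquiv (G := G)),
          numRegularClasses_congr (p := p) (Subgroup.topEquiv (G := G))]
      · intro K _ hK
        rw [if_neg hK]
        simp
      · intro h
        exact absurd (Finset.mem_univ _) h
    · rw [h L hL, sub_self, mul_zero]
      refine Finset.sum_eq_zero fun K _ => ?_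
      split_ifs with h1 h2
      · subst h2
        exact absurd (top_le_iff.1 h1) hL
      · rfl
      · rfl

/-- if the conjecture holds for all subgroups, the contribution of `G` vanishes -/
theorem term_mod_of_all [Finite G] [hp : Fact p.Prime] {N : ℕ} (hg : 2 ≤ g)
    (hd : p ^ N * (p - 1) ∣ g - 1)
    (h : ∀ L : Subgroup G, numRegularClasses p L = numWeights p L) :
    (p : ℤ) ^ (N + 1) ∣ term p g G := by
  have key := term_mod_of_proper (p := p) (g := g) (G := G) hg hd (fun L _ => h L)
  have h1 := h ⊤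
  rw [numWeights_congr (p := p) (Subgroup.topEquiv (G := G)),
    numRegularClasses_congr (p := p) (Subgroup.topEquiv (G := G))] at h1
  rw [h1, sub_self, mul_zero, sub_zero] at key
  exact key

end

/-- exact divisibility by all powers gives zero -/
lemma eq_of_forall_dvd {p : ℕ} [hp : Fact p.Prime] {D : ℤ}
    (h : ∀ N : ℕ, (p : ℤ) ^ (N + 1) ∣ D) : D = 0 := by
  by_contra hne
  obtain ⟨N, hN⟩ : ∃ N : ℕ, |D| < (p : ℤ) ^ N := by
    refine ⟨D.natAbs, ?_⟩
    rw [Int.abs_eq_natAbs]
    exact_mod_cast Nat.lt_pow_self hp.out.one_lt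
  exact hne (Int.eq_zero_of_abs_lt_dvd ((pow_dvd_pow _ (Nat.le_succ N)).trans (h N)) hN)

/-- the weight conjecture for the groups in `X` gives the continuity -/
theorem cont_of_awc {p : ℕ} [Fact p.Prime] (X : ∀ (H : Type) [Group H], Prop) (hX : Closed p X)
    (h : ∀ (G : Type) [Group G] [Finite G], X G → numRegularClasses p G = numWeights p G)
    (H : Type) [Group H] [Finite H] (hH : X H)
    (hR : ∀ M : Subgroup H, M.Normal → IsPGroup p M → M = ⊥) {N g : ℕ} (hg : 2 ≤ g)
    (hd : p ^ N * (p - 1) ∣ g - 1) :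
    (p : ℤ) ^ (N + 1) ∣ (numSurj g H : ℤ) - numSurj 1 H := by
  have h1 := term_mod_of_all (p := p) (G := H) hg hd (fun L => h L (hX.sub H hH L))
  rwa [term_rad hR] at h1

/-- a reduced group for whose smaller relatives the conjecture holds -/
theorem awc_step {p : ℕ} [Fact p.Prime] (X : ∀ (H : Type) [Group H], Prop) (hX : Closed p X)
    (H : Type) [Group H] [Finite H] (hH : X H) (hR : Reduced p H)
    (hsmall : ∀ (L : Type) [Group L] [Finite L], XP p X L → Nat.card L < Nat.card H →
        numRegularClasses p L = numWeights p L)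
    (hc : ∀ N : ℕ, ∃ g : ℕ, 2 ≤ g ∧ p ^ N * (p - 1) ∣ g - 1 ∧
      (p : ℤ) ^ (N + 1) ∣ (numSurj g H : ℤ) - numSurj 1 H) :
    numRegularClasses p H = numWeights p H := by
  have hD : (Nat.card H : ℤ) * (numWeights p H - numRegularClasses p H) = 0 := by
    refine eq_of_forall_dvd (p := p) fun N => ?_
    obtain ⟨g, hg, hd, h1⟩ := hc N
    have h2 := term_mod_of_proper (p := p) (G := H) hg hd (fun L hL => by
      refine hsmall L ((xp_closed p X hX).sub H ⟨⊤, inferInstance,
        hX.iso _ _ hH ⟨Subgroup.topEquiv.symm⟩, pgroup_top p H⟩ _) ?_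
      have e1 : Nat.card L ≠ Nat.card H := fun h => hL ((Subgroup.card_eq_iff_eq_top L).mp h)
      have e2 := Subgroup.card_le_card_group L
      omega)
    rw [term_rad hR.radical] at h2
    have := dvd_sub h1 h2
    rwa [sub_sub_cancel] at this
  have h0 : (Nat.card H : ℤ) ≠ 0 := by exact_mod_cast Nat.card_pos.ne'
  have := (mul_eq_zero.1 hD).resolve_left h0
  have h3 : (numWeights p H : ℤ) = numRegularClasses p H := sub_eq_zero.1 this
  exact_mod_cast h3.symm

end Pool.Agent.Helper15.AW
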