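import Pool.Graph.R_seed8.Y63.NV.Krc
import Pool.Graph.R_pool_sql_team_seeded_1acbe0a2.Y63.KR.Weights

/-!
# Counting surjections from surface groups
-/

open scoped Classical BigOperators

set_option linter.unusedSectionVars false

noncomputable section

namespace Pool.Agent.Helper15.AW

open Pool.Agent.Y63.KR (surfaceWord numHom coords map_surfaceWord weightHom regularPairs)

/-- The number of surjective homomorphisms from the fundamental group of the closed orientable
surface of genus `g` to `H`: the number of the `2g`-tuples of elements `a_i`, `b_i` which generate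
`H` and satisfy `∏ a_i b_i a_i⁻¹ b_i⁻¹ = 1`. -/
def numSurj (g : ℕ) (H : Type) [Group H] : ℕ :=
  Nat.card {q : Fin g → H × H // surfaceWord q = 1 ∧ Subgroup.closure (coords q) = ⊤}

/-- apply a map to all coordinates -/
def mapT {g : ℕ} {H K : Type} (f : H → K) (q : Fin g → H × H) : Fin g → K × K :=
  fun i => (f (q i).1, f (q i).2)

section

variable {H K : Type} [Group H] [Group K] {g : ℕ}

lemma word_mapT (f : H →* K) (q : Fin g → H × H) :
    surfaceWord (mapT f q) = f (surfaceWord q) := (map_surfaceWord f q).symm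

lemma coords_mapT (f : H → K) (q : Fin g → H × H) : coords (mapT f q) = f '' coords q := by
  unfold coords mapT
  rw [Set.image_union, ← Set.range_comp, ← Set.range_comp]
  rfl

lemma closure_mapT (f : H →* K) (q : Fin g → H × H) :
    Subgroup.closure (coords (mapT f q)) = (Subgroup.closure (coords q)).map f := by
  rw [coords_mapT, MonoidHom.map_closure]

lemma numSurj_congr (e : H ≃* K) (g : ℕ) : numSurj g H = numSurj g K := by
  unfold numSurj
  refine Nat.card_congr
    { toFun := fun q => ⟨mapT e q.1, ?_, ?_⟩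
      invFun := fun q => ⟨mapT e.symm q.1, ?_, ?_⟩
      left_inv := fun q => Subtype.ext (funext fun i => by simp [mapT])
      right_inv := fun q => Subtype.ext (funext fun i => by simp [mapT]) }
  · have := word_mapT e.toMonoidHom q.1
    rw [q.2.1, map_one] at this
    exact this
  · have := closure_mapT e.toMonoidHom q.1
    rw [q.2.2] at this
    exact this.trans (Subgroup.map_top_of_surjective _ e.surjective)
  · have := word_mapT e.symm.toMonoidHom q.1
    rw [q.2.1, map_one] at this
    exact this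
  · have := closure_mapT e.symm.toMonoidHom q.1
    rw [q.2.2] at this
    exact this.trans (Subgroup.map_top_of_surjective _ e.symm.surjective)

/-- the fibres of the map on tuples -/
theorem card_fib (f : H →* K) (hf : Function.Surjective f) (g : ℕ)
    (P : (Fin g → K × K) → Prop) :
    Nat.card {q : Fin g → H × H // P (mapT f q)} =
      Nat.card f.ker ^ (2 * g) * Nat.card {q : Fin g → K × K // P q} := by
  obtain ⟨s, hs⟩ := hf.hasRightInverse
  have hk : ∀ x : H, (s (f x))⁻¹ * x ∈ f.ker := by
    intro x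
    rw [MonoidHom.mem_ker, map_mul, map_inv, hs, inv_mul_cancel]
  have hsk : ∀ (y : K) (c : f.ker), f (s y * c) = y := by
    intro y c
    rw [map_mul, hs, (MonoidHom.mem_ker).1 c.2, mul_one]
  let e : {q : Fin g → H × H // P (mapT f q)} ≃
      {q : Fin g → K × K // P q} × (Fin g → f.ker × f.ker) :=
    { toFun := fun q => (⟨mapT f q.1, q.2⟩,
        fun i => (⟨_, hk (q.1 i).1⟩, ⟨_, hk (q.1 i).2⟩))
      invFun := fun r => ⟨fun i => (s (r.1.1 i).1 * (r.2 i).1, s (r.1.1 i).2 * (r.2 i).2), by
        have : mapT f (fun i => (s (r.1.1 i).1 * ((r.2 i).1 : H), s (r.1.1 i).2 * ((r.2 i).2 : H))) =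
            r.1.1 := by
          funext i
          unfold mapT
          rw [hsk, hsk]
        rw [this]
        exact r.1.2⟩
      left_inv := fun q => Subtype.ext (funext fun i => by simp [mapT])
      right_inv := fun r => by
        refine Prod.ext (Subtype.ext (funext fun i => ?_)) (funext fun i => ?_)
        · simp only [mapT, hsk]
        · refine Prod.ext (Subtype.ext ?_) (Subtype.ext ?_)
          · simp only [hsk]
            group
          · simp only [hsk]
            group }
  rw [Nat.card_congr e, Nat.card_prod, mul_comm]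
  congr 1
  rw [Nat.card_fun, Nat.card_prod]
  simp only [Nat.card_eq_fintype_card, Fintype.card_fin]
  rw [pow_mul, sq]

end

section

variable {G : Type} [Group G] {g : ℕ}

/-- tuples in a subgroup -/
def subT (J : Subgroup G) (P : (Fin g → G × G) → Prop) :
    {q : Fin g → J × J // P (mapT J.subtype q)} ≃ {q : Fin g → G × G // coords q ⊆ J ∧ P q} where
  toFun q := ⟨mapT J.subtype q.1, by
    rw [coords_mapT]
    rintro _ ⟨x, _, rfl⟩
    exact x.2, q.2⟩
  invFun q := ⟨fun i => (⟨(q.1 i).1, q.2.1 (Or.inl ⟨i, rfl⟩)⟩, ⟨(q.1 i).2, q.2.1 (Or.inr ⟨i, rfl⟩)⟩),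
    q.2.2⟩
  left_inv q := rfl
  right_inv q := rfl

lemma sup_eq_iff {J : Subgroup G} (Q : Subgroup G) (hQ : Q ≤ J) (s : Set J) :
    Subgroup.closure s ⊔ Q.subgroupOf J = ⊤ ↔ Subgroup.closure (J.subtype '' s) ⊔ Q = J := by
  have h1 : (Subgroup.closure s ⊔ Q.subgroupOf J).map J.subtype =
      Subgroup.closure (J.subtype '' s) ⊔ Q := by
    rw [Subgroup.map_sup, MonoidHom.map_closure, Subgroup.subgroupOf_map_subtype,
      inf_eq_left.mpr hQ]
  rw [← h1]
  constructor
  · intro h
    rw [h, ← MonoidHom.range_eq_map, Subgroup.range_subtype]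
  · intro h
    rw [eq_top_iff]
    intro x _
    have : (x : G) ∈ (Subgroup.closure s ⊔ Q.subgroupOf J).map J.subtype := by
      rw [h]; exact x.2
    obtain ⟨y, hy, hyx⟩ := this
    have : y = x := Subtype.ext hyx
    rwa [← this]

lemma quot_sup_iff {J : Type} [Group J] (Q : Subgroup J) [Q.Normal] (A : Subgroup J) :
    A.map (QuotientGroup.mk' Q) = ⊤ ↔ A ⊔ Q = ⊤ := by
  constructor
  · intro h
    have h1 := congrArg (Subgroup.comap (QuotientGroup.mk' Q)) h
    rwa [Subgroup.comap_map_eq, QuotientGroup.ker_mk', Subgroup.comap_top] at h1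
  · intro h
    have h1 := congrArg (Subgroup.map (QuotientGroup.mk' Q)) h
    rw [Subgroup.map_sup, Subgroup.map_top_of_surjective _ (QuotientGroup.mk'_surjective Q)] at h1
    have h2 : Q.map (QuotientGroup.mk' Q) = ⊥ := by
      rw [Subgroup.map_eq_bot_iff, QuotientGroup.ker_mk']
    rwa [h2, sup_bot_eq] at h1

lemma card_subgroupOf {J : Subgroup G} {Q : Subgroup G} (hQ : Q ≤ J) :
    Nat.card (Q.subgroupOf J) = Nat.card Q :=
  Nat.card_congr (Subgroup.subgroupOfEquivOfLe hQ).toEquiv

/-- the surjections to `K/Q` -/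
lemma numSurj_quot [Finite G] (g : ℕ) {Q K : Subgroup G} (hQ : Q ≤ K)
    [hn : (Q.subgroupOf K).Normal] :
    Nat.card Q ^ (2 * g) * numSurj g (K ⧸ Q.subgroupOf K) =
      Nat.card {q : Fin g → G × G // coords q ⊆ K ∧
        (surfaceWord q ∈ Q ∧ Subgroup.closure (coords q) ⊔ Q = K)} := by
  have h1 := card_fib (QuotientGroup.mk' (Q.subgroupOf K)) (QuotientGroup.mk'_surjective _) g
    (fun q => surfaceWord q = 1 ∧ Subgroup.closure (coords q) = ⊤)
  rw [QuotientGroup.ker_mk', card_subgroupOf hQ] at h1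
  unfold numSurj
  rw [← h1, ← Nat.card_congr (subT K (fun q => surfaceWord q ∈ Q ∧
    Subgroup.closure (coords q) ⊔ Q = K))]
  refine Nat.card_congr (Equiv.subtypeEquivRight fun q => ?_)
  rw [word_mapT, word_mapT, closure_mapT, quot_sup_iff, sup_eq_iff Q hQ, coords_mapT,
    QuotientGroup.mk'_apply, QuotientGroup.eq_one_iff, Subgroup.mem_subgroupOf]
  rfl

/-- the homomorphisms to `J/Q` -/
lemma numHom_quot [Finite G] (g : ℕ) {Q J : Subgroup G} (hQ : Q ≤ J)
    [hn : (Q.subgroupOf J).Normal] :
    Nat.card Q ^ (2 * g) * numHom g (J ⧸ Q.subgroupOf J) =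
      Nat.card {q : Fin g → G × G // coords q ⊆ J ∧ surfaceWord q ∈ Q} := by
  have h1 := card_fib (QuotientGroup.mk' (Q.subgroupOf J)) (QuotientGroup.mk'_surjective _) g
    (fun q => surfaceWord q = 1)
  rw [QuotientGroup.ker_mk', card_subgroupOf hQ] at h1
  unfold numHom
  rw [← h1, ← Nat.card_congr (subT J (fun q => surfaceWord q ∈ Q))]
  refine Nat.card_congr (Equiv.subtypeEquivRight fun q => ?_)
  rw [word_mapT, word_mapT, QuotientGroup.mk'_apply, QuotientGroup.eq_one_iff,
    Subgroup.mem_subgroupOf]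
  rfl

/-- the number of surjections to `K/Q` -/
def sec (g : ℕ) (Q K : Subgroup G) : ℕ :=
  if h : (Q.subgroupOf K).Normal then numSurj g (K ⧸ Q.subgroupOf K) else 0

lemma sec_eq (g : ℕ) (Q K : Subgroup G) [h : (Q.subgroupOf K).Normal] :
    sec g Q K = numSurj g (K ⧸ Q.subgroupOf K) := by
  unfold sec
  rw [dif_pos h]

lemma normal_of_le {Q K : Subgroup G} (h2 : K ≤ Subgroup.normalizer (Q : Set G)) :
    (Q.subgroupOf K).Normal := by
  constructor
  intro x hx y
  rw [Subgroup.mem_subgroupOf] at hx ⊢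
  have := (Subgroup.mem_normalizer_iff.1 (h2 y.2) (x : G)).1 hx
  simpa using this

lemma le_of_normal {Q K : Subgroup G} (h1 : Q ≤ K) (h : (Q.subgroupOf K).Normal) :
    K ≤ Subgroup.normalizer (Q : Set G) :=
  (Subgroup.normal_subgroupOf_iff_le_normalizer h1).1 h

theorem numHom_sum [Finite G] [Fintype (Subgroup G)] (g : ℕ) {Q J : Subgroup G} (hQ : Q ≤ J)
    (hJ : J ≤ Subgroup.normalizer (Q : Set G)) [hn : (Q.subgroupOf J).Normal] :
    numHom g (J ⧸ Q.subgroupOf J) =
      ∑ K : Subgroup G, if Q ≤ K ∧ K ≤ J then sec g Q K else 0 := by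
  have : Fintype G := Fintype.ofFinite G
  have hpos : 0 < Nat.card Q ^ (2 * g) := pow_pos Nat.card_pos _
  refine Nat.eq_of_mul_eq_mul_left hpos ?_
  rw [numHom_quot g hQ, Finset.mul_sum]
  rw [Nat.card_eq_fintype_card, Fintype.card_subtype,
    Finset.card_eq_sum_card_fiberwise (f := fun q : Fin g → G × G =>
      Subgroup.closure (coords q) ⊔ Q) (t := Finset.univ) (fun _ _ => Finset.mem_coe.2 (Finset.mem_univ _))]
  refine Finset.sum_congr rfl fun K _ => ?_
  split_ifs with h
  · have hn' : (Q.subgroupOf K).Normal := normal_of_le (h.2.trans hJ)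
    rw [sec_eq, numSurj_quot g h.1, Nat.card_eq_fintype_card, Fintype.card_subtype]
    congr 1
    ext q
    simp only [Finset.mem_filter, Finset.mem_univ, true_and]
    constructor
    · rintro ⟨⟨h1, h2⟩, h3⟩
      refine ⟨?_, h2, h3⟩
      rw [← h3]
      exact Subgroup.subset_closure.trans (le_sup_left (a := Subgroup.closure (coords q)) (b := Q))
    · rintro ⟨h1, h2, h3⟩
      exact ⟨⟨h1.trans h.2, h2⟩, h3⟩
  · rw [mul_zero, Finset.card_eq_zero, Finset.filter_eq_empty_iff]
    intro q hq h3
    rw [Finset.mem_filter] at hq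
    apply h
    rw [← h3]
    refine ⟨le_sup_right, sup_le ?_ hQ⟩
    rw [Subgroup.closure_le]
    exact hq.2.1

end

end Pool.Agent.Helper15.AW
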