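import Pool.Agent.Helper15.AWC.Count

/-!
# The contributions of the subgroups to the numbers of weights and of `p`-regular classes
-/

open scoped Classical BigOperators

set_option linter.unusedSectionVars false

noncomputable section

namespace Pool.Agent.Helper15.AW

open Pool.Agent.Y63.KR (surfaceWord numHom coords map_surfaceWord weightHom regularPairs
  weight_mod card_mul_surfaceCount surfaceCount_mod surfaceCount)
open Pool.Agent.Y63.AWC (numDefectZero numWeights numRegularClasses card_mul_numRegularClasses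
  numRegularClasses_congr numWeights_congr numDefectZero_congr)

/-- `∑_Q |Q| |Epi(Π_g, K/Q)|`, the sum over the normal `p`-subgroups of `K` -/
def normSum (p g : ℕ) (K : Type) [Group K] : ℕ :=
  ∑ᶠ Q : {Q : Subgroup K // Q.Normal ∧ IsPGroup p Q},
    Nat.card Q.1 * (haveI := Q.2.1; numSurj g (K ⧸ Q.1))

/-- the number of the commuting pairs `(x, y)` with `x` of order prime to `p` which generate `K` -/
def regGen (p : ℕ) (K : Type) [Group K] : ℕ :=
  Nat.card {q : K × K // (¬ p ∣ orderOf q.1 ∧ q.1 * q.2 = q.2 * q.1) ∧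
    Subgroup.closure {q.1, q.2} = ⊤}

lemma numSurj_quot_congr {K : Type} [Group K] (g : ℕ) {Q R : Subgroup K} [hQ : Q.Normal]
    [hR : R.Normal] (h : Q = R) : numSurj g (K ⧸ Q) = numSurj g (K ⧸ R) := by
  subst h
  rfl

section

variable {p g : ℕ} {G : Type} [Group G]

lemma normSum_congr {H K : Type} [Group H] [Group K] (e : H ≃* K) (p g : ℕ) :
    normSum p g H = normSum p g K := by
  unfold normSum
  have hn : ∀ Q : Subgroup H, Q.Normal ∧ IsPGroup p Q ↔
      (Q.map e.toMonoidHom).Normal ∧ IsPGroup p (Q.map e.toMonoidHom) := by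
    intro Q
    constructor
    · rintro ⟨h1, h2⟩
      exact ⟨h1.map _ e.surjective, h2.map _⟩
    · rintro ⟨h1, h2⟩
      have h3 : (Q.map e.toMonoidHom).comap e.toMonoidHom = Q :=
        Subgroup.comap_map_eq_self_of_injective e.injective Q
      refine ⟨h3 ▸ h1.comap _, ?_⟩
      have := h2.of_injective
        ((e.subgroupMap Q).toMonoidHom : Q →* _) (e.subgroupMap Q).injective
      exact this
  let E : {Q : Subgroup H // Q.Normal ∧ IsPGroup p Q} ≃
      {Q : Subgroup K // Q.Normal ∧ IsPGroup p Q} :=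
    Equiv.subtypeEquiv e.mapSubgroup.toEquiv hn
  refine finsum_eq_of_bijective E E.bijective fun Q => ?_
  have hQ := Q.2.1
  have hQ' := (E Q).2.1
  have h1 : Nat.card Q.1 = Nat.card (E Q).1 :=
    Nat.card_congr (e.subgroupMap Q.1).toEquiv
  rw [h1]
  congr 1
  exact numSurj_congr (QuotientGroup.congr Q.1 (E Q).1 e rfl) g

lemma regGen_congr {H K : Type} [Group H] [Group K] (e : H ≃* K) (p : ℕ) :
    regGen p H = regGen p K := by
  unfold regGen
  refine Nat.card_congr (Equiv.subtypeEquiv (Equiv.prodCongr e.toEquiv e.toEquiv) fun q => ?_)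
  have h1 : orderOf (e q.1) = orderOf q.1 := MulEquiv.orderOf_eq e q.1
  have h2 : e q.1 * e q.2 = e q.2 * e q.1 ↔ q.1 * q.2 = q.2 * q.1 := by
    rw [← map_mul, ← map_mul]
    exact e.injective.eq_iff
  have h3 : Subgroup.closure {e q.1, e q.2} = ⊤ ↔ Subgroup.closure {q.1, q.2} = ⊤ := by
    have h4 : (Subgroup.closure {q.1, q.2}).map e.toMonoidHom =
        Subgroup.closure {e q.1, e q.2} := by
      rw [MonoidHom.map_closure, Set.image_pair]
      rfl
    rw [← h4]
    constructor
    · intro h
      have := congrArg (Subgroup.comap e.toMonoidHom) h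
      rwa [Subgroup.comap_map_eq_self_of_injective e.injective, Subgroup.comap_top] at this
    · intro h
      rw [h]
      exact Subgroup.map_top_of_surjective _ e.surjective
  change _ ↔ (¬ p ∣ orderOf (e q.1) ∧ e q.1 * e q.2 = e q.2 * e q.1) ∧
    Subgroup.closure {e q.1, e q.2} = ⊤
  rw [h1, h2, h3]

lemma normSum_sub [Finite G] [Fintype (Subgroup G)] (K : Subgroup G) :
    normSum p g K = ∑ Q : Subgroup G,
      if IsPGroup p Q ∧ Q ≤ K ∧ K ≤ Subgroup.normalizer (Q : Set G)
        then Nat.card Q * sec g Q K else 0 := by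
  unfold normSum
  have : Fintype {Q : Subgroup K // Q.Normal ∧ IsPGroup p Q} := Fintype.ofFinite _
  rw [finsum_eq_sum_of_fintype, ← Finset.sum_filter]
  have hback : ∀ Q : Subgroup K, (Q.map K.subtype).subgroupOf K = Q := fun Q =>
    Subgroup.comap_map_eq_self_of_injective K.subtype_injective Q
  refine Finset.sum_bij (fun Q _ => Q.1.map K.subtype) ?_ ?_ ?_ ?_
  · rintro ⟨Q, hn, hp⟩ _
    rw [Finset.mem_filter]
    refine ⟨Finset.mem_univ _, hp.map _, Subgroup.map_subtype_le _, ?_⟩
    refine le_of_normal (Subgroup.map_subtype_le _) ?_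
    rw [hback]
    exact hn
  · rintro ⟨Q, hn, hp⟩ _ ⟨R, hn', hp'⟩ _ h
    apply Subtype.ext
    exact Subgroup.map_injective K.subtype_injective h
  · intro Q hQ
    rw [Finset.mem_filter] at hQ
    obtain ⟨_, hp, h1, h2⟩ := hQ
    refine ⟨⟨Q.subgroupOf K, normal_of_le h2, hp.comap_subtype⟩, Finset.mem_univ _, ?_⟩
    change (Q.subgroupOf K).map K.subtype = Q
    rw [Subgroup.subgroupOf_map_subtype, inf_eq_left.mpr h1]
  · rintro ⟨Q, hn, hp⟩ _
    have hn' : ((Q.map K.subtype).subgroupOf K).Normal := by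
      rw [hback]; exact hn
    change Nat.card Q * numSurj g (K ⧸ Q) = Nat.card (Q.map K.subtype) * sec g (Q.map K.subtype) K
    rw [sec_eq, numSurj_quot_congr g (hback Q)]
    congr 1
    exact Nat.card_congr (Q.equivMapOfInjective _ K.subtype_injective).toEquiv

theorem weightHom_sum [Finite G] [Fintype (Subgroup G)] :
    weightHom p g G = ∑ K : Subgroup G, normSum p g K := by
  unfold weightHom
  have : Fintype {Q : Subgroup G // IsPGroup p Q} := Fintype.ofFinite _
  rw [finsum_eq_sum_of_fintype]
  simp only [normSum_sub]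
  rw [Finset.sum_comm]
  have h1 : ∀ Q : {Q : Subgroup G // IsPGroup p Q},
      Nat.card Q.1 * numHom g (Subgroup.normalizer (Q.1 : Set G) ⧸
        Q.1.subgroupOf (Subgroup.normalizer (Q.1 : Set G))) =
      ∑ K : Subgroup G, if Q.1 ≤ K ∧ K ≤ Subgroup.normalizer (Q.1 : Set G)
        then Nat.card Q.1 * sec g Q.1 K else 0 := by
    intro Q
    rw [numHom_sum g (Subgroup.le_normalizer) le_rfl, Finset.mul_sum]
    refine Finset.sum_congr rfl fun K _ => ?_
    split_ifs <;> simp
  rw [Finset.sum_congr rfl fun Q _ => h1 Q]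
  have h2 := Finset.sum_subtype (p := fun Q : Subgroup G => IsPGroup p Q)
    (F := this) (Finset.univ.filter fun Q : Subgroup G => IsPGroup p Q) (fun Q => by simp)
    (fun Q => ∑ K : Subgroup G, if Q ≤ K ∧ K ≤ Subgroup.normalizer (Q : Set G)
        then Nat.card Q * sec g Q K else 0)
  rw [← h2, Finset.sum_filter]
  refine Finset.sum_congr rfl fun Q _ => ?_
  by_cases hQ : IsPGroup p Q
  · rw [if_pos hQ]
    refine Finset.sum_congr rfl fun K _ => ?_
    simp [hQ]
  · rw [if_neg hQ]
    symm
    refine Finset.sum_eq_zero fun K _ => ?_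
    rw [if_neg (fun h => hQ h.1)]

lemma closure_pair_sub (K : Subgroup G) (a b : K) :
    Subgroup.closure {a, b} = ⊤ ↔ Subgroup.closure {(a : G), (b : G)} = K := by
  have h1 : (Subgroup.closure {a, b}).map K.subtype = Subgroup.closure {(a : G), (b : G)} := by
    rw [MonoidHom.map_closure, Set.image_pair]
    rfl
  rw [← h1]
  constructor
  · intro h
    rw [h, ← MonoidHom.range_eq_map, Subgroup.range_subtype]
  · intro h
    rw [eq_top_iff]
    intro x _
    have : (x : G) ∈ (Subgroup.closure {a, b}).map K.subtype := by rw [h]; exact x.2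
    obtain ⟨y, hy, hyx⟩ := this
    have : y = x := Subtype.ext hyx
    rwa [← this]

lemma regGen_sub (K : Subgroup G) :
    regGen p K = Nat.card {q : G × G // (¬ p ∣ orderOf q.1 ∧ q.1 * q.2 = q.2 * q.1) ∧
      Subgroup.closure {q.1, q.2} = K} := by
  unfold regGen
  refine Nat.card_congr
    { toFun := fun q => ⟨(q.1.1, q.1.2), ⟨?_, ?_⟩, ?_⟩
      invFun := fun q => ⟨(⟨q.1.1, ?_⟩, ⟨q.1.2, ?_⟩), ⟨?_, ?_⟩, ?_⟩
      left_inv := fun q => rfl
      right_inv := fun q => rfl }
  · have := q.2.1.1
    rwa [← Subgroup.orderOf_coe] at this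
  · exact congrArg Subtype.val q.2.1.2
  · exact (closure_pair_sub K _ _).1 q.2.2
  · have : q.1.1 ∈ Subgroup.closure {q.1.1, q.1.2} := Subgroup.subset_closure (by simp)
    rwa [q.2.2] at this
  · have : q.1.2 ∈ Subgroup.closure {q.1.1, q.1.2} := Subgroup.subset_closure (by simp)
    rwa [q.2.2] at this
  · rw [← Subgroup.orderOf_coe]
    exact q.2.1.1
  · exact Subtype.ext q.2.1.2
  · exact (closure_pair_sub K _ _).2 q.2.2

theorem regularPairs_sum [Finite G] [Fintype (Subgroup G)] :
    regularPairs p G = ∑ K : Subgroup G, regGen p K := by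
  have : Fintype G := Fintype.ofFinite G
  unfold regularPairs
  rw [Nat.card_eq_fintype_card, Fintype.card_subtype,
    Finset.card_eq_sum_card_fiberwise (f := fun q : G × G =>
      Subgroup.closure {q.1, q.2}) (t := Finset.univ)
      (fun _ _ => Finset.mem_coe.2 (Finset.mem_univ _))]
  refine Finset.sum_congr rfl fun K _ => ?_
  rw [regGen_sub, Nat.card_eq_fintype_card, Fintype.card_subtype, Finset.filter_filter]

/-- the contribution of `K` -/
def term (p g : ℕ) (K : Type) [Group K] : ℤ := (normSum p g K : ℤ) - regGen p K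

lemma term_congr {H K : Type} [Group H] [Group K] (e : H ≃* K) (p g : ℕ) :
    term p g H = term p g K := by
  unfold term
  rw [normSum_congr e, regGen_congr e]

theorem F_sum [Finite G] [Fintype (Subgroup G)] :
    (weightHom p g G : ℤ) - regularPairs p G = ∑ K : Subgroup G, term p g K := by
  unfold term
  rw [weightHom_sum, regularPairs_sum, Finset.sum_sub_distrib]
  push_cast
  rfl

/-- sums over the subgroups of a subgroup -/
lemma sum_sub_subgroup [Finite G] [Fintype (Subgroup G)] (L : Subgroup G)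
    [Fintype (Subgroup L)] (f : Subgroup G → ℤ) :
    ∑ K : Subgroup L, f (K.map L.subtype) = ∑ K : Subgroup G, if K ≤ L then f K else 0 := by
  rw [← Finset.sum_filter]
  refine Finset.sum_bij (fun K _ => K.map L.subtype) ?_ ?_ ?_ ?_
  · intro K _
    rw [Finset.mem_filter]
    exact ⟨Finset.mem_univ _, Subgroup.map_subtype_le _⟩
  · intro K _ K' _ h
    exact Subgroup.map_injective L.subtype_injective h
  · intro K hK
    refine ⟨K.subgroupOf L, Finset.mem_univ _, ?_⟩
    rw [Subgroup.subgroupOf_map_subtype, inf_eq_left.mpr (Finset.mem_filter.1 hK).2]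
  · intro K _
    rfl

/-- Möbius inversion for congruences -/
theorem mobius_dvd [Finite G] [Fintype (Subgroup G)] (m : ℤ) (A B : Subgroup G → ℤ)
    (h : ∀ L : Subgroup G, m ∣ (∑ K : Subgroup G, if K ≤ L then A K else 0) -
      ∑ K : Subgroup G, if K ≤ L then B K else 0) (L : Subgroup G) : m ∣ A L - B L := by
  induction L using WellFoundedLT.induction with
  | ind L ih =>
    have h1 := h L
    rw [← Finset.sum_sub_distrib, ← Finset.add_sum_erase _ _ (Finset.mem_univ L)] at h1
    rw [if_pos le_rfl, if_pos le_rfl] at h1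
    refine (dvd_add_left ?_).1 h1
    refine Finset.dvd_sum fun K hK => ?_
    split_ifs with hKL
    · exact ih K (lt_of_le_of_ne hKL (Finset.ne_of_mem_erase hK))
    · simp

end

end Pool.Agent.Helper15.AW
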