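import Pool.Graph.R_seed8.Y63.NV.Free2

/-!
# Definitions for the reduction theorem
-/

namespace Pool.Agent.Helper15.AW

/-- Closure properties of a class of groups: isomorphisms, subgroups, quotients, and central
extensions of finite groups by groups of order prime to `p`. -/
structure ClosedC (p : ℕ) (X : ∀ (H : Type) [Group H], Prop) : Prop where
  iso : ∀ (H L : Type) [Group H] [Group L], X H → Nonempty (H ≃* L) → X L
  sub : ∀ (H : Type) [Group H], X H → ∀ K : Subgroup H, X K
  quot : ∀ (H : Type) [Group H], X H → ∀ (M : Subgroup H) [M.Normal], X (H ⧸ M)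
  central : ∀ (H : Type) [Group H] [Finite H] (Z : Subgroup H) [Z.Normal],
    Z ≤ Subgroup.center H → ¬ p ∣ Nat.card Z → X (H ⧸ Z) → X H

/-- `L` is smaller than `H`: the pair `(|L : Z(L)|, |L|)` is lexicographically smaller than
`(|H : Z(H)|, |H|)` -/
def Smaller (L H : Type) [Group L] [Group H] : Prop :=
  (Subgroup.center L).index < (Subgroup.center H).index ∨
    (Subgroup.center L).index = (Subgroup.center H).index ∧ Nat.card L < Nat.card H

end Pool.Agent.Helper15.AW

namespace Pool.Agent.Helper15.QS

open Pool.Agent.Y63.NV (Reduced)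

/-- `K` has a normal elementary abelian Sylow `p`-subgroup `Q` such that `K/Q` is abelian and
generated by two elements -/
def PE2 (p : ℕ) (K : Type) [Group K] : Prop :=
  ∃ Q : Subgroup K, Q.Normal ∧ (∀ x ∈ Q, x ^ p = 1) ∧ (∀ x ∈ Q, ∀ y ∈ Q, x * y = y * x) ∧
    ¬ p ∣ Q.index ∧ commutator K ≤ Q ∧ ∃ a b : K, Subgroup.closure {a, b} ⊔ Q = ⊤

/-- `G` is quasisimple: `G` is perfect and `G/Z(G)` is simple -/
def Quasisimple (G : Type) [Group G] : Prop :=
  commutator G = ⊤ ∧ IsSimpleGroup (G ⧸ Subgroup.center G)

/-- The groups to which the conjecture is reduced: `p` divides `|H|`, `H`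
has no normal subgroup of index `p` and no nontrivial normal `p`-subgroup, the center `Z(H)` is cyclic
and contained in the commutator subgroup, and `H` has a quasisimple normal subgroup `N` such that
`C_H(N) = Z(H) ≤ N` (so `H/Z(H)` is almost simple with socle `N/Z(N)`) and such that `H/N` has a
normal elementary abelian Sylow `p`-subgroup whose quotient is abelian and generated by two
elements. -/
structure AlmostSimple (p : ℕ) (H : Type) [Group H] : Prop where
  dvd : p ∣ Nat.card H
  reduced : Reduced p H
  cyclic : IsCyclic (Subgroup.center H)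
  stem : Subgroup.center H ≤ commutator H
  normal : ∃ (N : Subgroup H) (_ : N.Normal), Quasisimple N ∧ Subgroup.center H ≤ N ∧
    Subgroup.centralizer (N : Set H) = Subgroup.center H ∧ PE2 p (H ⧸ N)

end Pool.Agent.Helper15.QS
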