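import Pool.Agent.Helper15.AWC.Noninv
import Pool.Graph.R_seed8.Y63.KR.Limit

/-!
# The number of lifts of a homomorphism from a surface group
-/

open scoped Classical BigOperators
open Representation Pool.Agent.Helper884.IC Pool.Agent.Y63.AWC

set_option linter.unusedSectionVars false

noncomputable section

namespace Pool.Agent.Helper15.AW

open Pool.Agent.Y63.KR (surfaceWord coords map_surfaceWord surfaceWord_cons dg cod dg_spec cod_spec
  cod_pos DZ_iff unit_pow two_mul_ge numHom)

section

variable {G : Type} [Group G] [Fintype G] {M : Subgroup G} [M.Normal]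

/-- `θ` is the restriction of an irreducible character of `G` -/
def Extends (G : Type) [Group G] {M : Subgroup G} (theta : M → ℂ) : Prop :=
  ∃ chi : G → ℂ, IsIrreducibleCharacter chi ∧ ∀ m : M, chi m = theta m

/-- `θ` is invariant under conjugation with all elements of `G` -/
def Invariant {G : Type} [Group G] {M : Subgroup G} (theta : M → ℂ) : Prop :=
  ∀ g : G, ∀ x y : M, (y : G) = g * x * g⁻¹ → theta y = theta x

lemma invariant_iff {theta : M → ℂ} : Invariant theta ↔ stab theta = ⊤ := by
  rw [eq_top_iff]
  constructor
  · intro h g _ m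
    exact h g m _ (by simp)
  · intro h g x y hy
    have h1 := h (Subgroup.mem_top g) x
    have h2 : MulAut.conjNormal g x = y := by
      ext
      rw [hy]
      simp
    rwa [h2] at h1

section

variable {V : Type} [AddCommGroup V] [Module ℂ V] [FiniteDimensional ℂ V]

/-- an extension of the character gives an extension of the representation -/
lemma ext_rep (rho : Representation ℂ M V) (hr : rho.IsIrreducible)
    (h : Extends G rho.character) : ∃ R : Representation ℂ G V, ∀ m : M, R m = rho m := by
  obtain ⟨chi, ⟨W, _, _, _, S, hS, rfl⟩, hchi⟩ := h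
  let S' : Representation ℂ M W := S.comp M.subtype
  have : Invertible (Nat.card M : ℂ) := invertibleOfNonzero cardG_ne
  have h1 := card_inv_mul_sum_char_mul_char_eq_finrank rho S'
  have hirr : IsIrrChar rho.character := ⟨V, _, _, ‹_›, rho, hr, rfl⟩
  have hS' : S'.character = rho.character := funext hchi
  rw [hS', Pool.Agent.Y63.KR.sum_char_inv hirr, inv_mul_cancel₀ cardG_ne] at h1
  have h2 : Module.finrank ℂ (IntertwiningMap rho S') = 1 := by exact_mod_cast h1.symm
  obtain ⟨T, hT, _⟩ := finrank_eq_one_iff'.1 h2
  rcases Representation.IsIrreducible.injective_or_eq_zero T with hinj | h0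
  · have hdim : Module.finrank ℂ V = Module.finrank ℂ W := by
      have h3 := congrFun hS' 1
      rw [char_one, char_one] at h3
      exact_mod_cast h3.symm
    have hbij : Function.Bijective T.toLinearMap :=
      ⟨hinj, (LinearMap.injective_iff_surjective_of_finrank_eq_finrank hdim).1 hinj⟩
    let E : V ≃ₗ[ℂ] W := LinearEquiv.ofBijective T.toLinearMap hbij
    refine ⟨{ toFun := fun x => E.symm.toLinearMap ∘ₗ S x ∘ₗ E.toLinearMap
              map_one' := by ext v; simp
              map_mul' := fun x y => by ext v; simp }, fun m => ?_⟩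
    ext v
    change E.symm (S m (E v)) = rho m v
    rw [LinearEquiv.symm_apply_eq]
    exact (IntertwiningMap.isIntertwining rho S' T m v).symm
  · exact absurd h0 hT

lemma trace_rho0 (rho : Representation ℂ M V) {x : G} (hx : x ∈ M) :
    LinearMap.trace ℂ V (rho0 rho x) = rho.character ⟨x, hx⟩ := by
  unfold rho0
  rw [dif_pos hx]
  rfl

end

lemma word_lift_mem {g : ℕ} {q : Fin g → G × G} (hw : surfaceWord q ∈ M) (m : Fin g → M × M) :
    surfaceWord (mulT q (mapT M.subtype m)) ∈ M := by
  have h1 := word_mulT_mem M q (mapT M.subtype m) (fun i => ⟨(m i).1.2, (m i).2.2⟩)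
  have h2 := mul_mem hw h1
  rwa [mul_inv_cancel_left] at h2

/-- the contribution of a character -/
theorem char_sum {g : ℕ} (q : Fin g → G × G) (hw : surfaceWord q ∈ M)
    (hq : Subgroup.closure (coords q) ⊔ M = ⊤) {theta : M → ℂ} (ht : IsIrrChar theta) :
    ∃ z : ℂ, IsIntegral ℤ z ∧ (¬ Invariant theta → z = 0) ∧
      (Invariant theta → Extends G theta → z = 1) ∧
      ∑ m : Fin g → M × M, theta ⟨_, word_lift_mem hw m⟩ =
        z * theta 1 * (((Nat.card M : ℂ) / theta 1) ^ 2) ^ g := by
  obtain ⟨V, _, _, _, rho, hr, rfl⟩ := ht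
  have hnt := irr_nontrivial rho hr
  have htr : ∑ m : Fin g → M × M, rho.character ⟨_, word_lift_mem hw m⟩ =
      LinearMap.trace ℂ V (∑ m : Fin g → M × M, rho0 rho
        (surfaceWord (mulT q (mapT M.subtype m)))) := by
    rw [map_sum]
    exact Finset.sum_congr rfl fun m _ => (trace_rho0 rho _).symm
  have hdim : (rho.character 1 : ℂ) ≠ 0 := one_ne ⟨V, _, _, ‹_›, rho, hr, rfl⟩
  by_cases hinv : Invariant rho.character
  · -- an element of `Khat` over each element of `G`
    have hstab := invariant_iff.1 hinv
    have hex : ∃ P : G → Khat rho, (∀ x, fstH rho (P x) = x) ∧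
        (Extends G rho.character → ∃ R : Representation ℂ G V, (∀ m : M, R m = rho m) ∧
          ∀ x, ((sndH rho (P x) : (Module.End ℂ V)ˣ) : Module.End ℂ V) = R x) := by
      by_cases hext : Extends G rho.character
      · obtain ⟨R, hR⟩ := ext_rep rho hr hext
        refine ⟨fun x => ⟨(x, MonoidHom.toHomUnits R x), ?_⟩, fun x => rfl, fun _ =>
          ⟨R, hR, fun x => rfl⟩⟩
        intro m
        change R x * rho m = rho (MulAut.conjNormal x m) * R x
        rw [← hR, ← hR, ← map_mul, ← map_mul]
        congr 1
        simp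
      · have h1 : ∀ x : G, ∃ P : (Module.End ℂ V)ˣ,
            ∀ m : M, (P : Module.End ℂ V) * rho m = rhoC rho x m * P := by
          intro x
          refine exists_equiv rho (rhoC rho x) hr ?_
          funext m
          have hx : x ∈ stab rho.character := by rw [hstab]; trivial
          exact (hx m).symm
        choose P hP using h1
        exact ⟨fun x => ⟨(x, P x), hP x⟩, fun x => rfl, fun h => absurd h hext⟩
    obtain ⟨P, hP1, hP2⟩ := hex
    have hq' : mapT (fstH rho) (mapT P q) = q := by
      funext i
      simp only [mapT, hP1]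
    have hw' : surfaceWord (mapT (fstH rho) (mapT P q)) ∈ M := by rw [hq']; exact hw
    obtain ⟨c, hc0, hc1, hc2⟩ := sum_lifts rho hr (mapT P q) hw'
    refine ⟨c⁻¹, scalar_integral rho hr _ _ c hc1, fun h => absurd hinv h, fun _ hext => ?_, ?_⟩
    · obtain ⟨R, hR, hRP⟩ := hP2 hext
      have h1 : ((surfaceWord (mapT (sndH rho) (mapT P q)) : (Module.End ℂ V)ˣ) :
          Module.End ℂ V) = R (surfaceWord q) := by
        have h2 : mapT (sndH rho) (mapT P q) = mapT (MonoidHom.toHomUnits R) q := by
          funext i
          refine Prod.ext ?_ ?_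
          · exact Units.ext (hRP _)
          · exact Units.ext (hRP _)
        rw [h2, word_mapT]
        rfl
      have h2 : rho ⟨_, hw'⟩ = R (surfaceWord q) := by
        rw [← hR]
        congr 1
        exact congrArg surfaceWord hq'
      rw [h1, h2] at hc1
      have h3 : (1 : Module.End ℂ V) = c • 1 := by
        have h4 := congrArg (fun S : Module.End ℂ V => S * R (surfaceWord q)⁻¹) hc1
        simp only [smul_mul_assoc, ← map_mul, mul_inv_cancel, map_one] at h4
        exact h4
      have h5 : c = 1 := by
        obtain ⟨v, hv⟩ := exists_ne (0 : V)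
        have h6 := congrArg (fun S : Module.End ℂ V => S v) h3
        simp only [Module.End.one_apply, LinearMap.smul_apply] at h6
        have h7 : (c - 1) • v = 0 := by rw [sub_smul, one_smul, ← h6, sub_self]
        rcases smul_eq_zero.1 h7 with h8 | h8
        · exact sub_eq_zero.1 h8
        · exact absurd h8 hv
      rw [h5, inv_one]
    · rw [htr]
      have h1 := congrArg (LinearMap.trace ℂ V) hc2
      rw [hq'] at h1
      rw [h1, map_smul, LinearMap.trace_one, smul_eq_mul, ← rho.char_one]
      ring
  · refine ⟨0, isIntegral_zero, fun _ => rfl, fun h => absurd h hinv, ?_⟩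
    rw [htr]
    have h1 := sum_noninv rho hr g 1 1 q (one_mem _) (by simpa using hw) (by
      by_contra hcon
      push Not at hcon
      apply hinv
      rw [invariant_iff, eq_top_iff, ← hq]
      refine sup_le ?_ (le_stab (IsIrrChar.isClass ⟨V, _, _, ‹_›, rho, hr, rfl⟩))
      rw [Subgroup.closure_le]
      rintro x (⟨i, rfl⟩ | ⟨i, rfl⟩)
      · exact (hcon i).1
      · exact (hcon i).2)
    simp only [one_mul, mul_one] at h1
    rw [h1]
    simp

end

end Pool.Agent.Helper15.AW
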