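import Pool.Agent.Helper15.AWC.Reduce

/-!
# The main theorem
-/

open scoped Classical BigOperators

set_option linter.unusedSectionVars false

noncomputable section

namespace Pool.Agent.Helper15.AW

open Pool.Agent.Y63.KR (surfaceWord numHom coords map_surfaceWord weightHom regularPairs
  weight_mod card_mul_surfaceCount surfaceCount_mod surfaceCount unit_pow)
open Pool.Agent.Y63.AWC (numDefectZero numWeights numRegularClasses card_mul_numRegularClasses
  numRegularClasses_congr numWeights_congr numDefectZero_congr IsIrreducibleCharacter)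
open Pool.Agent.Y63.NV (Closed Reduced XP reduction' xp_closed pgroup_top)

/-- `χ` has `p`-defect zero: `χ(1)_p = |J|_p` -/
def DefectZero (p : ℕ) {J : Type} [Group J] (chi : J → ℂ) : Prop :=
  ∃ n : ℕ, chi 1 = (n : ℂ) ∧ n.factorization p = (Nat.card J).factorization p

/-- The groups in `X` for which the continuity has to be checked: nonabelian, without normal
subgroups of index `p` and without nontrivial normal `p`-subgroups, and such that every nontrivial
normal subgroup `M` for which `H/M` is in `X` and not an extension of a `p`-group by an abelian group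
has an `H`-invariant irreducible character of `p`-defect zero which does not extend to `H`. -/
structure Critical (p : ℕ) (X : ∀ (H : Type) [Group H], Prop) (H : Type) [Group H] : Prop where
  mem : X H
  reduced : Reduced p H
  nonabelian : ∃ a b : H, a * b ≠ b * a
  normal : ∀ (M : Subgroup H) [M.Normal], M ≠ ⊥ → X (H ⧸ M) →
    ¬ IsPGroup p (commutator (H ⧸ M)) → ∃ theta : M → ℂ, IsIrreducibleCharacter theta ∧
      DefectZero p theta ∧ Invariant theta ∧ ¬ Extends H theta

section

variable {p : ℕ} [hp : Fact p.Prime]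

lemma numSurj_one_zero {H : Type} [Group H] (h : ∃ a b : H, a * b ≠ b * a) : numSurj 1 H = 0 := by
  unfold numSurj
  rw [Nat.card_eq_zero]
  left
  constructor
  rintro ⟨q, h1, h2⟩
  obtain ⟨a, b, hab⟩ := h
  apply hab
  rw [word_one, mul_assoc, ← mul_inv_rev, mul_inv_eq_one] at h1
  rw [coords_one] at h2
  exact comm_of_pair h1 h2 a b

lemma word_comm {H : Type} [Group H] (h : ∀ a b : H, a * b = b * a) {g : ℕ}
    (q : Fin g → H × H) : surfaceWord q = 1 := by
  unfold surfaceWord
  rw [List.prod_eq_one]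
  intro x hx
  rw [List.mem_ofFn] at hx
  obtain ⟨i, rfl⟩ := hx
  rw [h (q i).1, mul_inv_cancel_right, mul_inv_cancel]

lemma numHom_comm {H : Type} [Group H] (h : ∀ a b : H, a * b = b * a) (g : ℕ) :
    numHom g H = Nat.card H ^ (2 * g) := by
  unfold numHom
  rw [Nat.card_congr (Equiv.subtypeUnivEquiv fun q => word_comm h q), Nat.card_fun, Nat.card_prod]
  simp only [Nat.card_eq_fintype_card, Fintype.card_fin]
  rw [pow_mul, sq]

/-- the continuity for abelian groups of order prime to `p` -/
theorem cont_abelian {H : Type} [Group H] [Finite H] (h : ∀ a b : H, a * b = b * a)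
    (hR : ∀ M : Subgroup H, M.Normal → IsPGroup p M → M = ⊥) {N g : ℕ} (hg : 2 ≤ g)
    (hd : p ^ N * (p - 1) ∣ g - 1) :
    (p : ℤ) ^ (N + 1) ∣ (numSurj g H : ℤ) - numSurj 1 H := by
  have : Fintype (Subgroup H) := Fintype.ofFinite _
  have hpn : ∀ L : Subgroup H, ¬ p ∣ Nat.card L := by
    intro L hL
    obtain ⟨x, hx⟩ := exists_prime_orderOf_dvd_card' p hL
    have hM : Subgroup.zpowers (x : H) = ⊥ := by
      refine hR _ ⟨?_⟩ ?_
      · intro y hy z
        rw [h z y, mul_inv_cancel_right]
        exact hy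
      · rw [IsPGroup.iff_card]
        exact ⟨1, by rw [Nat.card_zpowers, Subgroup.orderOf_coe, hx, pow_one]⟩
    rw [Subgroup.zpowers_eq_bot] at hM
    have h1 : x = 1 := Subtype.ext hM
    rw [h1, orderOf_one] at hx
    exact hp.out.one_lt.ne hx
  have key := mobius_dvd ((p : ℤ) ^ (N + 1)) (fun K : Subgroup H => (numSurj g K : ℤ))
    (fun K : Subgroup H => (numSurj 1 K : ℤ)) ?_ ⊤
  · have h1 : ∀ k, numSurj k (⊤ : Subgroup H) = numSurj k H :=
      fun k => numSurj_congr Subgroup.topEquiv k
    rwa [h1, h1] at key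
  · intro L
    have : Fintype (Subgroup L) := Fintype.ofFinite _
    have h2 : ∀ k, (∑ K : Subgroup H, if K ≤ L then (numSurj k K : ℤ) else 0) =
        ((Nat.card L ^ (2 * k) : ℕ) : ℤ) := by
      intro k
      rw [← sum_sub_subgroup L (fun K => (numSurj k K : ℤ)), ← numHom_comm
        (fun a b => Subtype.ext (h a b)) k, numHom_sum', Nat.cast_sum]
      refine Finset.sum_congr rfl fun K _ => ?_
      obtain ⟨e⟩ := map_equiv K
      rw [numSurj_congr e]
    rw [h2, h2]
    obtain ⟨n, rfl⟩ : ∃ n, g = n + 1 := ⟨g - 1, by omega⟩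
    rw [Nat.add_sub_cancel] at hd
    have h3 := unit_pow (p := p) (N := N) (n := 2 * n) (hpn L) (Dvd.dvd.mul_left hd 2)
    have h4 : ((p ^ (N + 1) : ℕ) : ℤ) ∣ ((Nat.card L ^ (2 * n) : ℕ) : ℤ) - ((1 : ℕ) : ℤ) :=
      (Nat.modEq_iff_dvd.1 h3.symm)
    have h5 : ((Nat.card L ^ (2 * (n + 1)) : ℕ) : ℤ) - ((Nat.card L ^ (2 * 1) : ℕ) : ℤ) =
        (Nat.card L : ℤ) ^ 2 * (((Nat.card L ^ (2 * n) : ℕ) : ℤ) - ((1 : ℕ) : ℤ)) := by
      push_cast
      ring
    rw [h5]
    push_cast at h4 ⊢
    exact Dvd.dvd.mul_left h4 _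

/-- a suitable genus -/
lemma exists_genus (N : ℕ) : ∃ g : ℕ, 2 ≤ g ∧ p ^ N * (p - 1) ∣ g - 1 := by
  have hp2 := hp.out.two_le
  have h1 : 0 < p ^ N := pow_pos hp.out.pos _
  have h2 : 0 < p - 1 := by omega
  have h3 : 0 < p ^ N * (p - 1) := Nat.mul_pos h1 h2
  exact ⟨p ^ N * (p - 1) + 1, by omega, by rw [Nat.add_sub_cancel]⟩

/-- the Möbius transform of a function on the subgroups -/
theorem exists_transform {H : Type} [Group H] [Finite H] [Fintype (Subgroup H)]
    (f : Subgroup H → ℤ) : ∃ e : Subgroup H → ℤ,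
      ∀ L : Subgroup H, (∑ K : Subgroup H, if K ≤ L then e K else 0) = f L := by
  let F : ∀ L : Subgroup H, (∀ K : Subgroup H, K < L → ℤ) → ℤ :=
    fun L ih => f L - ∑ K : Subgroup H, if h : K < L then ih K h else 0
  let e : Subgroup H → ℤ := WellFounded.fix (wellFounded_lt (α := Subgroup H)) F
  have he : ∀ L, e L = f L - ∑ K : Subgroup H, if K < L then e K else 0 := by
    intro L
    have h1 : e L = F L (fun K _ => e K) := WellFounded.fix_eq _ F L
    rw [h1]
    simp only [F]
    congr 1
  refine ⟨e, fun L => ?_⟩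
  have h2 : ∀ K : Subgroup H, (if K ≤ L then e K else 0) =
      (if K = L then e L else 0) + if K < L then e K else 0 := by
    intro K
    by_cases hKL : K = L
    · subst hKL
      simp
    · by_cases h3 : K < L
      · rw [if_pos h3.le, if_neg hKL, if_pos h3, zero_add]
      · rw [if_neg hKL, if_neg h3, if_neg (fun h => h3 (lt_of_le_of_ne h hKL)), add_zero]
  rw [Finset.sum_congr rfl fun K _ => h2 K, Finset.sum_add_distrib, Finset.sum_ite_eq' Finset.univ L,
    if_pos (Finset.mem_univ _), he L, sub_add_cancel]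

/-- the reduction -/
theorem awc_of_critical (X : ∀ (H : Type) [Group H], Prop) (hX : Closed p X)
    (h : ∀ (H : Type) [Group H] [Finite H], Critical p X H → ∀ N : ℕ, ∃ g : ℕ, 2 ≤ g ∧
      p ^ N * (p - 1) ∣ g - 1 ∧ (p : ℤ) ^ (N + 1) ∣ (numSurj g H : ℤ)) :
    ∀ (n : ℕ) (Γ : Type) [Group Γ] [Finite Γ], Nat.card Γ ≤ n → XP p X Γ →
        numRegularClasses p Γ = numWeights p Γ := by
  refine reduction' p X hX ?_
  intro H _ _ hH hR hsmall
  refine awc_step X hX H hH hR hsmall fun N => ?_
  by_cases hab : ∀ a b : H, a * b = b * a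
  · obtain ⟨g, hg, hd⟩ := exists_genus (p := p) N
    exact ⟨g, hg, hd, cont_abelian hab hR.radical hg hd⟩
  · push Not at hab
    rw [numSurj_one_zero hab]
    by_cases hcrit : Critical p X H
    · obtain ⟨g, hg, hd, h1⟩ := h H hcrit N
      exact ⟨g, hg, hd, by simpa using h1⟩
    · have hn : ¬ ∀ (M : Subgroup H) [M.Normal], M ≠ ⊥ → X (H ⧸ M) →
          ¬ IsPGroup p (commutator (H ⧸ M)) → ∃ theta : M → ℂ, IsIrreducibleCharacter theta ∧
          DefectZero p theta ∧ Invariant theta ∧ ¬ Extends H theta :=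
        fun hn => hcrit ⟨hH, hR, hab, hn⟩
      push Not at hn
      obtain ⟨M, hMn, hM1, hXM, hc, hM2⟩ := hn
      obtain ⟨g, hg, hd⟩ := exists_genus (p := p) N
      refine ⟨g, hg, hd, ?_⟩
      have h1 := step_normal X hX H hH (fun L _ _ hL hlt => hsmall L
        ⟨⊤, inferInstance, hX.iso _ _ hL ⟨Subgroup.topEquiv.symm⟩, pgroup_top p L⟩ hlt) M hM1 hXM hc
        (fun theta h2 h3 h4 => hM2 theta h2 h3 h4) hg hd
      simpa using h1

/-- the reduction, with the hypothesis for the smaller groups available -/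
theorem awc_of_critical' (X : ∀ (H : Type) [Group H], Prop) (hX : Closed p X)
    (h : ∀ (H : Type) [Group H] [Finite H], Critical p X H →
      (∀ (L : Type) [Group L] [Finite L], XP p X L → Nat.card L < Nat.card H →
        numRegularClasses p L = numWeights p L) → numRegularClasses p H = numWeights p H) :
    ∀ (n : ℕ) (Γ : Type) [Group Γ] [Finite Γ], Nat.card Γ ≤ n → XP p X Γ →
        numRegularClasses p Γ = numWeights p Γ := by
  refine reduction' p X hX ?_
  intro H _ _ hH hR hsmall
  by_cases hcrit : Critical p X H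
  · exact h H hcrit hsmall
  · refine awc_step X hX H hH hR hsmall fun N => ?_
    obtain ⟨g, hg, hd⟩ := exists_genus (p := p) N
    refine ⟨g, hg, hd, ?_⟩
    by_cases hab : ∀ a b : H, a * b = b * a
    · exact cont_abelian hab hR.radical hg hd
    · push Not at hab
      rw [numSurj_one_zero hab]
      have hn : ¬ ∀ (M : Subgroup H) [M.Normal], M ≠ ⊥ → X (H ⧸ M) →
          ¬ IsPGroup p (commutator (H ⧸ M)) → ∃ theta : M → ℂ, IsIrreducibleCharacter theta ∧
          DefectZero p theta ∧ Invariant theta ∧ ¬ Extends H theta :=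
        fun hn => hcrit ⟨hH, hR, hab, hn⟩
      push Not at hn
      obtain ⟨M, hMn, hM1, hXM, hc, hM2⟩ := hn
      have h1 := step_normal X hX H hH (fun L _ _ hL hlt => hsmall L
        ⟨⊤, inferInstance, hX.iso _ _ hL ⟨Subgroup.topEquiv.symm⟩, pgroup_top p L⟩ hlt) M hM1 hXM hc
        (fun theta h2 h3 h4 => hM2 theta h2 h3 h4) hg hd
      simpa using h1

/-- the finite form of the continuity -/
theorem critical_finite (H : Type) [Group H] [Finite H] :
    (∀ N : ℕ, ∃ g : ℕ, 2 ≤ g ∧ p ^ N * (p - 1) ∣ g - 1 ∧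
      (p : ℤ) ^ (N + 1) ∣ (numSurj g H : ℤ)) ↔
    ∀ e : Subgroup H → ℤ, (∀ L : Subgroup H, ∑ᶠ K : {K : Subgroup H // K ≤ L}, e K =
      (Nat.card L : ℤ) * numDefectZero p L) → e ⊤ = 0 := by
  have : Fintype (Subgroup H) := Fintype.ofFinite _
  have hconv : ∀ (e : Subgroup H → ℤ) (L : Subgroup H),
      ∑ᶠ K : {K : Subgroup H // K ≤ L}, e K = ∑ K : Subgroup H, if K ≤ L then e K else 0 := by
    intro e L
    have : Fintype {K : Subgroup H // K ≤ L} := Fintype.ofFinite _
    rw [finsum_eq_sum_of_fintype, ← Finset.sum_filter]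
    exact (Finset.sum_subtype (p := fun K : Subgroup H => K ≤ L) (F := this)
      (Finset.univ.filter fun K : Subgroup H => K ≤ L) (fun K => by simp) e).symm
  constructor
  · intro h e he
    refine eq_of_forall_dvd (p := p) fun N => ?_
    obtain ⟨g, hg, hd, h1⟩ := h N
    have h2 := numSurj_mod (p := p) (G := H) hg hd e (fun L => by rw [← hconv]; exact he L)
    have := dvd_sub h1 h2
    rwa [sub_sub_cancel] at this
  · intro h N
    obtain ⟨g, hg, hd⟩ := exists_genus (p := p) N
    obtain ⟨e, he⟩ := exists_transform (H := H)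
      (fun L => (Nat.card L : ℤ) * numDefectZero p L)
    refine ⟨g, hg, hd, ?_⟩
    have h2 := numSurj_mod (p := p) (G := H) hg hd e he
    rwa [h e (fun L => by rw [hconv]; exact he L), sub_zero] at h2

end

end Pool.Agent.Helper15.AW
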