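import Pool.Agent.Helper15.AWC.Rad
import Pool.Agent.Helper15.AWC.DefsC

/-!
# Minimal counterexamples
-/

open scoped Classical BigOperators

set_option linter.unusedSectionVars false

noncomputable section

namespace Pool.Agent.Helper15.AW

open Pool.Agent.Y63.KR (surfaceWord coords cod DZ_iff)
open Pool.Agent.Y63.AWC (numWeights numRegularClasses)
open Pool.Agent.Y63.NV (Closed Reduced XP reduction' xp_closed pgroup_top)
open Pool.Agent.Helper884.IC (IsIrrChar Irr mem_Irr)

/-- The groups to which the conjecture is reduced: `p` divides `|H|`, `H` has no normal subgroup of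
index `p` and no nontrivial normal `p`-subgroup, the center `Z(H)` is cyclic and contained in the
commutator subgroup, and `H` has a normal subgroup `N` which is not central such that each normal
subgroup of `H` is central or contains `N`, such that `H/N` is an extension of a `p`-group by an
abelian group with two generators, and such that `N` is perfect or `H` is solvable. -/
structure Minimal (p : ℕ) (H : Type) [Group H] : Prop where
  dvd : p ∣ Nat.card H
  reduced : Reduced p H
  cyclic : IsCyclic (Subgroup.center H)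
  stem : Subgroup.center H ≤ commutator H
  normal : ∃ (N : Subgroup H) (_ : N.Normal), ¬ N ≤ Subgroup.center H ∧
    (∀ M : Subgroup H, M.Normal → M ≤ Subgroup.center H ∨ N ≤ M) ∧ PA2 p (H ⧸ N) ∧
    (⁅N, N⁆ = N ∨ Group.IsSolvable H)

lemma ClosedC.closed {p : ℕ} {X : ∀ (H : Type) [Group H], Prop} (hX : ClosedC p X) :
    Closed p X := ⟨hX.iso, hX.sub, fun H _ hH M _ _ => hX.quot H hH M⟩

section

variable {H : Type} [Group H] [Finite H]

lemma center_index_sub (L : Subgroup H) :
    (Subgroup.center L).index ≤ (Subgroup.center H).index := by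
  have h1 : (Subgroup.center H).subgroupOf L ≤ Subgroup.center L := by
    intro x hx
    rw [Subgroup.mem_center_iff]
    intro y
    exact Subtype.ext (Subgroup.mem_center_iff.1 hx y)
  have h2 : (Subgroup.center L).index ∣ (Subgroup.center H).index :=
    (Subgroup.index_dvd_of_le h1).trans (Subgroup.relIndex_dvd_index_of_normal _ _)
  exact Nat.le_of_dvd (Nat.pos_of_ne_zero Subgroup.FiniteIndex.index_ne_zero) h2

lemma center_index_image {L : Type} [Group L] (f : H →* L) (hf : Function.Surjective f) :
    (Subgroup.center L).index ≤ (Subgroup.center H).index := by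
  have h1 : (Subgroup.center H).map f ≤ Subgroup.center L := by
    rintro _ ⟨x, hx, rfl⟩
    rw [Subgroup.mem_center_iff]
    intro y
    obtain ⟨y, rfl⟩ := hf y
    rw [← map_mul, ← map_mul, Subgroup.mem_center_iff.1 hx]
  have h2 : (Subgroup.center L).index ∣ (Subgroup.center H).index :=
    (Subgroup.index_dvd_of_le h1).trans (Subgroup.index_map_dvd _ hf)
  exact Nat.le_of_dvd (Nat.pos_of_ne_zero Subgroup.FiniteIndex.index_ne_zero) h2

end

/-- the groups in `X` with bounded index of the center -/
def Xz (X : ∀ (H : Type) [Group H], Prop) (n : ℕ) (H : Type) [Group H] : Prop :=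
  X H ∧ Finite H ∧ (Subgroup.center H).index ≤ n

lemma xz_closed {p : ℕ} {X : ∀ (H : Type) [Group H], Prop} (hX : Closed p X) (n : ℕ) :
    Closed p (Xz X n) where
  iso := by
    rintro H L _ _ ⟨h1, h2, h3⟩ ⟨e⟩
    exact ⟨hX.iso H L h1 ⟨e⟩, Finite.of_equiv H e.toEquiv,
      (center_index_image e.toMonoidHom e.surjective).trans h3⟩
  sub := by
    rintro H _ ⟨h1, h2, h3⟩ K
    exact ⟨hX.sub H h1 K, inferInstance, (center_index_sub K).trans h3⟩
  quot := by
    rintro H _ ⟨h1, h2, h3⟩ M _ hM
    exact ⟨hX.quot H h1 M hM, inferInstance,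
      (center_index_image (QuotientGroup.mk' M) (QuotientGroup.mk'_surjective M)).trans h3⟩

section

variable {p : ℕ} [hp : Fact p.Prime]

/-- the surjections onto sections of a group -/
theorem section_zero {X : ∀ (H : Type) [Group H], Prop} (hX : Closed p X) (E : Type) [Group E]
    [Finite E] (n : ℕ)
    (hsmall : ∀ (L : Type) [Group L] [Finite L], X L →
      (Subgroup.center L).index ≤ (Subgroup.center E).index → Nat.card L < n →
      numRegularClasses p L = numWeights p L) {N g : ℕ} (hg : 2 ≤ g)
    (hd : p ^ N * (p - 1) ∣ g - 1) (K : Type) [Group K] [Finite K] (hK : X K)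
    (hKi : (Subgroup.center K).index ≤ (Subgroup.center E).index) (hKn : Nat.card K < n)
    (hc : ¬ PA2 p K) : (p : ℤ) ^ (N + 1) ∣ (numSurj g K : ℤ) :=
  surj_zero2 (Xz X (Subgroup.center E).index) (xz_closed hX _) n
    (fun L _ _ hL hLn => hsmall L hL.1 hL.2.2 hLn) hg hd (Nat.card K) K le_rfl hKn
    ⟨hK, inferInstance, hKi⟩ hc

lemma exists_bound (c : ℕ) : ∃ B : ℕ, c < p ^ B := ⟨c, Nat.lt_pow_self hp.out.one_lt⟩

/-- the central step: a normal subgroup all of whose invariant characters of defect zero are
controlled by smaller groups -/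
theorem step_controls {X : ∀ (H : Type) [Group H], Prop} (hX : ClosedC p X) (H : Type) [Group H]
    [Fintype H] (hH : X H)
    (hsmall : ∀ (L : Type) [Group L] [Finite L], X L → Smaller L H →
      numRegularClasses p L = numWeights p L) (M : Subgroup H) [M.Normal]
    (hc : ¬ PA2 p (H ⧸ M))
    (hM : ∀ theta : M → ℂ, IsIrrChar theta → Invariant theta → ¬ p ∣ cod theta →
      ∃ (E : Type) (_ : Group E) (_ : Fintype E) (pi : E →* H ⧸ M), Controls p theta pi ∧
        Smaller E H) (N : ℕ) :
    ∃ g : ℕ, 2 ≤ g ∧ p ^ N * (p - 1) ∣ g - 1 ∧ (p : ℤ) ^ (N + 1) ∣ (numSurj g H : ℤ) := by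
  have : Fintype (Subgroup H) := Fintype.ofFinite _
  -- the bounds
  have hB : ∀ theta : M → ℂ, ∃ B : ℕ, IsIrrChar theta → Invariant theta → ¬ p ∣ cod theta →
      ∀ g : ℕ, 2 ≤ g → p ^ (N + B) * (p - 1) ∣ g - 1 →
        ∃ y : ℂ, IsIntegral ℤ y ∧ zs g theta = (p : ℂ) ^ (N + 1) * y := by
    intro theta
    by_cases ht : IsIrrChar theta ∧ Invariant theta ∧ ¬ p ∣ cod theta
    · obtain ⟨E, _, _, pi, hpi, hE⟩ := hM theta ht.1 ht.2.1 ht.2.2
      obtain ⟨B, hB⟩ := exists_bound (p := p) (Nat.totient (Nat.card pi.ker))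
      refine ⟨B, fun _ _ _ g hg hd => hpi.small g B (N + 1) hB ?_⟩
      intro K hK A hA hAK hn
      have hXE : X E := by
        refine hX.central E pi.ker hpi.central hpi.prime ?_
        exact hX.iso _ _ (hX.quot H hH M) ⟨(QuotientGroup.quotientKerEquivOfSurjective pi
          hpi.surj).symm⟩
      have hKA : ¬ PA2 p (K ⧸ A.subgroupOf K) := by
        intro h
        apply hc
        let f : (K ⧸ A.subgroupOf K) →* H ⧸ M := QuotientGroup.lift (A.subgroupOf K)
          (pi.comp K.subtype) (by
            intro x hx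
            exact hA hx)
        refine h.image f ?_
        intro y
        obtain ⟨x, rfl⟩ := hpi.surj y
        have hx : x ∈ K ⊔ pi.ker := by rw [hK]; trivial
        rw [Subgroup.mem_sup_of_normal_right] at hx
        obtain ⟨k, hk, m, hm, rfl⟩ := hx
        refine ⟨QuotientGroup.mk' _ ⟨k, hk⟩, ?_⟩
        change pi k = _
        rw [map_mul, (MonoidHom.mem_ker).1 hm, mul_one]
      have key := section_zero (p := p) (X := X) hX.closed E (Nat.card E + 1)
        (fun L _ _ hL hLi hLn => hsmall L hL (by
          rcases hE with hE | hE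
          · exact Or.inl (lt_of_le_of_lt hLi hE)
          · rcases lt_or_eq_of_le hLi with h | h
            · exact Or.inl (by omega)
            · exact Or.inr ⟨by omega, by omega⟩)) (N := N + B) (g := g) hg hd
        (K ⧸ A.subgroupOf K) (hX.quot K (hX.sub E hXE K) _) ?_ ?_ hKA
      · have e : N + 1 + B = N + B + 1 := by ring
        rw [e]
        exact key
      · exact (center_index_image (QuotientGroup.mk' (A.subgroupOf K))
          (QuotientGroup.mk'_surjective _)).trans (center_index_sub K)
      · have h1 : Nat.card (K ⧸ A.subgroupOf K) ≤ Nat.card K :=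
          Nat.card_le_card_of_surjective _ (QuotientGroup.mk'_surjective (A.subgroupOf K))
        have h2 := Subgroup.card_le_card_group K
        omega
    · exact ⟨0, fun h1 h2 h3 => absurd ⟨h1, h2, h3⟩ ht⟩
  choose B hB using hB
  obtain ⟨g, hg, hd⟩ := exists_genus (p := p) (N + ∑ theta ∈ Irr M, B theta)
  have hdd : ∀ k : ℕ, k ≤ N + ∑ theta ∈ Irr M, B theta → p ^ k * (p - 1) ∣ g - 1 :=
    fun k hk => (Nat.mul_dvd_mul (Nat.pow_dvd_pow p hk) dvd_rfl).trans hd
  have hdN : p ^ N * (p - 1) ∣ g - 1 := hdd N (by omega)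
  refine ⟨g, hg, hdN, ?_⟩
  have h3 := supplements_small (p := p) (G := H) (M := M) hg hdN (fun theta h1 h2 h3 =>
    hB theta h1 h2 h3 g hg (hdd _ (Nat.add_le_add_left
      (Finset.single_le_sum (f := B) (fun _ _ => Nat.zero_le _) (mem_Irr.2 h1)) N)))
  rw [← Finset.add_sum_erase _ _ (Finset.mem_univ (⊤ : Subgroup H)), if_pos (top_sup_eq M),
    numSurj_congr (Subgroup.topEquiv (G := H))] at h3
  push_cast at h3
  refine (dvd_add_left (Finset.dvd_sum fun K hK => ?_)).1 h3
  split_ifs with hKM
  · have hKt := Finset.ne_of_mem_erase hK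
    refine section_zero (p := p) (X := X) hX.closed H (Nat.card H)
      (fun L _ _ hL hLi hLn => hsmall L hL (by
          rcases lt_or_eq_of_le hLi with h | h
          · exact Or.inl h
          · exact Or.inr ⟨h, hLn⟩)) hg hdN K (hX.sub H hH K) (center_index_sub K)
      (card_lt_of_ne_top K hKt) ?_
    intro h5
    apply hc
    refine h5.image ((QuotientGroup.mk' M).comp K.subtype) ?_
    intro y
    obtain ⟨x, rfl⟩ := QuotientGroup.mk'_surjective M y
    have hx : x ∈ K ⊔ M := by rw [hKM]; trivial
    rw [Subgroup.mem_sup_of_normal_right] at hx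
    obtain ⟨k, hk, m, hm, rfl⟩ := hx
    refine ⟨⟨k, hk⟩, ?_⟩
    rw [map_mul]
    have : (QuotientGroup.mk' M) m = 1 := (QuotientGroup.eq_one_iff _).2 hm
    rw [this, mul_one]
    rfl
  · exact dvd_zero _

lemma controls_index {H : Type} [Group H] [Fintype H] {M : Subgroup H} [M.Normal]
    {theta : M → ℂ} {E : Type} [Group E] [Fintype E] {pi : E →* H ⧸ M}
    (h : Controls p theta pi) :
    (Subgroup.center E).index ≤ (Subgroup.center H ⊔ M).index := by
  have h1 := Subgroup.index_dvd_of_le h.above
  rw [Subgroup.index_comap_of_surjective _ h.surj, Subgroup.index_map,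
    (QuotientGroup.mk' M).range_eq_top_of_surjective (QuotientGroup.mk'_surjective M),
    Subgroup.index_top, mul_one, QuotientGroup.ker_mk'] at h1
  exact Nat.le_of_dvd (Nat.pos_of_ne_zero Subgroup.FiniteIndex.index_ne_zero) h1

/-- noncentral normal subgroups -/
theorem step_noncentral {X : ∀ (H : Type) [Group H], Prop} (hX : ClosedC p X) (H : Type) [Group H]
    [Fintype H] (hH : X H)
    (hsmall : ∀ (L : Type) [Group L] [Finite L], X L → Smaller L H →
      numRegularClasses p L = numWeights p L) (M : Subgroup H) [M.Normal]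
    (hM : ¬ M ≤ Subgroup.center H) (hc : ¬ PA2 p (H ⧸ M)) (N : ℕ) :
    ∃ g : ℕ, 2 ≤ g ∧ p ^ N * (p - 1) ∣ g - 1 ∧ (p : ℤ) ^ (N + 1) ∣ (numSurj g H : ℤ) := by
  refine step_controls hX H hH hsmall M hc (fun theta h1 h2 h3 => ?_) N
  obtain ⟨E, _, _, pi, hpi⟩ := exists_controls (p := p) h1 h2 h3
  refine ⟨E, inferInstance, inferInstance, pi, hpi, Or.inl ?_⟩
  refine lt_of_le_of_lt (controls_index hpi) ?_
  have hlt : Subgroup.center H < Subgroup.center H ⊔ M :=
    lt_of_le_of_ne le_sup_left (fun h => hM (h ▸ le_sup_right))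
  exact Subgroup.index_strictAnti hlt

/-- the center -/
theorem step_central {X : ∀ (H : Type) [Group H], Prop} (hX : ClosedC p X) (H : Type) [Group H]
    [Fintype H] (hH : X H) (hR : ∀ M : Subgroup H, M.Normal → IsPGroup p M → M = ⊥)
    (hsmall : ∀ (L : Type) [Group L] [Finite L], X L → Smaller L H →
      numRegularClasses p L = numWeights p L)
    (hM : ¬ (IsCyclic (Subgroup.center H) ∧ Subgroup.center H ≤ commutator H))
    (hd : p ∣ Nat.card H) (N : ℕ) :
    ∃ g : ℕ, 2 ≤ g ∧ p ^ N * (p - 1) ∣ g - 1 ∧ (p : ℤ) ^ (N + 1) ∣ (numSurj g H : ℤ) := by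
  have hc := not_PA2_center hR hd
  have hcomm : IsMulCommutative (Subgroup.center H) := ⟨⟨fun a b => Subtype.ext
    (Subgroup.mem_center_iff.1 b.2 a)⟩⟩
  have hpZ : ¬ p ∣ Nat.card (Subgroup.center H) := by
    refine nilp_prime hR _ ?_
    let _ : CommGroup (Subgroup.center H) :=
      { (inferInstance : Group (Subgroup.center H)) with
        mul_comm := fun a b => Subtype.ext (Subgroup.mem_center_iff.1 b.2 a) }
    exact (inferInstance : Group.IsNilpotent (Subgroup.center H))
  refine step_controls hX H hH hsmall (Subgroup.center H) hc (fun theta h1 h2 h3 => ?_) N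
  obtain ⟨E, _, _, pi, hpi, hker⟩ := exists_controls_central (p := p) le_rfl hpZ h1
  refine ⟨E, inferInstance, inferInstance, pi, hpi, ?_⟩
  have h4 := controls_index hpi
  rw [sup_idem] at h4
  have h5 : Nat.card E < Nat.card H := by
    rw [Subgroup.card_eq_card_quotient_mul_card_subgroup pi.ker,
      Subgroup.card_eq_card_quotient_mul_card_subgroup (Subgroup.center H),
      Nat.card_congr (QuotientGroup.quotientKerEquivOfSurjective pi hpi.surj).toEquiv]
    exact Nat.mul_lt_mul_of_pos_left (lt_of_le_of_lt hker (exponent_lt hM)) Nat.card_pos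
  rcases lt_or_eq_of_le h4 with h | h
  · exact Or.inl h
  · exact Or.inr ⟨h, h5⟩

/-- the smallest noncentral normal subgroup -/
theorem exists_smallest {H : Type} [Group H] [Finite H]
    (hR : ∀ M : Subgroup H, M.Normal → IsPGroup p M → M = ⊥) (hd : p ∣ Nat.card H)
    (hab : ∃ a b : H, a * b ≠ b * a)
    (hq : ∀ (M : Subgroup H) [M.Normal], ¬ M ≤ Subgroup.center H → PA2 p (H ⧸ M)) :
    ∃ (N : Subgroup H) (_ : N.Normal), ¬ N ≤ Subgroup.center H ∧
    (∀ M : Subgroup H, M.Normal → M ≤ Subgroup.center H ∨ N ≤ M) ∧ PA2 p (H ⧸ N) ∧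
    (⁅N, N⁆ = N ∨ Group.IsSolvable H) := by
  obtain ⟨N, ⟨hNn, hNc⟩, hmin⟩ := WellFounded.has_min (wellFounded_lt (α := Subgroup H))
    {N | N.Normal ∧ ¬ N ≤ Subgroup.center H} ⟨⊤, inferInstance, by
      intro h
      obtain ⟨a, b, hne⟩ := hab
      exact hne (Subgroup.mem_center_iff.1 (h (Subgroup.mem_top b)) a)⟩
  have hs : ∀ M : Subgroup H, M.Normal → M ≤ Subgroup.center H ∨ N ≤ M := by
    intro M hMn
    by_contra hcon
    push Not at hcon
    have h1 := inf_noncentral hR hd M N (hq M hcon.1) (hq N hNc)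
    refine hmin (M ⊓ N) ⟨inferInstance, h1⟩ (lt_of_le_of_ne inf_le_right fun h => hcon.2 ?_)
    exact inf_eq_right.1 h
  exact ⟨N, hNn, hNc, hs, hq N hNc, perfect_or_solvable N (hq N hNc) hs⟩

/-- a group with the property on all smaller groups satisfies the conjecture, unless it is minimal -/
theorem awc_of_minimal {X : ∀ (H : Type) [Group H], Prop} (hX : ClosedC p X)
    (h : ∀ (H : Type) [Group H] [Finite H], X H → Minimal p H →
      (∀ (L : Type) [Group L] [Finite L], X L → Smaller L H →
        numRegularClasses p L = numWeights p L) → numRegularClasses p H = numWeights p H) :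
    ∀ (n : ℕ) (Γ : Type) [Group Γ] [Finite Γ], XP p (Xz X n) Γ →
      numRegularClasses p Γ = numWeights p Γ := by
  intro n
  induction n with
  | zero =>
    rintro Γ _ _ ⟨G, _, ⟨_, _, hG⟩, _⟩
    exact absurd (Nat.le_zero.1 hG) Subgroup.FiniteIndex.index_ne_zero
  | succ n ih =>
    have hXz := xz_closed hX.closed (n + 1)
    have key := reduction' p (Xz X (n + 1)) hXz (fun H _ _ hH hR hsmall => by
      have hsm : ∀ (L : Type) [Group L] [Finite L], X L → Smaller L H →
          numRegularClasses p L = numWeights p L := by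
        intro L _ _ hL hLH
        have hHn := hH.2.2
        rcases hLH with h1 | ⟨h1, h2⟩
        · refine ih L ⟨⊤, inferInstance, (xz_closed hX.closed n).iso L _ ⟨hL, inferInstance, ?_⟩
            ⟨Subgroup.topEquiv.symm⟩, pgroup_top p L⟩
          omega
        · refine hsmall L ⟨⊤, inferInstance, hXz.iso L _ ⟨hL, inferInstance, ?_⟩
            ⟨Subgroup.topEquiv.symm⟩, pgroup_top p L⟩ h2
          omega
      by_cases hmin : Minimal p H
      · exact h H hH.1 hmin hsm
      · refine awc_step (Xz X (n + 1)) hXz H hH hR hsmall fun N => ?_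
        have : Fintype H := Fintype.ofFinite H
        by_cases hd : p ∣ Nat.card H
        · have hab : ∃ a b : H, a * b ≠ b * a := by
            by_contra hcon
            push Not at hcon
            let _ : CommGroup H := { (inferInstance : Group H) with mul_comm := hcon }
            have hN3 : Group.IsNilpotent (⊤ : Subgroup H) := inferInstance
            have h3 := nilp_prime hR.radical ⊤ hN3
            rw [Subgroup.card_top] at h3
            exact h3 hd
          rw [numSurj_one_zero hab]
          have hex : ∃ g : ℕ, 2 ≤ g ∧ p ^ N * (p - 1) ∣ g - 1 ∧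
              (p : ℤ) ^ (N + 1) ∣ (numSurj g H : ℤ) := by
            by_cases hZ : IsCyclic (Subgroup.center H) ∧ Subgroup.center H ≤ commutator H
            · have hn : ¬ ∀ (M : Subgroup H) [M.Normal], ¬ M ≤ Subgroup.center H →
                  PA2 p (H ⧸ M) :=
                fun hn => hmin ⟨hd, hR, hZ.1, hZ.2, exists_smallest hR.radical hd hab hn⟩
              push Not at hn
              obtain ⟨M, hMn, hM1, hM2⟩ := hn
              exact step_noncentral hX H hH.1 hsm M hM1 hM2 N
            · exact step_central hX H hH.1 hR.radical hsm hZ hd N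
          obtain ⟨g, hg, hdg, h1⟩ := hex
          exact ⟨g, hg, hdg, by simpa using h1⟩
        · obtain ⟨g, hg, hdg⟩ := exists_genus (p := p) N
          exact ⟨g, hg, hdg, cont_prime hd hg hdg⟩)
    intro Γ _ _ hΓ
    exact key (Nat.card Γ) Γ le_rfl hΓ

end

end Pool.Agent.Helper15.AW
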