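import Pool.Agent.Helper15.AWC.MinC

/-!
# Minimal counterexamples to Navarro's equality
-/

open scoped Classical BigOperators

set_option linter.unusedSectionVars false

noncomputable section

namespace Pool.Agent.Helper15.AW

open Pool.Agent.Y63.AWC (numWeights numRegularClasses)
open Pool.Agent.Y63.NV (Closed Reduced XP NavarroSum navarroSum_top free_form free_strong
  reduction' xp_closed pgroup_top)

/-- the groups in `X` which are smaller than `H` -/
def Low (X : ∀ (H : Type) [Group H], Prop) (H : Type) [Group H] (L : Type) [Group L] : Prop :=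
  X L ∧ Finite L ∧ (Subgroup.center L).index ≤ (Subgroup.center H).index ∧
    ((Subgroup.center L).index < (Subgroup.center H).index ∨ Nat.card L < Nat.card H)

lemma low_closed {p : ℕ} {X : ∀ (H : Type) [Group H], Prop} (hX : Closed p X) (H : Type)
    [Group H] : Closed p (fun L _ => Low X H L) where
  iso := by
    rintro L K _ _ ⟨h1, h2, h3, h4⟩ ⟨e⟩
    have h5 := center_index_image e.toMonoidHom e.surjective
    refine ⟨hX.iso L K h1 ⟨e⟩, Finite.of_equiv L e.toEquiv, h5.trans h3, ?_⟩
    rw [← Nat.card_congr e.toEquiv]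
    rcases h4 with h4 | h4
    · exact Or.inl (lt_of_le_of_lt h5 h4)
    · exact Or.inr h4
  sub := by
    rintro L _ ⟨h1, h2, h3, h4⟩ K
    have h5 := center_index_sub K
    refine ⟨hX.sub L h1 K, inferInstance, h5.trans h3, ?_⟩
    rcases h4 with h4 | h4
    · exact Or.inl (lt_of_le_of_lt h5 h4)
    · exact Or.inr (lt_of_le_of_lt (Subgroup.card_le_card_group K) h4)
  quot := by
    rintro L _ ⟨h1, h2, h3, h4⟩ M _ hM
    have h5 := center_index_image (QuotientGroup.mk' M) (QuotientGroup.mk'_surjective M)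
    refine ⟨hX.quot L h1 M hM, inferInstance, h5.trans h3, ?_⟩
    rcases h4 with h4 | h4
    · exact Or.inl (lt_of_le_of_lt h5 h4)
    · exact Or.inr (lt_of_le_of_lt
        (Nat.card_le_card_of_surjective _ (QuotientGroup.mk'_surjective M)) h4)

lemma smaller_of_low {X : ∀ (H : Type) [Group H], Prop} {H L : Type} [Group H] [Group L]
    (h : Low X H L) : Smaller L H := by
  obtain ⟨_, _, h3, h4⟩ := h
  rcases lt_or_eq_of_le h3 with h5 | h5
  · exact Or.inl h5
  · rcases h4 with h4 | h4
    · exact absurd h4 (by omega)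
    · exact Or.inr ⟨h5, h4⟩

lemma low_of_smaller {X : ∀ (H : Type) [Group H], Prop} {H L : Type} [Group H] [Group L]
    [Finite L] (hL : X L) (h : Smaller L H) : Low X H L := by
  rcases h with h | ⟨h, h'⟩
  · exact ⟨hL, inferInstance, h.le, Or.inl h⟩
  · exact ⟨hL, inferInstance, h.le, Or.inr h'⟩

theorem navarro_of_minimal (p : ℕ) [Fact p.Prime] (F : Type) [Field F] [IsAlgClosed F]
    [CharP F p] (X : ∀ (H : Type) [Group H], Prop) (hX : ClosedC p X)
    (h : ∀ (H : Type) [Group H] [Finite H], X H → Minimal p H →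
      (∀ (Γ : Type) [Group Γ] [Finite Γ] (G : Subgroup Γ) [G.Normal], X G → IsPGroup p (Γ ⧸ G) →
        Smaller G H → NavarroSum p F G) → NavarroSum p F (⊤ : Subgroup H))
    (Γ : Type) [Group Γ] [Finite Γ] (N G : Subgroup Γ) [N.Normal] [G.Normal] (hNG : N ≤ G)
    (hN : X N) (hp : IsPGroup p (Γ ⧸ N)) : NavarroSum p F G := by
  refine (free_strong p F X hX.closed).1 (fun H _ _ hH _ => ?_) Γ N G hNG hN hp
  rw [navarroSum_top]
  refine awc_of_minimal hX (fun K _ _ hK hmin hsmall => ?_) (Subgroup.center H).index H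
    ⟨⊤, inferInstance, (xz_closed hX.closed _).iso H _ ⟨hH, inferInstance, le_rfl⟩
      ⟨Subgroup.topEquiv.symm⟩, pgroup_top p H⟩
  rw [← navarroSum_top p F K]
  refine h K hK hmin fun Γ _ _ G _ hG hpG hGK => ?_
  have : Finite G := inferInstance
  exact (free_form p F (fun L _ => Low X K L) (low_closed hX.closed K)).1
    (fun L _ _ hL => (navarroSum_top p F L).2 (hsmall L hL.1 (smaller_of_low hL))) Γ G
    (low_of_smaller hG hGK) hpG

end Pool.Agent.Helper15.AW
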