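import Pool.Agent.Helper15.AWC.Word

/-!
# The sum over the lifts vanishes for characters which are not invariant
-/

open scoped Classical BigOperators
open Representation Pool.Agent.Helper884.IC Pool.Agent.Y63.AWC

set_option linter.unusedSectionVars false

noncomputable section

namespace Pool.Agent.Helper15.AW

open Pool.Agent.Y63.KR (surfaceWord coords map_surfaceWord surfaceWord_cons)

section

variable {G : Type} [Group G] [Fintype G] {M : Subgroup G} [M.Normal]
  {V : Type} [AddCommGroup V] [Module ℂ V] [FiniteDimensional ℂ V]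

/-- the conjugate representation -/
def rhoC (rho : Representation ℂ M V) (x : G) : Representation ℂ M V :=
  rho.comp (MulAut.conjNormal x).toMonoidHom

lemma rhoC_apply (rho : Representation ℂ M V) (x : G) (m : M) :
    rhoC rho x m = rho (MulAut.conjNormal x m) := rfl

lemma rhoC_irr (rho : Representation ℂ M V) (hr : rho.IsIrreducible) (x : G) :
    (rhoC rho x).IsIrreducible := by
  let e : Subrepresentation (rhoC rho x) ≃o Subrepresentation rho :=
    { toFun := fun S => ⟨S.toSubmodule, fun g v hv => by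
        have := S.apply_mem_toSubmodule ((MulAut.conjNormal x).symm g) hv
        rw [rhoC_apply] at this
        simpa using this⟩
      invFun := fun S => ⟨S.toSubmodule, fun g v hv => S.apply_mem_toSubmodule _ hv⟩
      left_inv := fun S => rfl
      right_inv := fun S => rfl
      map_rel_iff' := Iff.rfl }
  exact (OrderIso.isSimpleOrder_iff e).2 hr

/-- the stabiliser of a character -/
def stab (chi : M → ℂ) : Subgroup G where
  carrier := {x | ∀ m : M, chi (MulAut.conjNormal x m) = chi m}
  one_mem' := by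
    intro m
    simp
  mul_mem' := by
    intro x y hx hy m
    rw [map_mul, MulAut.mul_apply, hx, hy]
  inv_mem' := by
    intro x hx m
    have := hx (MulAut.conjNormal x⁻¹ m)
    rw [map_inv, MulAut.apply_inv_self] at this
    rw [map_inv]
    exact this.symm

lemma le_stab {chi : M → ℂ} (hc : IsClass chi) : M ≤ stab chi := by
  intro x hx m
  have h1 : MulAut.conjNormal x m = (⟨x, hx⟩ : M) * m * (⟨x, hx⟩ : M)⁻¹ := by
    ext
    simp
  rw [h1]
  exact hc m ⟨x, hx⟩

lemma sum_zero (rho : Representation ℂ M V) (hr : rho.IsIrreducible) {x y W : G} (hW : W ∈ M)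
    (h : y * x⁻¹ ∉ stab (rho.character)) :
    ∑ m : M, rho0 rho (x * m * x⁻¹ * (y * (m : G)⁻¹ * y⁻¹) * W) = 0 := by
  have h1 : ∀ m : M, rho0 rho (x * m * x⁻¹ * (y * (m : G)⁻¹ * y⁻¹) * W) =
      (rhoC rho x m * rhoC rho y m⁻¹) * rho ⟨W, hW⟩ := by
    intro m
    rw [rhoC_apply, rhoC_apply, ← map_mul, ← map_mul, ← rho0_coe]
    congr 1
  rw [Finset.sum_congr rfl fun m _ => h1 m, ← Finset.sum_mul,
    avg_zero (rhoC rho x) (rhoC rho y) (rhoC_irr rho hr x) (rhoC_irr rho hr y), zero_mul]
  intro heq
  apply h
  intro m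
  have h2 := congrFun heq (MulAut.conjNormal x⁻¹ m)
  have h3 : (rhoC rho x).character (MulAut.conjNormal x⁻¹ m) = rho.character m := by
    change rho.character (MulAut.conjNormal x (MulAut.conjNormal x⁻¹ m)) = _
    rw [← MulAut.mul_apply, ← map_mul, mul_inv_cancel, map_one, MulAut.one_apply]
  have h4 : (rhoC rho y).character (MulAut.conjNormal x⁻¹ m) =
      rho.character (MulAut.conjNormal (y * x⁻¹) m) := by
    change rho.character (MulAut.conjNormal y (MulAut.conjNormal x⁻¹ m)) = _
    rw [← MulAut.mul_apply, ← map_mul]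
  rw [← h4, ← h2, h3]

lemma mem_quot {x y : G} (h : (QuotientGroup.mk' M) x = (QuotientGroup.mk' M) y) (hy : y ∈ M) :
    x ∈ M := by
  rw [← QuotientGroup.eq_one_iff, ← QuotientGroup.mk'_apply, h]
  exact (QuotientGroup.eq_one_iff _).2 hy

lemma mk_sub (m : M) : (QuotientGroup.mk' M) (m : G) = 1 := (QuotientGroup.eq_one_iff _).2 m.2

lemma sum_first (rho : Representation ℂ M V) (hr : rho.IsIrreducible) {A a b B : G}
    (hM : A * (a * b * a⁻¹ * b⁻¹) * B ∈ M) (hA : A ∈ stab (rho.character))
    (hab : a * b * a⁻¹ ∉ stab (rho.character)) (n : M) :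
    ∑ m : M, rho0 rho (A * ((a * m) * (b * n) * (a * m)⁻¹ * (b * n)⁻¹) * B) = 0 := by
  have hirr : IsIrrChar rho.character := ⟨V, _, _, ‹_›, rho, hr, rfl⟩
  have hle := le_stab hirr.isClass
  have h := sum_zero rho hr (x := A * a) (y := A * a * b * n)
    (W := A * a * (b * n) * a⁻¹ * (b * n)⁻¹ * B) (by
      refine mem_quot ?_ hM
      simp only [map_mul, map_inv, mk_sub, mul_one]
      group) (by
      intro hmem
      apply hab
      have h1 : a * b * a⁻¹ = A⁻¹ * (A * a * b * n * (A * a)⁻¹) * A * (a * n * a⁻¹)⁻¹ := by group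
      rw [h1]
      refine mul_mem (mul_mem (mul_mem (inv_mem hA) hmem) hA) (inv_mem (hle ?_))
      exact Subgroup.Normal.conj_mem inferInstance _ n.2 _)
  refine Eq.trans (Finset.sum_congr rfl fun m _ => ?_) h
  congr 1
  group

lemma sum_second (rho : Representation ℂ M V) (hr : rho.IsIrreducible) {A a b B : G}
    (hM : A * (a * b * a⁻¹ * b⁻¹) * B ∈ M) (hA : A ∈ stab (rho.character))
    (hab : a * b * a⁻¹ ∈ stab (rho.character)) (ha : a ∉ stab (rho.character)) (m : M) :
    ∑ n : M, rho0 rho (A * ((a * m) * (b * n) * (a * m)⁻¹ * (b * n)⁻¹) * B) = 0 := by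
  have hirr : IsIrrChar rho.character := ⟨V, _, _, ‹_›, rho, hr, rfl⟩
  have hle := le_stab hirr.isClass
  have hb : (a * m) * b * (a * m)⁻¹ ∈ stab (rho.character) := by
    have h1 : (a * m) * b * (a * m)⁻¹ =
        (a * m * a⁻¹) * (a * b * a⁻¹) * (a * m * a⁻¹)⁻¹ := by group
    rw [h1]
    have h2 : a * m * a⁻¹ ∈ stab (rho.character) :=
      hle (Subgroup.Normal.conj_mem inferInstance _ m.2 _)
    exact mul_mem (mul_mem h2 hab) (inv_mem h2)
  have h := sum_zero rho hr (x := A * (a * m) * b) (y := A * (a * m) * b * (a * m)⁻¹)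
    (W := A * (a * m) * b * (a * m)⁻¹ * b⁻¹ * B) (by
      refine mem_quot ?_ hM
      simp only [map_mul, map_inv, mk_sub, mul_one]
      group) (by
      intro hmem
      apply ha
      have h1 : a = ((((a * m) * b * (a * m)⁻¹)⁻¹ *
        (A⁻¹ * (A * (a * m) * b * (a * m)⁻¹ * (A * (a * m) * b)⁻¹) * A) *
        ((a * m) * b * (a * m)⁻¹)))⁻¹ * (m : G)⁻¹ := by group
      rw [h1]
      exact mul_mem (inv_mem (mul_mem (mul_mem (inv_mem hb) (mul_mem (mul_mem (inv_mem hA) hmem) hA))
        hb)) (inv_mem (hle m.2)))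
  refine Eq.trans (Finset.sum_congr rfl fun n _ => ?_) h
  congr 1
  group

/-- the sum over all lifts is zero for characters which are not invariant -/
theorem sum_noninv (rho : Representation ℂ M V) (hr : rho.IsIrreducible) :
    ∀ (g : ℕ) (A B : G) (q : Fin g → G × G), A ∈ stab (rho.character) →
      A * surfaceWord q * B ∈ M →
      (∃ i, ¬ ((q i).1 ∈ stab (rho.character) ∧ (q i).2 ∈ stab (rho.character))) →
      ∑ m : Fin g → M × M, rho0 rho (A * surfaceWord (mulT q (mapT M.subtype m)) * B) = 0 := by
  have hirr : IsIrrChar rho.character := ⟨V, _, _, ‹_›, rho, hr, rfl⟩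
  have hle := le_stab hirr.isClass
  intro g
  induction g with
  | zero =>
    intro A B q _ _ h
    obtain ⟨i, _⟩ := h
    exact i.elim0
  | succ g ih =>
    intro A B q hA hM h
    obtain ⟨⟨a, b⟩, q', rfl⟩ : ∃ c : G × G, ∃ q' : Fin g → G × G, q = Fin.cons c q' :=
      ⟨q 0, Fin.tail q, (Fin.cons_self_tail q).symm⟩
    rw [← (Fin.consEquiv (fun _ : Fin (g + 1) => M × M)).sum_comp]
    rw [surfaceWord_cons] at hM
    have h1 : ∀ (c : M × M) (m : Fin g → M × M),
        surfaceWord (mulT (Fin.cons (a, b) q' : Fin (g + 1) → G × G) (mapT M.subtype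
          ((Fin.consEquiv (fun _ : Fin (g + 1) => M × M)) (c, m)))) =
        ((a * c.1) * (b * c.2) * (a * c.1)⁻¹ * (b * c.2)⁻¹) *
          surfaceWord (mulT q' (mapT M.subtype m)) := by
      intro c m
      have e1 : (Fin.consEquiv (fun _ : Fin (g + 1) => M × M)) (c, m) = Fin.cons c m := rfl
      rw [e1, mapT_cons, mulT_cons, surfaceWord_cons]
      rfl
    by_cases hab : a ∈ stab (rho.character) ∧ b ∈ stab (rho.character)
    · rw [Fintype.sum_prod_type]
      refine Finset.sum_eq_zero fun c _ => ?_
      have h2 := ih (A * ((a * c.1) * (b * c.2) * (a * c.1)⁻¹ * (b * c.2)⁻¹)) B q' (by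
        have ha : a * c.1 ∈ stab (rho.character) := mul_mem hab.1 (hle c.1.2)
        have hb : b * c.2 ∈ stab (rho.character) := mul_mem hab.2 (hle c.2.2)
        exact mul_mem hA (mul_mem (mul_mem (mul_mem ha hb) (inv_mem ha)) (inv_mem hb))) (by
        refine mem_quot ?_ hM
        simp only [map_mul, map_inv, mk_sub, mul_one, one_mul, mul_assoc]) (by
        obtain ⟨i, hi⟩ := h
        revert hi
        refine Fin.cases ?_ (fun j => ?_) i
        · intro hi
          exact absurd hab (by simpa using hi)
        · intro hi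
          exact ⟨j, by simpa using hi⟩)
      refine Eq.trans (Finset.sum_congr rfl fun m _ => ?_) h2
      rw [h1]
      congr 1
      group
    · rw [Fintype.sum_prod_type_right]
      refine Finset.sum_eq_zero fun m _ => ?_
      simp only [h1]
      have hM' : A * (a * b * a⁻¹ * b⁻¹) * (surfaceWord (mulT q' (mapT M.subtype m)) * B) ∈ M := by
        refine mem_quot ?_ hM
        have h3 : (QuotientGroup.mk' M) (surfaceWord (mulT q' (mapT M.subtype m))) =
            (QuotientGroup.mk' M) (surfaceWord q') := by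
          have h4 := word_mulT_mem M q' (mapT M.subtype m) (fun i => ⟨(m i).1.2, (m i).2.2⟩)
          have h5 := (QuotientGroup.eq_one_iff _).2 h4
          rw [← QuotientGroup.mk'_apply, map_mul, map_inv, inv_mul_eq_one] at h5
          exact h5.symm
        simp only [map_mul, map_inv, h3, mul_assoc]
      by_cases hc : a * b * a⁻¹ ∈ stab (rho.character)
      · have ha : a ∉ stab (rho.character) := by
          intro ha
          apply hab
          refine ⟨ha, ?_⟩
          have h1 : b = a⁻¹ * (a * b * a⁻¹) * a := by group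
          rw [h1]
          exact mul_mem (mul_mem (inv_mem ha) hc) ha
        rw [Fintype.sum_prod_type]
        refine Finset.sum_eq_zero fun x _ => ?_
        refine Eq.trans (Finset.sum_congr rfl fun n _ => ?_) (sum_second rho hr hM' hA hc ha x)
        congr 1
        simp only [mul_assoc]
      · rw [Fintype.sum_prod_type_right]
        refine Finset.sum_eq_zero fun n _ => ?_
        refine Eq.trans (Finset.sum_congr rfl fun x _ => ?_) (sum_first rho hr hM' hA hc n)
        congr 1
        simp only [mul_assoc]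

end

end Pool.Agent.Helper15.AW
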