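import Pool.Agent.Helper15.AWC.Struct

/-!
# Nilpotent normal subgroups
-/

open scoped Classical BigOperators

set_option linter.unusedSectionVars false

noncomputable section

namespace Pool.Agent.Helper15.AW

/-- a nilpotent normal subgroup of a group without normal `p`-subgroups -/
lemma nilp_prime {p : ℕ} [hp : Fact p.Prime] {H : Type} [Group H] [Finite H]
    (hR : ∀ M : Subgroup H, M.Normal → IsPGroup p M → M = ⊥) (Q : Subgroup H) [hQ : Q.Normal]
    (hn : Group.IsNilpotent Q) : ¬ p ∣ Nat.card Q := by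
  intro h
  obtain ⟨P⟩ : Nonempty (Sylow p Q) := inferInstance
  have h1 : (P : Subgroup Q).Normal := Group.isNilpotent_of_finite_tfae.out 0 3 rfl rfl |>.mp hn p hp P
  have h2 : (P : Subgroup Q).Characteristic := P.characteristic_of_normal h1
  have h3 : ((P : Subgroup Q).map Q.subtype).Normal := inferInstance
  have h4 := hR _ h3 (P.isPGroup'.map _)
  rw [Subgroup.map_eq_bot_iff_of_injective _ Q.subtype_injective] at h4
  have h5 := P.card_eq_multiplicity
  rw [h4, Subgroup.card_bot] at h5
  have h6 : 0 < (Nat.card Q).factorization p := hp.out.factorization_pos_of_dvd Nat.card_pos.ne' h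
  have h7 : 1 < p ^ (Nat.card Q).factorization p := Nat.one_lt_pow h6.ne' hp.out.one_lt
  omega

/-- the quotient by the center of a group without normal `p`-subgroups, if `p` divides its order -/
theorem not_comm_center {p : ℕ} [hp : Fact p.Prime] {H : Type} [Group H] [Finite H]
    (hR : ∀ M : Subgroup H, M.Normal → IsPGroup p M → M = ⊥) (hd : p ∣ Nat.card H)
    (Q : Subgroup (H ⧸ Subgroup.center H)) (hQn : Q.Normal) (hQp : IsPGroup p Q)
    (hQc : commutator (H ⧸ Subgroup.center H) ≤ Q) : False := by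
  -- the preimage of `Q` is nilpotent
  have hN : Group.IsNilpotent (Q.comap (QuotientGroup.mk' (Subgroup.center H))) := by
    have : Group.IsNilpotent Q := hQp.isNilpotent
    let f : Q.comap (QuotientGroup.mk' (Subgroup.center H)) →* Q :=
      (QuotientGroup.mk' (Subgroup.center H)).subgroupComap Q
    refine Subgroup.isNilpotent_of_ker_le_center f ?_
    intro x hx
    have h1 : (QuotientGroup.mk' (Subgroup.center H)) (x : H) = 1 := congrArg Subtype.val hx
    have h2 : (x : H) ∈ Subgroup.center H := (QuotientGroup.eq_one_iff _).1 h1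
    rw [Subgroup.mem_center_iff]
    intro y
    exact Subtype.ext (Subgroup.mem_center_iff.1 h2 y)
  have h1 := nilp_prime hR _ hN
  have hQ : Q = ⊥ := by
    rw [eq_bot_iff]
    intro y hy
    obtain ⟨x, rfl⟩ := QuotientGroup.mk'_surjective _ y
    obtain ⟨k, hk⟩ := hQp ⟨_, hy⟩
    have hx : x ∈ Q.comap (QuotientGroup.mk' (Subgroup.center H)) := hy
    have h2 : orderOf ((QuotientGroup.mk' (Subgroup.center H)) x) ∣ p ^ k :=
      orderOf_dvd_of_pow_eq_one (congrArg Subtype.val hk)
    have h3 : orderOf ((QuotientGroup.mk' (Subgroup.center H)) x) ∣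
        Nat.card (Q.comap (QuotientGroup.mk' (Subgroup.center H))) := by
      refine (orderOf_map_dvd _ x).trans ?_
      exact Subgroup.orderOf_dvd_natCard _ hx
    have h4 : Nat.Coprime (p ^ k) (Nat.card (Q.comap (QuotientGroup.mk' (Subgroup.center H)))) :=
      Nat.Coprime.pow_left _ ((Nat.Prime.coprime_iff_not_dvd hp.out).2 h1)
    have h5 := Nat.dvd_gcd h2 h3
    rw [h4.gcd_eq_one, Nat.dvd_one, orderOf_eq_one_iff] at h5
    rw [h5]
    exact one_mem _
  rw [hQ, le_bot_iff] at hQc
  have hcomm : ∀ x y : H ⧸ Subgroup.center H, x * y = y * x := by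
    intro x y
    have h2 : x * y * x⁻¹ * y⁻¹ ∈ commutator (H ⧸ Subgroup.center H) := by
      rw [commutator_eq_closure]
      exact Subgroup.subset_closure ⟨x, y, rfl⟩
    rw [hQc, Subgroup.mem_bot] at h2
    calc x * y = x * y * x⁻¹ * y⁻¹ * (y * x) := by group
      _ = y * x := by rw [h2, one_mul]
  let _ : CommGroup (H ⧸ Subgroup.center H) := { (inferInstance : Group _) with mul_comm := hcomm }
  have hN2 : Group.IsNilpotent H := by
    have : Group.IsNilpotent (H ⧸ Subgroup.center H) := inferInstance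
    refine Subgroup.isNilpotent_of_ker_le_center (QuotientGroup.mk' (Subgroup.center H)) ?_
    rw [QuotientGroup.ker_mk']
  have hN3 : Group.IsNilpotent (⊤ : Subgroup H) := inferInstance
  have h3 := nilp_prime hR ⊤ hN3
  rw [Subgroup.card_top] at h3
  exact h3 hd

theorem not_PA2_center {p : ℕ} [hp : Fact p.Prime] {H : Type} [Group H] [Finite H]
    (hR : ∀ M : Subgroup H, M.Normal → IsPGroup p M → M = ⊥) (hd : p ∣ Nat.card H) :
    ¬ PA2 p (H ⧸ Subgroup.center H) := by
  rintro ⟨Q, hQn, hQp, hQc, _⟩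
  exact not_comm_center hR hd Q hQn hQp hQc

/-- the `p`-power property of the commutator subgroup modulo `M` -/
lemma PA2.pow {p : ℕ} {H : Type} [Group H] {M : Subgroup H} [M.Normal] (h : PA2 p (H ⧸ M)) {x : H}
    (hx : x ∈ commutator H) : ∃ k : ℕ, x ^ p ^ k ∈ M := by
  obtain ⟨Q, _, hQp, hQc, _⟩ := h
  have h1 : (QuotientGroup.mk' M) x ∈ Q := by
    apply hQc
    rw [← map_commutator_surj _ (QuotientGroup.mk'_surjective M)]
    exact ⟨x, hx, rfl⟩
  obtain ⟨k, hk⟩ := hQp ⟨_, h1⟩
  refine ⟨k, ?_⟩
  rw [← QuotientGroup.eq_one_iff, ← QuotientGroup.mk'_apply, map_pow]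
  exact congrArg Subtype.val hk

/-- the intersection of two normal subgroups whose quotients are extensions of `p`-groups by
abelian groups is not central -/
theorem inf_noncentral {p : ℕ} [hp : Fact p.Prime] {H : Type} [Group H] [Finite H]
    (hR : ∀ M : Subgroup H, M.Normal → IsPGroup p M → M = ⊥) (hd : p ∣ Nat.card H)
    (M N : Subgroup H) [M.Normal] [N.Normal] (hM : PA2 p (H ⧸ M)) (hN : PA2 p (H ⧸ N)) :
    ¬ M ⊓ N ≤ Subgroup.center H := by
  intro hc
  refine not_comm_center hR hd (commutator (H ⧸ Subgroup.center H)) inferInstance ?_ le_rfl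
  rintro ⟨y, hy⟩
  have hy' := hy
  rw [← map_commutator_surj _ (QuotientGroup.mk'_surjective (Subgroup.center H))] at hy'
  obtain ⟨x, hx, rfl⟩ := hy'
  obtain ⟨k, hk⟩ := hM.pow hx
  obtain ⟨l, hl⟩ := hN.pow hx
  refine ⟨k + l, Subtype.ext ?_⟩
  change (QuotientGroup.mk' (Subgroup.center H)) x ^ p ^ (k + l) = 1
  rw [← map_pow]
  refine (QuotientGroup.eq_one_iff _).2 (hc ⟨?_, ?_⟩)
  · rw [pow_add, pow_mul]
    exact M.pow_mem hk _
  · rw [pow_add, mul_comm, pow_mul]
    exact N.pow_mem hl _

/-- groups with the property PA2 are solvable -/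
lemma PA2.solvable {p : ℕ} [hp : Fact p.Prime] {K : Type} [Group K] [Finite K] (h : PA2 p K) :
    Group.IsSolvable K := by
  obtain ⟨Q, _, hQp, hQc, _⟩ := h
  have h1 : Group.IsNilpotent Q := hQp.isNilpotent
  have h2 : Group.IsSolvable Q := inferInstance
  have hcomm : ∀ x y : K ⧸ Q, x * y = y * x := by
    intro x y
    obtain ⟨x, rfl⟩ := QuotientGroup.mk'_surjective Q x
    obtain ⟨y, rfl⟩ := QuotientGroup.mk'_surjective Q y
    have h3 : x * y * x⁻¹ * y⁻¹ ∈ Q := by
      apply hQc
      rw [commutator_eq_closure]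
      exact Subgroup.subset_closure ⟨x, y, rfl⟩
    have h4 : (QuotientGroup.mk' Q) (x * y * x⁻¹ * y⁻¹) = 1 := (QuotientGroup.eq_one_iff _).2 h3
    rw [map_mul, map_mul, map_inv, map_inv, map_mul, mul_inv_eq_one, mul_inv_eq_iff_eq_mul] at h4
    exact h4
  have h3 : Group.IsSolvable (K ⧸ Q) := Group.isSolvable_of_comm hcomm
  refine Group.isSolvable_of_ker_le_range Q.subtype (QuotientGroup.mk' Q) ?_
  rw [QuotientGroup.ker_mk', Subgroup.range_subtype]

/-- a normal subgroup which is smallest among the noncentral ones is perfect, or the group is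
solvable -/
theorem perfect_or_solvable {p : ℕ} [hp : Fact p.Prime] {H : Type} [Group H] [Finite H]
    (N : Subgroup H) [N.Normal] (hN : PA2 p (H ⧸ N))
    (hs : ∀ M : Subgroup H, M.Normal → M ≤ Subgroup.center H ∨ N ≤ M) :
    ⁅N, N⁆ = N ∨ Group.IsSolvable H := by
  rcases hs ⁅N, N⁆ inferInstance with h | h
  · right
    have h1 : Group.IsSolvable (H ⧸ N) := hN.solvable
    have h2 : Group.IsNilpotent N := by
      have hcomm : ∀ x y : N ⧸ Subgroup.center N, x * y = y * x := by
        intro x y
        obtain ⟨x, rfl⟩ := QuotientGroup.mk'_surjective _ x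
        obtain ⟨y, rfl⟩ := QuotientGroup.mk'_surjective _ y
        have h3 : x * y * x⁻¹ * y⁻¹ ∈ Subgroup.center N := by
          rw [Subgroup.mem_center_iff]
          intro z
          have h4 : ((x * y * x⁻¹ * y⁻¹ : N) : H) ∈ ⁅N, N⁆ :=
            Subgroup.commutator_mem_commutator x.2 y.2
          exact Subtype.ext (Subgroup.mem_center_iff.1 (h h4) z)
        have h4 : (QuotientGroup.mk' (Subgroup.center N)) (x * y * x⁻¹ * y⁻¹) = 1 :=
          (QuotientGroup.eq_one_iff _).2 h3
        rw [map_mul, map_mul, map_inv, map_inv, map_mul, mul_inv_eq_one,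
          mul_inv_eq_iff_eq_mul] at h4
        exact h4
      let _ : CommGroup (N ⧸ Subgroup.center N) :=
        { (inferInstance : Group (N ⧸ Subgroup.center N)) with mul_comm := hcomm }
      have : Group.IsNilpotent (N ⧸ Subgroup.center N) := inferInstance
      refine Subgroup.isNilpotent_of_ker_le_center (QuotientGroup.mk' (Subgroup.center N)) ?_
      rw [QuotientGroup.ker_mk']
    have h3 : Group.IsSolvable N := inferInstance
    refine Group.isSolvable_of_ker_le_range N.subtype (QuotientGroup.mk' N) ?_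
    rw [QuotientGroup.ker_mk', Subgroup.range_subtype]
  · left
    exact le_antisymm (Subgroup.commutator_le_self N) h

end Pool.Agent.Helper15.AW
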