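import Pool.Agent.Helper15.AWC.Lift2
import Pool.Agent.Helper15.AWC.Cont

/-!
# Reduction to groups whose normal subgroups have invariant characters without extension
-/

open scoped Classical BigOperators

set_option linter.unusedSectionVars false

noncomputable section

namespace Pool.Agent.Helper15.AW

open Pool.Agent.Y63.KR (surfaceWord numHom coords map_surfaceWord weightHom regularPairs
  weight_mod card_mul_surfaceCount surfaceCount_mod surfaceCount unit_pow)
open Pool.Agent.Y63.AWC (numDefectZero numWeights numRegularClasses card_mul_numRegularClasses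
  numRegularClasses_congr numWeights_congr numDefectZero_congr IsIrreducibleCharacter)
open Pool.Agent.Y63.NV (Closed Reduced XP reduction' xp_closed pgroup_top)

lemma comm_of_pair {K : Type} [Group K] {a b : K} (h1 : a * b = b * a)
    (h2 : Subgroup.closure {a, b} = ⊤) (x y : K) : x * y = y * x := by
  have hc := Subgroup.isMulCommutative_closure (k := ({a, b} : Set K)) (by
    intro x hx y hy
    rcases hx with rfl | rfl <;> rcases hy with rfl | rfl
    · rfl
    · exact h1
    · exact h1.symm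
    · rfl)
  have hx : x ∈ Subgroup.closure {a, b} := by rw [h2]; trivial
  have hy : y ∈ Subgroup.closure {a, b} := by rw [h2]; trivial
  exact congrArg Subtype.val (hc.is_comm.comm ⟨x, hx⟩ ⟨y, hy⟩)

lemma commutator_eq_bot {K : Type} [Group K] (h : ∀ x y : K, x * y = y * x) :
    commutator K = ⊥ := by
  rw [commutator_eq_closure, Subgroup.closure_eq_bot_iff]
  rintro _ ⟨x, y, rfl⟩
  rw [Set.mem_singleton_iff, commutatorElement_def, h x y, mul_inv_cancel_right, mul_inv_cancel]

lemma map_commutator_surj {K L : Type} [Group K] [Group L] (f : K →* L)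
    (hf : Function.Surjective f) : (commutator K).map f = commutator L := by
  rw [commutator_def, commutator_def, Subgroup.map_commutator, Subgroup.map_top_of_surjective f hf]

lemma pgroup_comm_image {p : ℕ} {K L : Type} [Group K] [Group L] (f : K →* L)
    (hf : Function.Surjective f) (h : IsPGroup p (commutator K)) : IsPGroup p (commutator L) := by
  rw [← map_commutator_surj f hf]
  exact h.map f

lemma pgroup_comm_quot {p : ℕ} {K : Type} [Group K] (Q : Subgroup K) [Q.Normal]
    (hQ : IsPGroup p Q) (h : IsPGroup p (commutator (K ⧸ Q))) : IsPGroup p (commutator K) := by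
  intro x
  have hx : (QuotientGroup.mk' Q) (x : K) ∈ commutator (K ⧸ Q) := by
    rw [← map_commutator_surj _ (QuotientGroup.mk'_surjective Q)]
    exact ⟨x, x.2, rfl⟩
  obtain ⟨k, hk⟩ := h ⟨_, hx⟩
  have hk' : ((x : K) ^ p ^ k) ∈ Q := by
    rw [← QuotientGroup.eq_one_iff, ← QuotientGroup.mk'_apply, map_pow]
    exact congrArg Subtype.val hk
  obtain ⟨l, hl⟩ := hQ ⟨_, hk'⟩
  refine ⟨k + l, ?_⟩
  apply Subtype.ext
  have h2 := congrArg Subtype.val hl
  rw [Subgroup.coe_pow, pow_add, pow_mul]
  exact h2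

lemma regGen_zero {p : ℕ} {K : Type} [Group K] (h : ¬ IsPGroup p (commutator K)) :
    regGen p K = 0 := by
  unfold regGen
  rw [Nat.card_eq_zero]
  left
  constructor
  rintro ⟨q, ⟨_, h1⟩, h2⟩
  apply h
  rw [commutator_eq_bot (comm_of_pair h1 h2)]
  exact IsPGroup.of_bot

/-- the number of surjections onto groups which are not extensions of a `p`-group by an abelian
group tends to zero, if the weight conjecture holds for the sections -/
theorem surj_zero {p : ℕ} [Fact p.Prime] (X : ∀ (H : Type) [Group H], Prop) (hX : Closed p X)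
    (n : ℕ) (hsmall : ∀ (L : Type) [Group L] [Finite L], X L → Nat.card L < n →
      numRegularClasses p L = numWeights p L) {N g : ℕ} (hg : 2 ≤ g)
    (hd : p ^ N * (p - 1) ∣ g - 1) :
    ∀ (m : ℕ) (K : Type) [Group K] [Finite K], Nat.card K ≤ m → Nat.card K < n → X K →
      ¬ IsPGroup p (commutator K) → (p : ℤ) ^ (N + 1) ∣ (numSurj g K : ℤ) := by
  intro m
  induction m with
  | zero =>
    intro K _ _ hK
    have := Nat.card_pos (α := K)
    omega
  | succ m ih =>
    intro K _ _ hK hKn hXK hc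
    have h1 := term_mod_of_all (p := p) (G := K) hg hd (fun L => hsmall L (hX.sub K hXK L)
      (lt_of_le_of_lt (Subgroup.card_le_card_group L) hKn))
    unfold term at h1
    rw [regGen_zero hc] at h1
    unfold normSum at h1
    have : Fintype {Q : Subgroup K // Q.Normal ∧ IsPGroup p Q} := Fintype.ofFinite _
    rw [finsum_eq_sum_of_fintype] at h1
    have hb : (⊥ : Subgroup K).Normal ∧ IsPGroup p (⊥ : Subgroup K) :=
      ⟨inferInstance, IsPGroup.of_bot⟩
    rw [← Finset.add_sum_erase _ _ (Finset.mem_univ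
      (⟨⊥, hb⟩ : {Q : Subgroup K // Q.Normal ∧ IsPGroup p Q}))] at h1
    have h2 : Nat.card (⊥ : Subgroup K) * numSurj g (K ⧸ (⊥ : Subgroup K)) = numSurj g K := by
      rw [Subgroup.card_bot, one_mul]
      exact numSurj_congr QuotientGroup.quotientBot g
    have h3 : (p : ℤ) ^ (N + 1) ∣ ((∑ Q ∈ Finset.univ.erase
        (⟨⊥, hb⟩ : {Q : Subgroup K // Q.Normal ∧ IsPGroup p Q}),
        Nat.card Q.1 * (haveI := Q.2.1; numSurj g (K ⧸ Q.1)) : ℕ) : ℤ) := by
      push_cast
      refine Finset.dvd_sum fun Q hQ => Dvd.dvd.mul_left ?_ _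
      have hQn := Q.2.1
      have hQ1 : Q.1 ≠ ⊥ := fun h => Finset.ne_of_mem_erase hQ (Subtype.ext h)
      have hlt : Nat.card (K ⧸ Q.1) < Nat.card K := by
        have e1 := Subgroup.card_eq_card_quotient_mul_card_subgroup Q.1
        have e2 : 1 < Nat.card Q.1 := (Subgroup.one_lt_card_iff_ne_bot Q.1).mpr hQ1
        have e3 : 0 < Nat.card (K ⧸ Q.1) := Nat.card_pos
        rw [e1]
        nlinarith
      refine ih (K ⧸ Q.1) (by omega) (by omega) (hX.quot K hXK Q.1 Q.2.2) ?_
      intro h
      exact hc (pgroup_comm_quot Q.1 Q.2.2 h)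
    have h4 : (numSurj g K : ℤ) = (((Nat.card (⊥ : Subgroup K) *
        numSurj g (K ⧸ (⊥ : Subgroup K)) + ∑ Q ∈ Finset.univ.erase
        (⟨⊥, hb⟩ : {Q : Subgroup K // Q.Normal ∧ IsPGroup p Q}),
        Nat.card Q.1 * (haveI := Q.2.1; numSurj g (K ⧸ Q.1)) : ℕ) : ℤ) - ((0 : ℕ) : ℤ)) -
        ((∑ Q ∈ Finset.univ.erase
        (⟨⊥, hb⟩ : {Q : Subgroup K // Q.Normal ∧ IsPGroup p Q}),
        Nat.card Q.1 * (haveI := Q.2.1; numSurj g (K ⧸ Q.1)) : ℕ) : ℤ) := by
      rw [h2]
      push_cast
      ring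
    rw [h4]
    exact dvd_sub h1 h3

lemma card_quot_lt {H : Type} [Group H] [Finite H] (M : Subgroup H) (hM : M ≠ ⊥) :
    Nat.card (H ⧸ M) < Nat.card H := by
  have e1 := Subgroup.card_eq_card_quotient_mul_card_subgroup M
  have e2 : 1 < Nat.card M := (Subgroup.one_lt_card_iff_ne_bot M).mpr hM
  have e3 : 0 < Nat.card (H ⧸ M) := Nat.card_pos
  rw [e1]
  nlinarith

lemma card_lt_of_ne_top {H : Type} [Group H] [Finite H] (K : Subgroup H) (hK : K ≠ ⊤) :
    Nat.card K < Nat.card H := by
  have e1 : Nat.card K ≠ Nat.card H := fun h => hK ((Subgroup.card_eq_iff_eq_top K).mp h)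
  have e2 := Subgroup.card_le_card_group K
  omega

/-- a normal subgroup all of whose invariant characters of defect zero extend -/
theorem step_normal {p : ℕ} [Fact p.Prime] (X : ∀ (H : Type) [Group H], Prop) (hX : Closed p X)
    (H : Type) [Group H] [Finite H] (hH : X H)
    (hsmall : ∀ (L : Type) [Group L] [Finite L], X L → Nat.card L < Nat.card H →
      numRegularClasses p L = numWeights p L) (M : Subgroup H) [M.Normal] (hM : M ≠ ⊥)
    (hXM : X (H ⧸ M)) (hc : ¬ IsPGroup p (commutator (H ⧸ M)))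
    (hext : ∀ theta : M → ℂ, Pool.Agent.Helper884.IC.IsIrrChar theta →
      Pool.Agent.Y63.AWC.DZ p theta → Invariant theta → Extends H theta)
    {N g : ℕ} (hg : 2 ≤ g) (hd : p ^ N * (p - 1) ∣ g - 1) :
    (p : ℤ) ^ (N + 1) ∣ (numSurj g H : ℤ) := by
  have : Fintype H := Fintype.ofFinite H
  have : Fintype (Subgroup H) := Fintype.ofFinite _
  have h1 := supplements_mod (G := H) (M := M) (p := p) hg hd hext
  have h2 := surj_zero X hX (Nat.card H) hsmall hg hd (Nat.card (H ⧸ M)) (H ⧸ M) le_rfl
    (card_quot_lt M hM) hXM hc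
  have h3 : (p : ℤ) ^ (N + 1) ∣
      ((∑ K : Subgroup H, if K ⊔ M = ⊤ then numSurj g K else 0 : ℕ) : ℤ) := by
    have h4 := Dvd.dvd.mul_left h2 ((Nat.card M : ℤ) * numInv p M)
    exact (dvd_sub_left h4).1 h1
  rw [← Finset.add_sum_erase _ _ (Finset.mem_univ (⊤ : Subgroup H)), if_pos (top_sup_eq M),
    numSurj_congr (Subgroup.topEquiv (G := H))] at h3
  push_cast at h3
  refine (dvd_add_left (Finset.dvd_sum fun K hK => ?_)).1 h3
  split_ifs with hKM
  · have hKt := Finset.ne_of_mem_erase hK
    refine surj_zero X hX (Nat.card H) hsmall hg hd (Nat.card K) K le_rfl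
      (card_lt_of_ne_top K hKt) (hX.sub H hH K) ?_
    intro h5
    apply hc
    refine pgroup_comm_image ((QuotientGroup.mk' M).comp K.subtype) ?_ h5
    intro y
    obtain ⟨x, rfl⟩ := QuotientGroup.mk'_surjective M y
    have hx : x ∈ K ⊔ M := by rw [hKM]; trivial
    rw [Subgroup.mem_sup_of_normal_right] at hx
    obtain ⟨k, hk, m, hm, rfl⟩ := hx
    refine ⟨⟨k, hk⟩, ?_⟩
    rw [map_mul]
    have : (QuotientGroup.mk' M) m = 1 := (QuotientGroup.eq_one_iff _).2 hm
    rw [this, mul_one]
    rfl
  · exact dvd_zero _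

end Pool.Agent.Helper15.AW
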