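import Pool.Graph.R_seed8.Y63.KR.Surf

/-!
# Averages over a group
-/

open scoped Classical BigOperators
open Representation Pool.Agent.Helper884.IC Pool.Agent.Y63.AWC

set_option linter.unusedSectionVars false

noncomputable section

namespace Pool.Agent.Helper15.AW

variable {M : Type} [Group M] [Fintype M] {V : Type} [AddCommGroup V] [Module ℂ V]
  [FiniteDimensional ℂ V]

lemma scalar_of_comm (rho : Representation ℂ M V) (hr : rho.IsIrreducible) (T : Module.End ℂ V)
    (h : ∀ m : M, T * rho m = rho m * T) : ∃ c : ℂ, T = c • (1 : Module.End ℂ V) := by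
  let T' : IntertwiningMap rho rho := T.intertwiningMap_of_isIntertwiningMap rho rho
    (fun g v => congrArg (fun S : Module.End ℂ V => S v) (h g))
  obtain ⟨c, hc⟩ := (Representation.IsIrreducible.algebraMap_intertwiningMap_bijective_of_isAlgClosed
    (ρ := rho)).2 T'
  refine ⟨c, ?_⟩
  ext v
  have := congrArg (fun S : IntertwiningMap rho rho => S v) hc
  exact this.symm

/-- Schur's lemma: the average of a linear map -/
lemma avg_scalar (rho : Representation ℂ M V) (hr : rho.IsIrreducible) (X : Module.End ℂ V) :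
    ∑ m : M, rho m * X * rho m⁻¹ =
      ((Nat.card M : ℂ) / rho.character 1 * LinearMap.trace ℂ V X) • (1 : Module.End ℂ V) := by
  have hirr : IsIrrChar rho.character := ⟨V, _, _, ‹_›, rho, hr, rfl⟩
  have hn : rho.character 1 ≠ 0 := one_ne hirr
  obtain ⟨c, hc⟩ := scalar_of_comm rho hr (∑ m : M, rho m * X * rho m⁻¹) (by
    intro h
    rw [Finset.sum_mul, Finset.mul_sum]
    refine Fintype.sum_equiv (Equiv.mulLeft h⁻¹) _ _ fun m => ?_
    rw [Equiv.coe_mulLeft]
    simp only [mul_assoc, ← map_mul, mul_inv_rev, inv_inv]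
    rw [← mul_assoc (rho h), ← map_mul]
    congr 2
    group)
  rw [hc]
  have h2 := congrArg (LinearMap.trace ℂ V) hc
  rw [map_sum, map_smul, LinearMap.trace_one, smul_eq_mul, ← rho.char_one] at h2
  have h3 : ∀ m : M, LinearMap.trace ℂ V (rho m * X * rho m⁻¹) = LinearMap.trace ℂ V X := by
    intro m
    rw [LinearMap.trace_mul_comm, ← mul_assoc, ← map_mul, inv_mul_cancel, map_one, one_mul]
  rw [Finset.sum_congr rfl fun m _ => h3 m, Finset.sum_const, Finset.card_univ, nsmul_eq_mul,
    ← Nat.card_eq_fintype_card] at h2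
  congr 1
  field_simp
  rw [h2]

/-- rank one maps -/
lemma rank_one (rho : Representation ℂ M V) (hr : rho.IsIrreducible) (f : Module.Dual ℂ V)
    (v w : V) : ∑ m : M, f (rho m⁻¹ w) • rho m v =
      ((Nat.card M : ℂ) / rho.character 1 * f v) • w := by
  have h := congrArg (fun S : Module.End ℂ V => S w) (avg_scalar rho hr
    (LinearMap.toSpanSingleton ℂ V v ∘ₗ f))
  simp only [LinearMap.sum_apply, LinearMap.smul_apply, Module.End.one_apply,
    Module.End.mul_apply, LinearMap.comp_apply, LinearMap.toSpanSingleton_apply, map_smul] at h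
  rw [h]
  congr 2
  have h1 : LinearMap.toSpanSingleton ℂ V v ∘ₗ f = dualTensorHom ℂ V V (TensorProduct.tmul ℂ f v) := by
    ext x
    simp [dualTensorHom_apply]
  rw [h1, LinearMap.trace_eq_contract_apply, contractLeft_apply]

/-- Fourier inversion -/
lemma fourier (rho : Representation ℂ M V) (hr : rho.IsIrreducible) (Y : Module.End ℂ V) :
    ∑ n : M, LinearMap.trace ℂ V (Y * rho n) • rho n⁻¹ =
      ((Nat.card M : ℂ) / rho.character 1) • Y := by
  ext w
  simp only [LinearMap.sum_apply, LinearMap.smul_apply]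
  set b := Module.finBasis ℂ V with hb
  have h1 : ∀ T : Module.End ℂ V, LinearMap.trace ℂ V T = ∑ i, b.coord i (T (b i)) := by
    intro T
    rw [LinearMap.trace_eq_matrix_trace ℂ b]
    simp [Matrix.trace, LinearMap.toMatrix_apply]
  have h2 : ∀ n : M, LinearMap.trace ℂ V (Y * rho n) • rho n⁻¹ w =
      ∑ i, (b.coord i ∘ₗ Y) (rho n (b i)) • rho n⁻¹ w := by
    intro n
    rw [h1, Finset.sum_smul]
    rfl
  rw [Finset.sum_congr rfl fun n _ => h2 n, Finset.sum_comm]
  have h3 : ∀ i, ∑ n : M, (b.coord i ∘ₗ Y) (rho n (b i)) • rho n⁻¹ w =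
      ((Nat.card M : ℂ) / rho.character 1 * (b.coord i ∘ₗ Y) w) • b i := by
    intro i
    rw [← rank_one rho hr (b.coord i ∘ₗ Y) w (b i)]
    refine Fintype.sum_equiv (Equiv.inv M) _ _ fun n => ?_
    simp
  rw [Finset.sum_congr rfl fun i _ => h3 i]
  simp only [mul_smul, ← Finset.smul_sum]
  congr 1
  exact b.sum_repr (Y w)

/-- the average of commutators -/
lemma comm_avg (rho : Representation ℂ M V) (hr : rho.IsIrreducible) (C C' D D' : Module.End ℂ V)
    (hC : C * C' = 1) (hD : D * D' = 1) :
    ∑ c : M × M, (C * rho c.1) * (D * rho c.2) * (rho c.1⁻¹ * C') * (rho c.2⁻¹ * D') =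
      (((Nat.card M : ℂ) / rho.character 1) ^ 2) • (1 : Module.End ℂ V) := by
  rw [Fintype.sum_prod_type_right]
  have h1 : ∀ n : M, ∑ m : M, (C * rho m) * (D * rho n) * (rho m⁻¹ * C') * (rho n⁻¹ * D') =
      ((Nat.card M : ℂ) / rho.character 1) • (LinearMap.trace ℂ V (D * rho n) • rho n⁻¹ * D') := by
    intro n
    have h2 : ∀ m : M, (C * rho m) * (D * rho n) * (rho m⁻¹ * C') * (rho n⁻¹ * D') =
        C * (rho m * (D * rho n) * rho m⁻¹) * (C' * (rho n⁻¹ * D')) := by
      intro m
      simp only [mul_assoc]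
    rw [Finset.sum_congr rfl fun m _ => h2 m, ← Finset.sum_mul, ← Finset.mul_sum,
      avg_scalar rho hr]
    rw [mul_smul_comm, mul_one, smul_mul_assoc, ← mul_assoc, hC, one_mul, mul_smul,
      smul_mul_assoc]
  rw [Finset.sum_congr rfl fun n _ => h1 n, ← Finset.smul_sum, ← Finset.sum_mul, fourier rho hr,
    smul_mul_assoc, hD, smul_smul, sq]

/-- Schur's lemma for nonisomorphic representations -/
lemma avg_zero (sigma tau : Representation ℂ M V) (hs : sigma.IsIrreducible)
    (ht : tau.IsIrreducible) (hne : sigma.character ≠ tau.character) :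
    ∑ m : M, sigma m * tau m⁻¹ = 0 := by
  have hcomm : ∀ h : M, (∑ m : M, sigma m * tau m⁻¹) * tau h =
      sigma h * ∑ m : M, sigma m * tau m⁻¹ := by
    intro h
    rw [Finset.sum_mul, Finset.mul_sum]
    refine Fintype.sum_equiv (Equiv.mulLeft h⁻¹) _ _ fun m => ?_
    rw [Equiv.coe_mulLeft]
    simp only [mul_assoc, ← map_mul, mul_inv_rev, inv_inv]
    rw [← mul_assoc (sigma h), ← map_mul]
    congr 2
    group
  let T : IntertwiningMap tau sigma :=
    (∑ m : M, sigma m * tau m⁻¹ : Module.End ℂ V).intertwiningMap_of_isIntertwiningMap tau sigma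
    (fun g v => congrArg (fun S : Module.End ℂ V => S v) (hcomm g))
  rcases Representation.IsIrreducible.bijective_or_eq_zero T with h | h
  · exfalso
    apply hne
    exact (char_iso (T.ofBijective h)).symm
  · ext v
    exact congrArg (fun S : IntertwiningMap tau sigma => S v) h

/-- representations with the same character -/
lemma exists_equiv (sigma tau : Representation ℂ M V) (hs : sigma.IsIrreducible)
    (h : sigma.character = tau.character) : ∃ P : (Module.End ℂ V)ˣ,
      ∀ m : M, (P : Module.End ℂ V) * sigma m = tau m * P := by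
  have : Invertible (Nat.card M : ℂ) := invertibleOfNonzero cardG_ne
  have h1 := card_inv_mul_sum_char_mul_char_eq_finrank sigma tau
  have hirr : IsIrrChar sigma.character := ⟨V, _, _, ‹_›, sigma, hs, rfl⟩
  rw [← h, Pool.Agent.Y63.KR.sum_char_inv hirr, inv_mul_cancel₀ cardG_ne] at h1
  have h2 : Module.finrank ℂ (IntertwiningMap sigma tau) = 1 := by exact_mod_cast h1.symm
  obtain ⟨T, hT, _⟩ := finrank_eq_one_iff'.1 h2
  rcases Representation.IsIrreducible.injective_or_eq_zero T with hinj | h0
  · have hbij : Function.Bijective T.toLinearMap :=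
      ⟨hinj, LinearMap.injective_iff_surjective.1 hinj⟩
    let E : V ≃ₗ[ℂ] V := LinearEquiv.ofBijective T.toLinearMap hbij
    refine ⟨⟨E.toLinearMap, E.symm.toLinearMap, by ext v; simp, by ext v; simp⟩, fun m => ?_⟩
    ext v
    exact IntertwiningMap.isIntertwining sigma tau T m v
  · exact absurd h0 hT

end Pool.Agent.Helper15.AW
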