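import Pool.Agent.Helper15.AWC.Central
import Pool.Agent.Helper15.AWC.Main

/-!
# Groups which are extensions of a `p`-group by an abelian group with two generators
-/

open scoped Classical BigOperators

set_option linter.unusedSectionVars false

noncomputable section

namespace Pool.Agent.Helper15.AW

open Pool.Agent.Y63.KR (surfaceWord numHom coords map_surfaceWord weightHom regularPairs
  weight_mod card_mul_surfaceCount surfaceCount_mod surfaceCount unit_pow cod cod_spec numHom_eq)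
open Pool.Agent.Y63.AWC (numDefectZero numWeights numRegularClasses card_mul_numRegularClasses
  numRegularClasses_congr numWeights_congr numDefectZero_congr IsIrreducibleCharacter)
open Pool.Agent.Y63.NV (Closed Reduced XP reduction' xp_closed pgroup_top)

/-- `K` has a normal `p`-subgroup `Q` such that `K/Q` is abelian and generated by two elements -/
def PA2 (p : ℕ) (K : Type) [Group K] : Prop :=
  ∃ Q : Subgroup K, Q.Normal ∧ IsPGroup p Q ∧ commutator K ≤ Q ∧
    ∃ a b : K, Subgroup.closure {a, b} ⊔ Q = ⊤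

lemma PA2.image {p : ℕ} {K L : Type} [Group K] [Group L] (h : PA2 p K) (f : K →* L)
    (hf : Function.Surjective f) : PA2 p L := by
  obtain ⟨Q, hQn, hQp, hQc, a, b, hab⟩ := h
  refine ⟨Q.map f, Subgroup.Normal.map hQn f hf, hQp.map f, ?_, f a, f b, ?_⟩
  · rw [← map_commutator_surj f hf]
    exact Subgroup.map_mono hQc
  · have h1 := congrArg (Subgroup.map f) hab
    rw [Subgroup.map_sup, MonoidHom.map_closure, Subgroup.map_top_of_surjective f hf,
      Set.image_pair] at h1
    exact h1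

lemma PA2.congr {p : ℕ} {K L : Type} [Group K] [Group L] (h : PA2 p K) (e : K ≃* L) : PA2 p L :=
  h.image e.toMonoidHom e.surjective

lemma pgroup_ext {p : ℕ} {K : Type} [Group K] (Q : Subgroup K) [Q.Normal] (hQ : IsPGroup p Q)
    (R : Subgroup (K ⧸ Q)) (hR : IsPGroup p R) : IsPGroup p (R.comap (QuotientGroup.mk' Q)) := by
  intro x
  obtain ⟨k, hk⟩ := hR ⟨(QuotientGroup.mk' Q) (x : K), x.2⟩
  have hk' : ((x : K) ^ p ^ k) ∈ Q := by
    rw [← QuotientGroup.eq_one_iff, ← QuotientGroup.mk'_apply, map_pow]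
    exact congrArg Subtype.val hk
  obtain ⟨l, hl⟩ := hQ ⟨_, hk'⟩
  refine ⟨k + l, ?_⟩
  apply Subtype.ext
  have h2 := congrArg Subtype.val hl
  rw [Subgroup.coe_pow, pow_add, pow_mul]
  exact h2

lemma PA2.of_quot {p : ℕ} {K : Type} [Group K] (Q : Subgroup K) [Q.Normal] (hQ : IsPGroup p Q)
    (h : PA2 p (K ⧸ Q)) : PA2 p K := by
  obtain ⟨R, hRn, hRp, hRc, a, b, hab⟩ := h
  obtain ⟨a, rfl⟩ := QuotientGroup.mk'_surjective Q a
  obtain ⟨b, rfl⟩ := QuotientGroup.mk'_surjective Q b
  refine ⟨R.comap (QuotientGroup.mk' Q), inferInstance, pgroup_ext Q hQ R hRp, ?_, a, b, ?_⟩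
  · rw [← Subgroup.map_le_iff_le_comap, map_commutator_surj _ (QuotientGroup.mk'_surjective Q)]
    exact hRc
  · have h1 : (Subgroup.closure {a, b} ⊔ R.comap (QuotientGroup.mk' Q)).map (QuotientGroup.mk' Q) =
        ⊤ := by
      rw [Subgroup.map_sup, MonoidHom.map_closure, Set.image_pair,
        Subgroup.map_comap_eq_self_of_surjective (QuotientGroup.mk'_surjective Q)]
      exact hab
    rw [quot_sup_iff] at h1
    have h2 : Q ≤ R.comap (QuotientGroup.mk' Q) := by
      intro x hx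
      rw [Subgroup.mem_comap, QuotientGroup.mk'_apply, (QuotientGroup.eq_one_iff x).2 hx]
      exact one_mem _
    rwa [sup_assoc, sup_eq_left.2 h2] at h1

lemma regGen_zero2 {p : ℕ} {K : Type} [Group K] (h : ¬ PA2 p K) : regGen p K = 0 := by
  unfold regGen
  rw [Nat.card_eq_zero]
  left
  constructor
  rintro ⟨q, ⟨_, h1⟩, h2⟩
  apply h
  refine ⟨⊥, inferInstance, IsPGroup.of_bot, ?_, q.1, q.2, ?_⟩
  · rw [commutator_eq_bot (comm_of_pair h1 h2)]
  · rw [sup_bot_eq, h2]

/-- the number of surjections onto groups which are not extensions of a `p`-group by an abelian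
group with two generators tends to zero, if the weight conjecture holds for the sections -/
theorem surj_zero2 {p : ℕ} [Fact p.Prime] (X : ∀ (H : Type) [Group H], Prop) (hX : Closed p X)
    (n : ℕ) (hsmall : ∀ (L : Type) [Group L] [Finite L], X L → Nat.card L < n →
      numRegularClasses p L = numWeights p L) {N g : ℕ} (hg : 2 ≤ g)
    (hd : p ^ N * (p - 1) ∣ g - 1) :
    ∀ (m : ℕ) (K : Type) [Group K] [Finite K], Nat.card K ≤ m → Nat.card K < n → X K →
      ¬ PA2 p K → (p : ℤ) ^ (N + 1) ∣ (numSurj g K : ℤ) := by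
  intro m
  induction m with
  | zero =>
    intro K _ _ hK
    have := Nat.card_pos (α := K)
    omega
  | succ m ih =>
    intro K _ _ hK hKn hXK hc
    have h1 := term_mod_of_all (p := p) (G := K) hg hd (fun L => hsmall L (hX.sub K hXK L)
      (lt_of_le_of_lt (Subgroup.card_le_card_group L) hKn))
    unfold term at h1
    rw [regGen_zero2 hc] at h1
    unfold normSum at h1
    have : Fintype {Q : Subgroup K // Q.Normal ∧ IsPGroup p Q} := Fintype.ofFinite _
    rw [finsum_eq_sum_of_fintype] at h1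
    have hb : (⊥ : Subgroup K).Normal ∧ IsPGroup p (⊥ : Subgroup K) :=
      ⟨inferInstance, IsPGroup.of_bot⟩
    rw [← Finset.add_sum_erase _ _ (Finset.mem_univ
      (⟨⊥, hb⟩ : {Q : Subgroup K // Q.Normal ∧ IsPGroup p Q}))] at h1
    have h2 : Nat.card (⊥ : Subgroup K) * numSurj g (K ⧸ (⊥ : Subgroup K)) = numSurj g K := by
      rw [Subgroup.card_bot, one_mul]
      exact numSurj_congr QuotientGroup.quotientBot g
    have h3 : (p : ℤ) ^ (N + 1) ∣ ((∑ Q ∈ Finset.univ.erase
        (⟨⊥, hb⟩ : {Q : Subgroup K // Q.Normal ∧ IsPGroup p Q}),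
        Nat.card Q.1 * (haveI := Q.2.1; numSurj g (K ⧸ Q.1)) : ℕ) : ℤ) := by
      push_cast
      refine Finset.dvd_sum fun Q hQ => Dvd.dvd.mul_left ?_ _
      have hQn := Q.2.1
      have hQ1 : Q.1 ≠ ⊥ := fun h => Finset.ne_of_mem_erase hQ (Subtype.ext h)
      have hlt := card_quot_lt Q.1 hQ1
      refine ih (K ⧸ Q.1) (by omega) (by omega) (hX.quot K hXK Q.1 Q.2.2) ?_
      intro h
      exact hc (PA2.of_quot Q.1 Q.2.2 h)
    have h4 : (numSurj g K : ℤ) = (((Nat.card (⊥ : Subgroup K) *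
        numSurj g (K ⧸ (⊥ : Subgroup K)) + ∑ Q ∈ Finset.univ.erase
        (⟨⊥, hb⟩ : {Q : Subgroup K // Q.Normal ∧ IsPGroup p Q}),
        Nat.card Q.1 * (haveI := Q.2.1; numSurj g (K ⧸ Q.1)) : ℕ) : ℤ) - ((0 : ℕ) : ℤ)) -
        ((∑ Q ∈ Finset.univ.erase
        (⟨⊥, hb⟩ : {Q : Subgroup K // Q.Normal ∧ IsPGroup p Q}),
        Nat.card Q.1 * (haveI := Q.2.1; numSurj g (K ⧸ Q.1)) : ℕ) : ℤ) := by
      rw [h2]
      push_cast
      ring
    rw [h4]
    exact dvd_sub h1 h3

/-- the continuity for groups of order prime to `p` -/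
theorem cont_prime {p : ℕ} [hp : Fact p.Prime] {H : Type} [Group H] [Finite H]
    (h : ¬ p ∣ Nat.card H) {N g : ℕ} (hg : 2 ≤ g) (hd : p ^ N * (p - 1) ∣ g - 1) :
    (p : ℤ) ^ (N + 1) ∣ (numSurj g H : ℤ) - numSurj 1 H := by
  have : Fintype (Subgroup H) := Fintype.ofFinite _
  have key := mobius_dvd ((p : ℤ) ^ (N + 1)) (fun K : Subgroup H => (numSurj g K : ℤ))
    (fun K : Subgroup H => (numSurj 1 K : ℤ)) ?_ ⊤
  · have h1 : ∀ k, numSurj k (⊤ : Subgroup H) = numSurj k H :=
      fun k => numSurj_congr Subgroup.topEquiv k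
    rwa [h1, h1] at key
  · intro L
    have : Fintype (Subgroup L) := Fintype.ofFinite _
    have : Fintype L := Fintype.ofFinite _
    have h2 : ∀ k, (∑ K : Subgroup H, if K ≤ L then (numSurj k K : ℤ) else 0) =
        ((numHom k L : ℕ) : ℤ) := by
      intro k
      rw [← sum_sub_subgroup L (fun K => (numSurj k K : ℤ)), numHom_sum', Nat.cast_sum]
      refine Finset.sum_congr rfl fun K _ => ?_
      obtain ⟨e⟩ := map_equiv K
      rw [numSurj_congr e]
    rw [h2, h2]
    obtain ⟨n, rfl⟩ : ∃ n, g = n + 1 := ⟨g - 1, by omega⟩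
    rw [Nat.add_sub_cancel] at hd
    rw [numHom_eq, numHom_eq (g := 0)]
    push_cast
    rw [← mul_sub, ← Finset.sum_sub_distrib]
    refine Dvd.dvd.mul_left (Finset.dvd_sum fun chi hchi => ?_) _
    have hc : ¬ p ∣ cod chi := by
      intro hc
      apply h
      refine hc.trans ((Dvd.intro_left _ (cod_spec (Pool.Agent.Helper884.IC.mem_Irr.1 hchi))).trans ?_)
      exact Subgroup.card_subgroup_dvd_card L
    have h3 := unit_pow (p := p) (N := N) (n := 2 * n) hc (Dvd.dvd.mul_left hd 2)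
    have h4 : ((p ^ (N + 1) : ℕ) : ℤ) ∣ ((cod chi ^ (2 * n) : ℕ) : ℤ) - ((1 : ℕ) : ℤ) :=
      (Nat.modEq_iff_dvd.1 h3.symm)
    push_cast at h4
    simpa using h4

end Pool.Agent.Helper15.AW
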