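import Pool.Agent.Helper15.AWC.Van
import Mathlib.GroupTheory.Transfer

/-!
# The transfer of a determinant
-/

open scoped Classical BigOperators
open Representation Pool.Agent.Helper884.IC Pool.Agent.Y63.AWC

set_option linter.unusedSectionVars false

noncomputable section

namespace Pool.Agent.Helper15.AW

open Pool.Agent.Y63.KR (surfaceWord coords dg cod dg_spec cod_spec cod_pos DZ_iff)

section

variable {G : Type} [Group G] [Fintype G] (M : Subgroup G) [M.Normal] (p : ℕ) [hp : Fact p.Prime]

lemma exists_sylow : ∃ S : Subgroup G, IsPGroup p S ∧ ¬ p ∣ S.index ∧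
    ¬ p ∣ (S.subgroupOf M).index := by
  obtain ⟨P⟩ : Nonempty (Sylow p M) := inferInstance
  have h1 : IsPGroup p ((P : Subgroup M).map M.subtype) := P.isPGroup'.map _
  obtain ⟨S, hS⟩ := h1.exists_le_sylow
  refine ⟨S, S.isPGroup', ?_, ?_⟩
  · exact Sylow.not_dvd_index S
  · intro h
    have h2 : (P : Subgroup M) ≤ (S : Subgroup G).subgroupOf M := by
      intro x hx
      exact hS ⟨x, hx, rfl⟩
    exact Sylow.not_dvd_index P (h.trans (Subgroup.index_dvd_of_le h2))

end

section

variable {G : Type} [Group G] [Fintype G] {M : Subgroup G} [M.Normal]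
  {V : Type} [AddCommGroup V] [Module ℂ V] [FiniteDimensional ℂ V]

/-- the scalars -/
def scal (rho : Representation ℂ M V) : ℂˣ →* Khat rho where
  toFun z := ⟨(1, Units.map (algebraMap ℂ (Module.End ℂ V)).toMonoidHom z), by
    intro m
    change (algebraMap ℂ (Module.End ℂ V)) (z : ℂ) * rho m =
      rho (MulAut.conjNormal (1 : G) m) * (algebraMap ℂ (Module.End ℂ V)) (z : ℂ)
    rw [map_one, MulAut.one_apply, Algebra.commutes]⟩
  map_one' := by
    ext
    · rfl
    · simp
  map_mul' z w := by
    apply Subtype.ext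
    refine Prod.ext ?_ ?_
    · change (1 : G) = 1 * 1
      rw [mul_one]
    · exact map_mul _ _ _

lemma scal_fst (rho : Representation ℂ M V) (z : ℂˣ) : fstH rho (scal rho z) = 1 := rfl

lemma scal_snd (rho : Representation ℂ M V) (z : ℂˣ) :
    ((sndH rho (scal rho z) : (Module.End ℂ V)ˣ) : Module.End ℂ V) = (z : ℂ) • 1 := by
  change (algebraMap ℂ (Module.End ℂ V)) (z : ℂ) = _
  rw [Algebra.algebraMap_eq_smul_one]

lemma scal_central (rho : Representation ℂ M V) (z : ℂˣ) (x : Khat rho) :
    scal rho z * x = x * scal rho z := by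
  apply Subtype.ext
  refine Prod.ext ?_ (Units.ext ?_)
  · change (1 : G) * x.1.1 = x.1.1 * 1
    rw [mul_one, one_mul]
  · change (algebraMap ℂ (Module.End ℂ V)) (z : ℂ) * (x.1.2 : Module.End ℂ V) =
      (x.1.2 : Module.End ℂ V) * (algebraMap ℂ (Module.End ℂ V)) (z : ℂ)
    rw [Algebra.commutes]

lemma jhat_fst (rho : Representation ℂ M V) (m : M) : fstH rho (jhat rho m) = m := rfl

lemma jhat_snd (rho : Representation ℂ M V) (m : M) :
    ((sndH rho (jhat rho m) : (Module.End ℂ V)ˣ) : Module.End ℂ V) = rho m := rfl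

lemma khat_ext (rho : Representation ℂ M V) {x y : Khat rho} (h1 : fstH rho x = fstH rho y)
    (h2 : ((sndH rho x : (Module.End ℂ V)ˣ) : Module.End ℂ V) = sndH rho y) : x = y :=
  Subtype.ext (Prod.ext h1 (Units.ext h2))

/-- an element over an element of `M` -/
lemma khat_of_mem (rho : Representation ℂ M V) (hr : rho.IsIrreducible) (x : Khat rho) (m : M)
    (h : fstH rho x = m) : ∃ z : ℂˣ, x = jhat rho m * scal rho z := by
  have hnt := irr_nontrivial rho hr
  obtain ⟨c, hc⟩ := scalar_of_comm rho hr (rho m⁻¹ * (sndH rho x : (Module.End ℂ V)ˣ)) (by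
    intro n
    have h1 : ((sndH rho x : (Module.End ℂ V)ˣ) : Module.End ℂ V) * rho n =
        rho (MulAut.conjNormal (m : G) n) * (sndH rho x : (Module.End ℂ V)ˣ) := by
      have h2 := x.2 n
      have h3 : x.1.1 = (m : G) := h
      rw [h3] at h2
      exact h2
    rw [mul_assoc, h1, ← mul_assoc, ← mul_assoc, ← map_mul, ← map_mul]
    congr 2
    ext
    simp [mul_assoc])
  have hc' : ((sndH rho x : (Module.End ℂ V)ˣ) : Module.End ℂ V) = c • rho m := by
    have h1 : rho m * (rho m⁻¹ * ((sndH rho x : (Module.End ℂ V)ˣ) : Module.End ℂ V)) =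
      rho m * (c • 1) := by rw [hc]
    rw [← mul_assoc, ← map_mul, mul_inv_cancel, map_one, one_mul, mul_smul_comm, mul_one] at h1
    exact h1
  have hc0 : c ≠ 0 := by
    rintro rfl
    rw [zero_smul] at hc'
    have : (1 : Module.End ℂ V) = 0 := by
      rw [← Units.mul_inv (sndH rho x), hc', zero_mul]
    exact one_ne_zero this
  refine ⟨Units.mk0 c hc0, khat_ext rho ?_ ?_⟩
  · rw [map_mul, scal_fst, mul_one, jhat_fst, h]
  · rw [map_mul, Units.val_mul, scal_snd, jhat_snd, hc', mul_smul_comm, mul_one, Units.val_mk0]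

/-- the restriction -/
def resRep (rho : Representation ℂ M V) (S : Subgroup G) : Representation ℂ (S.subgroupOf M) V :=
  rho.comp (S.subgroupOf M).subtype

/-- the invariants of the intersection of `M` with a `p`-subgroup -/
abbrev invS (rho : Representation ℂ M V) (S : Subgroup G) : Submodule ℂ V :=
  Representation.invariants (resRep rho S)

lemma finrank_invS {p : ℕ} [hp : Fact p.Prime] (rho : Representation ℂ M V)
    (hr : rho.IsIrreducible) (hz : ¬ p ∣ cod rho.character) (S : Subgroup G) (hS : IsPGroup p S)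
    (hi : ¬ p ∣ (S.subgroupOf M).index) : ¬ p ∣ Module.finrank ℂ (invS rho S) := by
  have hirr : IsIrrChar rho.character := ⟨V, _, _, ‹_›, rho, hr, rfl⟩
  have : Invertible (Nat.card (S.subgroupOf M) : ℂ) := invertibleOfNonzero cardG_ne
  have h1 := card_inv_mul_sum_char_eq_finrank (resRep rho S)
  have hSM : IsPGroup p (S.subgroupOf M) := hS.comap_of_injective M.subtype M.subtype_injective
  have h2 : ∑ x : S.subgroupOf M, (resRep rho S).character x =
      rho.character 1 := by
    rw [Finset.sum_eq_single (1 : S.subgroupOf M)]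
    · rfl
    · intro x _ hx
      obtain ⟨k, hk⟩ := hSM x
      refine vanish (p := p) hirr hz (u := (x : M)) ⟨k, ?_⟩ ?_
      · exact congrArg Subtype.val hk
      · exact fun h => hx (Subtype.ext h)
    · intro h
      exact absurd (Finset.mem_univ _) h
  rw [h2, inv_mul_eq_iff_eq_mul₀ cardG_ne, char_one] at h1
  have h3 : Module.finrank ℂ V = Nat.card (S.subgroupOf M) * Module.finrank ℂ (invS rho S) := by
    exact_mod_cast h1
  have h4 : dg rho.character = Module.finrank ℂ V := by
    have := (dg_spec hirr).1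
    rw [char_one] at this
    exact_mod_cast this.symm
  have h5 := cod_spec hirr
  rw [h4, h3, ← Subgroup.card_mul_index (S.subgroupOf M), mul_assoc] at h5
  have h6 := Nat.eq_of_mul_eq_mul_left Nat.card_pos h5
  intro h
  apply hi
  rw [← h6]
  exact Dvd.dvd.mul_right h _

/-- the action on the invariants -/
def resHom (rho : Representation ℂ M V) (S : Subgroup G) :
    S.comap (fstH rho) →* Module.End ℂ (invS rho S) where
  toFun x := ((sndH rho x : (Module.End ℂ V)ˣ) : Module.End ℂ V).restrict (by
    intro v hv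
    rw [mem_invariants] at hv ⊢
    intro m
    have h1 := x.1.2 (MulAut.conjNormal (fstH rho x.1)⁻¹ (m : M))
    have h2 : MulAut.conjNormal x.1.1.1 (MulAut.conjNormal (fstH rho x.1)⁻¹ (m : M)) = (m : M) := by
      change MulAut.conjNormal (fstH rho x.1) (MulAut.conjNormal (fstH rho x.1)⁻¹ (m : M)) = _
      rw [← MulAut.mul_apply, ← map_mul, mul_inv_cancel, map_one, MulAut.one_apply]
    rw [h2] at h1
    have h3 := congrArg (fun T : Module.End ℂ V => T v) h1
    change rho (m : M) (x.1.1.2.val v) = x.1.1.2.val v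
    refine Eq.trans h3.symm ?_
    change x.1.1.2.val (rho _ v) = _
    congr 1
    refine hv ⟨MulAut.conjNormal (fstH rho x.1)⁻¹ (m : M), ?_⟩
    rw [Subgroup.mem_subgroupOf, MulAut.conjNormal_apply, inv_inv]
    exact S.mul_mem (S.mul_mem (S.inv_mem x.2) m.2) x.2)
  map_one' := by
    ext v
    simp
  map_mul' x y := by
    ext v
    simp

/-- **The transfer.** -/
theorem exists_transfer {p : ℕ} [hp : Fact p.Prime] (rho : Representation ℂ M V)
    (hr : rho.IsIrreducible) (hz : ¬ p ∣ cod rho.character)
    (hsurj : Function.Surjective (fstH rho)) : ∃ (t : Khat rho →* ℂˣ) (m : ℕ), ¬ p ∣ m ∧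
      (∀ x : M, t (jhat rho x) = 1) ∧ ∀ z : ℂˣ, t (scal rho z) = z ^ m := by
  obtain ⟨S, hS, hS1, hS2⟩ := exists_sylow M p
  have hfin : (S.comap (fstH rho)).index = S.index := Subgroup.index_comap_of_surjective S hsurj
  have : (S.comap (fstH rho)).FiniteIndex := ⟨by rw [hfin]; exact Subgroup.FiniteIndex.index_ne_zero⟩
  let s : S.comap (fstH rho) →* ℂˣ := MonoidHom.toHomUnits
    ((LinearMap.det : Module.End ℂ (invS rho S) →* ℂ).comp (resHom rho S))
  refine ⟨MonoidHom.transfer s, Module.finrank ℂ (invS rho S) * S.index, ?_, ?_, ?_⟩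
  · intro h
    rcases (Nat.Prime.dvd_mul hp.out).1 h with h1 | h1
    · exact finrank_invS rho hr hz S hS hS2 h1
    · exact hS1 h1
  · intro x
    have : Fintype (Khat rho ⧸ S.comap (fstH rho)) := Subgroup.fintypeQuotientOfFiniteIndex
    rw [MonoidHom.transfer_eq_prod_quotient_orbitRel_zpowers_quot]
    refine Finset.prod_eq_one fun q _ => ?_
    obtain ⟨y, hy⟩ : (q.out.out⁻¹ * jhat rho x ^ Function.minimalPeriod (jhat rho x • ·) q.out *
        q.out.out) ∈ (jhat rho).range := by
      have h1 := (jhat_normal rho).conj_mem (jhat rho x ^ Function.minimalPeriod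
        (jhat rho x • ·) q.out) ⟨x ^ Function.minimalPeriod (jhat rho x • ·) q.out, map_pow _ _ _⟩
        q.out.out⁻¹
      rwa [inv_inv] at h1
    have key : ∀ (w : S.comap (fstH rho)), (w : Khat rho) = jhat rho y → s w = 1 := by
      intro w hw
      apply Units.ext
      change LinearMap.det (resHom rho S w) = 1
      have h2 : resHom rho S w = 1 := by
        ext v
        change ((sndH rho w : (Module.End ℂ V)ˣ) : Module.End ℂ V) v = v
        rw [hw, jhat_snd]
        have h3 := (mem_invariants _ _).1 v.2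
        refine h3 ⟨y, ?_⟩
        rw [Subgroup.mem_subgroupOf]
        have h4 := w.2
        rw [Subgroup.mem_comap, hw, jhat_fst] at h4
        exact h4
      rw [h2, map_one]
    exact key _ hy.symm
  · intro z
    rw [MonoidHom.transfer_eq_pow]
    · apply Units.ext
      change LinearMap.det (resHom rho S _) = _
      have h1 : ∀ w : S.comap (fstH rho), (w : Khat rho) =
          scal rho z ^ (S.comap (fstH rho)).index → resHom rho S w =
          ((z : ℂ) ^ S.index) • (1 : Module.End ℂ (invS rho S)) := by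
        intro w hw
        ext v
        change ((sndH rho (w : Khat rho) : (Module.End ℂ V)ˣ) : Module.End ℂ V) v = _
        rw [hw, map_pow, Units.val_pow_eq_pow_val, scal_snd, hfin, smul_pow, one_pow]
        rfl
      rw [h1 _ rfl, LinearMap.det_smul, map_one, mul_one, Units.val_pow_eq_pow_val, ← pow_mul,
        mul_comm]
    · intro k x _
      rw [← map_pow, mul_assoc, scal_central, inv_mul_cancel_left]

end

end Pool.Agent.Helper15.AW
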