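import Pool.Agent.Helper15.AWC.Trans
import Pool.Agent.Helper15.AWC.Cent2

/-!
# The central extension of a character of defect zero
-/

open scoped Classical BigOperators
open Representation Pool.Agent.Helper884.IC Pool.Agent.Y63.AWC

set_option linter.unusedSectionVars false

noncomputable section

namespace Pool.Agent.Helper15.AW

open Pool.Agent.Y63.KR (surfaceWord coords dg cod dg_spec cod_spec cod_pos DZ_iff)

lemma word_central {K : Type} [Group K] {g : ℕ} (q m : Fin g → K × K)
    (hm : ∀ i, (m i).1 ∈ Subgroup.center K ∧ (m i).2 ∈ Subgroup.center K) :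
    surfaceWord (mulT q m) = surfaceWord q := by
  unfold surfaceWord
  congr 2
  funext i
  simp only [mulT]
  have h1 := Subgroup.mem_center_iff.1 (hm i).1
  have h2 := Subgroup.mem_center_iff.1 (hm i).2
  rw [mul_inv_rev, mul_inv_rev]
  have e1 : (q i).1 * (m i).1 * ((q i).2 * (m i).2) * ((m i).1⁻¹ * (q i).1⁻¹) *
      ((m i).2⁻¹ * (q i).2⁻¹) = (q i).1 * ((m i).1 * ((q i).2 * (m i).2)) * (m i).1⁻¹ *
      ((q i).1⁻¹ * (m i).2⁻¹) * (q i).2⁻¹ := by group
  rw [e1, ← h1]
  have e2 : (q i).1 * ((q i).2 * (m i).2 * (m i).1) * (m i).1⁻¹ *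
      ((q i).1⁻¹ * (m i).2⁻¹) * (q i).2⁻¹ =
      (q i).1 * (q i).2 * ((m i).2 * (q i).1⁻¹) * (m i).2⁻¹ * (q i).2⁻¹ := by group
  rw [e2, ← h2]
  group

section

variable {G : Type} [Group G] [Fintype G] {M : Subgroup G} [M.Normal]
  {V : Type} [AddCommGroup V] [Module ℂ V] [FiniteDimensional ℂ V] (rho : Representation ℂ M V)

/-- the quotient of `Khat` by `M` -/
abbrev Ehat : Type := Khat rho ⧸ (jhat rho).range

/-- the projection -/
def pihat : Ehat rho →* G ⧸ M := QuotientGroup.lift (jhat rho).range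
  ((QuotientGroup.mk' M).comp (fstH rho)) (by
    rintro _ ⟨m, rfl⟩
    exact (QuotientGroup.eq_one_iff _).2 m.2)

lemma pihat_mk (x : Khat rho) : pihat rho (QuotientGroup.mk' _ x) = (QuotientGroup.mk' M)
    (fstH rho x) := rfl

/-- the scalars in the quotient -/
def iota : ℂˣ →* Ehat rho := (QuotientGroup.mk' _).comp (scal rho)

lemma iota_central (z : ℂˣ) (x : Ehat rho) : iota rho z * x = x * iota rho z := by
  obtain ⟨x, rfl⟩ := QuotientGroup.mk'_surjective _ x
  change (QuotientGroup.mk' _) (scal rho z) * _ = _ * (QuotientGroup.mk' _) (scal rho z)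
  rw [← map_mul, ← map_mul, scal_central]

lemma iota_inj (hr : rho.IsIrreducible) : Function.Injective (iota rho) := by
  have hnt := irr_nontrivial rho hr
  rw [injective_iff_map_eq_one]
  intro z hz
  have h1 : scal rho z ∈ (jhat rho).range := (QuotientGroup.eq_one_iff _).1 hz
  obtain ⟨m, hm⟩ := h1
  have h2 := congrArg (fstH rho) hm
  rw [scal_fst, jhat_fst] at h2
  have h3 : m = 1 := Subtype.ext h2
  rw [h3, map_one] at hm
  have h4 := congrArg (fun x => ((sndH rho x : (Module.End ℂ V)ˣ) : Module.End ℂ V)) hm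
  simp only [map_one, Units.val_one, scal_snd] at h4
  obtain ⟨v, hv⟩ := exists_ne (0 : V)
  have h5 := congrArg (fun S : Module.End ℂ V => S v) h4
  simp only [Module.End.one_apply, LinearMap.smul_apply] at h5
  apply Units.ext
  rw [Units.val_one]
  have h6 : ((z : ℂ) - 1) • v = 0 := by rw [sub_smul, one_smul, ← h5, sub_self]
  rcases smul_eq_zero.1 h6 with h7 | h7
  · exact sub_eq_zero.1 h7
  · exact absurd h7 hv

lemma pihat_ker (hr : rho.IsIrreducible) (x : Ehat rho) (hx : pihat rho x = 1) :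
    ∃ z : ℂˣ, iota rho z = x := by
  obtain ⟨x, rfl⟩ := QuotientGroup.mk'_surjective _ x
  rw [pihat_mk] at hx
  have h1 : fstH rho x ∈ M := (QuotientGroup.eq_one_iff _).1 hx
  obtain ⟨z, hz⟩ := khat_of_mem rho hr x ⟨_, h1⟩ rfl
  refine ⟨z, ?_⟩
  rw [hz, map_mul]
  have h2 : (QuotientGroup.mk' (jhat rho).range) (jhat rho ⟨_, h1⟩) = 1 :=
    (QuotientGroup.eq_one_iff _).2 ⟨_, rfl⟩
  rw [h2, one_mul]
  rfl

lemma pihat_iota (z : ℂˣ) : pihat rho (iota rho z) = 1 := by
  change (QuotientGroup.mk' M) (fstH rho (scal rho z)) = 1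
  rw [scal_fst, map_one]

/-- an element over a central element of `G` is central -/
lemma central_of_mem (hr : rho.IsIrreducible) (x : Ehat rho)
    (hx : pihat rho x ∈ (Subgroup.center G).map (QuotientGroup.mk' M)) (y : Ehat rho) :
    y * x = x * y := by
  obtain ⟨x, rfl⟩ := QuotientGroup.mk'_surjective _ x
  obtain ⟨y, rfl⟩ := QuotientGroup.mk'_surjective _ y
  obtain ⟨z, hz, hzx⟩ := hx
  rw [pihat_mk] at hzx
  have h1 : z⁻¹ * fstH rho x ∈ M := by
    rw [← QuotientGroup.eq_one_iff, ← QuotientGroup.mk'_apply, map_mul, map_inv, hzx,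
      inv_mul_cancel]
  set n : M := ⟨_, h1⟩ with hn
  -- the element over `z`
  set x' : Khat rho := x * (jhat rho n)⁻¹ with hx'
  have h2 : fstH rho x' = z := by
    rw [hx', map_mul, map_inv, jhat_fst, hn]
    change fstH rho x * (z⁻¹ * fstH rho x)⁻¹ = z
    group
  have h3 : (QuotientGroup.mk' (jhat rho).range) x' = (QuotientGroup.mk' _) x := by
    rw [hx', map_mul, map_inv]
    have h4 : (QuotientGroup.mk' (jhat rho).range) (jhat rho n) = 1 :=
      (QuotientGroup.eq_one_iff _).2 ⟨_, rfl⟩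
    rw [h4, inv_one, mul_one]
  obtain ⟨c, hc⟩ := scalar_of_comm rho hr ((sndH rho x' : (Module.End ℂ V)ˣ) : Module.End ℂ V) (by
    intro m
    have h5 := x'.2 m
    have h6 : x'.1.1 = z := h2
    rw [h6] at h5
    have h7 : MulAut.conjNormal z m = m := by
      apply Subtype.ext
      rw [MulAut.conjNormal_apply, ← Subgroup.mem_center_iff.1 hz, mul_inv_cancel_right]
    rw [h7] at h5
    exact h5)
  clear_value x'
  rw [← h3, ← map_mul, ← map_mul]
  congr 1
  refine khat_ext rho ?_ ?_
  · rw [map_mul, map_mul, h2, Subgroup.mem_center_iff.1 hz]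
  · rw [map_mul, map_mul, Units.val_mul, Units.val_mul, hc, mul_smul_comm, mul_one,
      smul_mul_assoc, one_mul]

/-- the product of commutators in the quotient -/
lemma word_hat (hr : rho.IsIrreducible) {g : ℕ} (u : Fin g → Khat rho × Khat rho)
    (e : Fin g → Ehat rho × Ehat rho)
    (h : mapT (pihat rho) e = mapT (QuotientGroup.mk' M) (mapT (fstH rho) u)) :
    surfaceWord e = (QuotientGroup.mk' (jhat rho).range) (surfaceWord u) := by
  have h1 : ∀ i, ∃ z w : ℂˣ, (e i).1 = (QuotientGroup.mk' (jhat rho).range) (u i).1 * iota rho z ∧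
      (e i).2 = (QuotientGroup.mk' (jhat rho).range) (u i).2 * iota rho w := by
    intro i
    have h2 := congrFun h i
    have h3 : pihat rho (e i).1 = pihat rho ((QuotientGroup.mk' (jhat rho).range) (u i).1) :=
      congrArg Prod.fst h2
    have h4 : pihat rho (e i).2 = pihat rho ((QuotientGroup.mk' (jhat rho).range) (u i).2) :=
      congrArg Prod.snd h2
    obtain ⟨z, hz⟩ := pihat_ker rho hr (((QuotientGroup.mk' (jhat rho).range) (u i).1)⁻¹ * (e i).1)
      (by rw [map_mul, map_inv, h3, inv_mul_cancel])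
    obtain ⟨w, hw⟩ := pihat_ker rho hr (((QuotientGroup.mk' (jhat rho).range) (u i).2)⁻¹ * (e i).2)
      (by rw [map_mul, map_inv, h4, inv_mul_cancel])
    exact ⟨z, w, by rw [hz, mul_inv_cancel_left], by rw [hw, mul_inv_cancel_left]⟩
  choose z w hzw using h1
  have h2 : e = mulT (mapT (QuotientGroup.mk' (jhat rho).range) u)
      (fun i => (iota rho (z i), iota rho (w i))) := by
    funext i
    exact Prod.ext (hzw i).1 (hzw i).2
  rw [h2, word_central, word_mapT]
  intro i
  constructor
  · rw [Subgroup.mem_center_iff]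
    intro x
    exact (iota_central rho _ x).symm
  · rw [Subgroup.mem_center_iff]
    intro x
    exact (iota_central rho _ x).symm

/-- the sum over the lifts -/
theorem sum_hat (hr : rho.IsIrreducible) (hsurj : Function.Surjective (fstH rho)) {g : ℕ}
    (q : Fin g → G × G) (hw : surfaceWord q ∈ M) (e : Fin g → Ehat rho × Ehat rho)
    (h : mapT (pihat rho) e = mapT (QuotientGroup.mk' M) q) :
    ∃ c : ℂˣ, surfaceWord e = iota rho c ∧
      ∑ m : Fin g → M × M, rho.character ⟨_, word_lift_mem hw m⟩ =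
        (c : ℂ)⁻¹ * rho.character 1 * (((Nat.card M : ℂ) / rho.character 1) ^ 2) ^ g := by
  choose P hP using hsurj
  have hq' : mapT (fstH rho) (mapT P q) = q := by
    funext i
    simp only [mapT, hP]
  have hw' : surfaceWord (mapT (fstH rho) (mapT P q)) ∈ M := by rw [hq']; exact hw
  obtain ⟨c, hc0, hc1, hc2⟩ := sum_lifts rho hr (mapT P q) hw'
  refine ⟨Units.mk0 c hc0, ?_, ?_⟩
  · rw [word_hat rho hr (mapT P q) e (by rw [hq', h])]
    have h1 : surfaceWord (mapT P q) = jhat rho ⟨_, hw'⟩ * scal rho (Units.mk0 c hc0) := by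
      refine khat_ext rho ?_ ?_
      · rw [← word_mapT, map_mul, scal_fst, mul_one, jhat_fst]
      · rw [← word_mapT, map_mul, Units.val_mul, scal_snd, jhat_snd, hc1, mul_smul_comm, mul_one,
          Units.val_mk0]
    rw [h1, map_mul]
    have h2 : (QuotientGroup.mk' (jhat rho).range) (jhat rho ⟨_, hw'⟩) = 1 :=
      (QuotientGroup.eq_one_iff _).2 ⟨_, rfl⟩
    rw [h2, one_mul]
    rfl
  · have htr : ∑ m : Fin g → M × M, rho.character ⟨_, word_lift_mem hw m⟩ =
        LinearMap.trace ℂ V (∑ m : Fin g → M × M, rho0 rho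
          (surfaceWord (mulT q (mapT M.subtype m)))) := by
      rw [map_sum]
      exact Finset.sum_congr rfl fun m _ => (trace_rho0 rho _).symm
    rw [htr]
    have h1 := congrArg (LinearMap.trace ℂ V) hc2
    rw [hq'] at h1
    rw [h1, map_smul, LinearMap.trace_one, smul_eq_mul, ← rho.char_one, Units.val_mk0]
    ring

end

end Pool.Agent.Helper15.AW
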