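import Pool.Agent.Helper15.AWC.Trans2

/-!
# The central extension of a character of defect zero, II
-/

open scoped Classical BigOperators
open Representation Pool.Agent.Helper884.IC Pool.Agent.Y63.AWC

set_option linter.unusedSectionVars false

noncomputable section

namespace Pool.Agent.Helper15.AW

open Pool.Agent.Y63.KR (surfaceWord coords dg cod dg_spec cod_spec cod_pos DZ_iff)

section

variable {G : Type} [Group G] [Fintype G] {M : Subgroup G} [M.Normal]
  {V : Type} [AddCommGroup V] [Module ℂ V] [FiniteDimensional ℂ V]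

lemma fstH_surj (rho : Representation ℂ M V) (hr : rho.IsIrreducible)
    (hinv : Invariant rho.character) : Function.Surjective (fstH rho) := by
  have hstab := invariant_iff.1 hinv
  intro x
  have h1 : ∃ P : (Module.End ℂ V)ˣ, ∀ m : M, (P : Module.End ℂ V) * rho m = rhoC rho x m * P := by
    refine exists_equiv rho (rhoC rho x) hr ?_
    funext m
    have hx : x ∈ stab rho.character := by rw [hstab]; trivial
    exact (hx m).symm
  obtain ⟨P, hP⟩ := h1
  exact ⟨⟨(x, P), hP⟩, rfl⟩

theorem exists_ext {p : ℕ} [hp : Fact p.Prime] (rho : Representation ℂ M V)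
    (hr : rho.IsIrreducible) (hsurj : Function.Surjective (fstH rho)) (t : Khat rho →* ℂˣ) (m : ℕ)
    (hm : ¬ p ∣ m) (ht1 : ∀ x : M, t (jhat rho x) = 1) (ht2 : ∀ z : ℂˣ, t (scal rho z) = z ^ m) :
    ∃ (E : Type) (_ : Group E) (_ : Fintype E) (pi : E →* G ⧸ M) (kap : pi.ker →* ℂˣ),
      Function.Surjective pi ∧ pi.ker ≤ Subgroup.center E ∧ ¬ p ∣ Nat.card pi.ker ∧
      Nat.card pi.ker ≤ m ∧ Function.Injective kap ∧
      ((Subgroup.center G).map (QuotientGroup.mk' M)).comap pi ≤ Subgroup.center E ∧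
      ∀ (g : ℕ) (q : Fin g → G × G) (hw : surfaceWord q ∈ M) (e : Fin g → E × E),
        mapT pi e = mapT (QuotientGroup.mk' M) q →
        ∑ m : Fin g → M × M, rho.character ⟨_, word_lift_mem hw m⟩ =
          ext0 pi.ker kap (surfaceWord e) * rho.character 1 *
            (((Nat.card M : ℂ) / rho.character 1) ^ 2) ^ g := by
  have hm0 : 0 < m := Nat.pos_of_ne_zero (by rintro rfl; exact hm (dvd_zero _))
  let tb : Ehat rho →* ℂˣ := QuotientGroup.lift (jhat rho).range t (by
    rintro _ ⟨x, rfl⟩
    exact ht1 x)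
  have htb : ∀ z, tb (iota rho z) = z ^ m := ht2
  let pi : tb.ker →* G ⧸ M := (pihat rho).comp tb.ker.subtype
  have hker : ∀ x : pi.ker, ∃ z : ℂˣ, iota rho z = ((x : tb.ker) : Ehat rho) := by
    intro x
    exact pihat_ker rho hr _ x.2
  -- the projection is surjective
  have hpi : Function.Surjective pi := by
    intro y
    obtain ⟨y, rfl⟩ := QuotientGroup.mk'_surjective M y
    obtain ⟨x, hx⟩ := hsurj y
    obtain ⟨z, hz⟩ := IsAlgClosed.exists_pow_nat_eq (((tb ((QuotientGroup.mk'
      (jhat rho).range) x))⁻¹ : ℂˣ) : ℂ) hm0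
    have hz0 : z ≠ 0 := by
      rintro rfl
      rw [zero_pow hm0.ne'] at hz
      exact (Units.ne_zero _) hz.symm
    refine ⟨⟨(QuotientGroup.mk' (jhat rho).range) x * iota rho (Units.mk0 z hz0), ?_⟩, ?_⟩
    · rw [MonoidHom.mem_ker, map_mul, htb]
      apply Units.ext
      rw [Units.val_mul, Units.val_pow_eq_pow_val, Units.val_mk0, hz, Units.val_one,
        Units.mul_inv]
    · change pihat rho ((QuotientGroup.mk' (jhat rho).range) x * iota rho (Units.mk0 z hz0)) = _
      rw [map_mul, pihat_iota, mul_one, pihat_mk, hx]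
  -- the character of the kernel
  let e : ℂˣ ≃* (iota rho).range := MonoidHom.ofInjective (iota_inj rho hr)
  let j : pi.ker →* (iota rho).range :=
    (tb.ker.subtype.comp pi.ker.subtype).codRestrict (iota rho).range hker
  let kap0 : pi.ker →* ℂˣ := e.symm.toMonoidHom.comp j
  have hk0 : ∀ x : pi.ker, iota rho (kap0 x) = ((x : tb.ker) : Ehat rho) := by
    intro x
    have h1 : e (kap0 x) = j x := e.apply_symm_apply _
    exact congrArg Subtype.val h1
  have hinj0 : Function.Injective kap0 := by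
    intro x y h
    apply Subtype.ext
    apply Subtype.ext
    rw [← hk0, ← hk0, h]
  have hpow : ∀ x : pi.ker, kap0 x ^ m = 1 := by
    intro x
    rw [← htb, hk0]
    exact (x : tb.ker).2
  have hfin1 : Finite pi.ker := by
    have h1 : ∀ x : pi.ker, kap0 x ∈ rootsOfUnity m ℂ := fun x => hpow x
    have : NeZero m := ⟨hm0.ne'⟩
    exact Finite.of_injective (fun x : pi.ker => (⟨kap0 x, h1 x⟩ : rootsOfUnity m ℂ))
      (fun x y h => hinj0 (congrArg Subtype.val h))
  have hfin2 : Finite (tb.ker ⧸ pi.ker) :=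
    Finite.of_equiv _ (QuotientGroup.quotientKerEquivOfSurjective pi hpi).symm.toEquiv
  have hfin : Finite tb.ker := by
    exact Finite.of_equiv _ (Subgroup.groupEquivQuotientProdSubgroup (s := pi.ker)).symm
  have hcen : ((Subgroup.center G).map (QuotientGroup.mk' M)).comap pi ≤
      Subgroup.center tb.ker := by
    intro x hx
    rw [Subgroup.mem_center_iff]
    intro y
    apply Subtype.ext
    exact central_of_mem rho hr (x : Ehat rho) hx y
  refine ⟨tb.ker, inferInstance, Fintype.ofFinite _, pi, kap0⁻¹, hpi, ?_, ?_, ?_, ?_, hcen, ?_⟩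
  · intro x hx
    refine hcen ?_
    rw [Subgroup.mem_comap, (MonoidHom.mem_ker).1 hx]
    exact one_mem _
  · intro h
    obtain ⟨x, hx⟩ := exists_prime_orderOf_dvd_card' p h
    have h1 : kap0 x ^ p = 1 := by rw [← map_pow, ← hx, pow_orderOf_eq_one, map_one]
    have h2 : orderOf (kap0 x) ∣ 1 := by
      have h3 := orderOf_dvd_of_pow_eq_one h1
      have h4 := orderOf_dvd_of_pow_eq_one (hpow x)
      have h5 : Nat.Coprime p m := (Nat.Prime.coprime_iff_not_dvd hp.out).2 hm
      rw [← h5.gcd_eq_one]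
      exact Nat.dvd_gcd h3 h4
    have h3 : kap0 x = 1 := orderOf_eq_one_iff.1 (Nat.dvd_one.1 h2)
    have h4 : x = 1 := hinj0 (by rw [h3, map_one])
    rw [h4, orderOf_one] at hx
    exact hp.out.one_lt.ne hx
  · have h1 : ∀ x : pi.ker, kap0 x ∈ rootsOfUnity m ℂ := fun x => hpow x
    have : NeZero m := ⟨hm0.ne'⟩
    have h2 := Nat.card_le_card_of_injective (fun x : pi.ker => (⟨kap0 x, h1 x⟩ : rootsOfUnity m ℂ))
      (fun x y h => hinj0 (congrArg Subtype.val h))
    exact h2.trans (card_rootsOfUnity ℂ m)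
  · intro x y h
    apply hinj0
    rw [MonoidHom.inv_apply, MonoidHom.inv_apply, inv_inj] at h
    exact h
  · intro g q hw e' he'
    obtain ⟨c, hc1, hc2⟩ := sum_hat rho hr hsurj q hw (mapT tb.ker.subtype e') (by
      rw [← he']
      rfl)
    rw [hc2]
    congr 2
    have h1 : surfaceWord e' ∈ pi.ker := by
      rw [MonoidHom.mem_ker, ← word_mapT, he', word_mapT]
      exact (QuotientGroup.eq_one_iff _).2 hw
    unfold ext0
    rw [dif_pos h1, MonoidHom.inv_apply, Units.val_inv_eq_inv_val]
    congr 2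
    apply iota_inj rho hr
    rw [hk0, ← hc1, word_mapT]
    rfl

end

end Pool.Agent.Helper15.AW
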