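import Pool.Agent.Helper15.AWC.Zsum
import Pool.Agent.Helper15.AWC.Reduce

/-!
# Characters of defect zero and central extensions
-/

open scoped Classical BigOperators
open Representation Pool.Agent.Helper884.IC Pool.Agent.Y63.AWC

set_option linter.unusedSectionVars false

noncomputable section

namespace Pool.Agent.Helper15.AW

open Pool.Agent.Y63.KR (surfaceWord coords dg cod dg_spec cod_spec cod_pos DZ_iff)

/-- the extension `E` of `G/M` controls the sums of the character `theta` -/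
structure Controls (p : ℕ) {G : Type} [Group G] [Fintype G] {M : Subgroup G} [M.Normal]
    (theta : M → ℂ) {E : Type} [Group E] [Fintype E] (pi : E →* G ⧸ M) : Prop where
  surj : Function.Surjective pi
  central : pi.ker ≤ Subgroup.center E
  prime : ¬ p ∣ Nat.card pi.ker
  above : ((Subgroup.center G).map (QuotientGroup.mk' M)).comap pi ≤ Subgroup.center E
  small : ∀ g B n : ℕ, Nat.totient (Nat.card pi.ker) < p ^ B →
    (∀ K : Subgroup E, K ⊔ pi.ker = ⊤ → ∀ A : Subgroup E, A ≤ pi.ker → A ≤ K →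
      ∀ _ : (A.subgroupOf K).Normal, (p : ℤ) ^ (n + B) ∣ (numSurj g (K ⧸ A.subgroupOf K) : ℤ)) →
    ∃ y : ℂ, IsIntegral ℤ y ∧ zs g theta = (p : ℂ) ^ n * y

section

variable {G : Type} [Group G] [Fintype G] {M : Subgroup G} [M.Normal]

theorem exists_controls_of {p : ℕ} [hp : Fact p.Prime] {V : Type} [AddCommGroup V] [Module ℂ V]
    [FiniteDimensional ℂ V] (rho : Representation ℂ M V)
    (hr : rho.IsIrreducible) (hsurj : Function.Surjective (fstH rho)) (t : Khat rho →* ℂˣ) (m : ℕ)
    (hm : ¬ p ∣ m) (ht1 : ∀ x : M, t (jhat rho x) = 1) (ht2 : ∀ z : ℂˣ, t (scal rho z) = z ^ m) :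
    ∃ (E : Type) (_ : Group E) (_ : Fintype E) (pi : E →* G ⧸ M),
      Controls p rho.character pi ∧ Nat.card pi.ker ≤ m := by
  obtain ⟨E, _, _, pi, kap, h1, h2, h3, h4, h5, h6, h7⟩ := exists_ext rho hr hsurj t m hm ht1 ht2
  have hirr : IsIrrChar rho.character := ⟨V, _, _, ‹_›, rho, hr, rfl⟩
  refine ⟨E, inferInstance, inferInstance, pi, ⟨h1, h2, h3, h6, ?_⟩, h4⟩
  intro g B n hB h
  obtain ⟨y, hy1, hy2⟩ := twist_final pi h1 h2 h3 kap h5 g B n hB h
    (fun r => zf (liftT r) rho.character) (by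
      intro r hr1 hr2
      exact (zf_spec (liftT_word hr1) (liftT_gen hr2) hirr).1) (by
      intro e he1 he2
      symm
      exact zf_eq (liftT_word he1) hirr _ (h7 g _ (liftT_word he1) e (by rw [mapT_liftT])))
  refine ⟨y, hy1, ?_⟩
  rw [← hy2]
  unfold zs
  refine Finset.sum_congr rfl fun r _ => ?_
  congr

/-- characters of defect zero -/
theorem exists_controls {p : ℕ} [hp : Fact p.Prime] {theta : M → ℂ} (ht : IsIrrChar theta)
    (hinv : Invariant theta) (hz : ¬ p ∣ cod theta) :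
    ∃ (E : Type) (_ : Group E) (_ : Fintype E) (pi : E →* G ⧸ M), Controls p theta pi := by
  obtain ⟨V, _, _, _, rho, hr, rfl⟩ := ht
  have hsurj := fstH_surj rho hr hinv
  obtain ⟨t, m, hm, ht1, ht2⟩ := exists_transfer (p := p) rho hr hz hsurj
  obtain ⟨E, h1, h2, pi, h3, _⟩ := exists_controls_of rho hr hsurj t m hm ht1 ht2
  exact ⟨E, h1, h2, pi, h3⟩

end

end Pool.Agent.Helper15.AW
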