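import Pool.Agent.Helper15.AWC.Decomp
import Pool.Graph.R_seed8.Y63.KR.Surf

/-!
# Sums of a linear character over the products of commutators are rational
-/

open scoped Classical BigOperators
open Representation Pool.Agent.Helper884.IC Pool.Agent.Y63.AWC

set_option linter.unusedSectionVars false

noncomputable section

namespace Pool.Agent.Helper15.AW

open Pool.Agent.Y63.KR (surfaceWord coords sum_word comm_scalar dg dg_spec)

/-- a complex number which is rational -/
def Rat0 (x : ℂ) : Prop := ∃ r : ℚ, x = (r : ℂ)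

lemma Rat0.add {x y : ℂ} (hx : Rat0 x) (hy : Rat0 y) : Rat0 (x + y) := by
  obtain ⟨a, rfl⟩ := hx
  obtain ⟨b, rfl⟩ := hy
  exact ⟨a + b, by push_cast; rfl⟩

lemma Rat0.sub {x y : ℂ} (hx : Rat0 x) (hy : Rat0 y) : Rat0 (x - y) := by
  obtain ⟨a, rfl⟩ := hx
  obtain ⟨b, rfl⟩ := hy
  exact ⟨a - b, by push_cast; rfl⟩

lemma Rat0.mul {x y : ℂ} (hx : Rat0 x) (hy : Rat0 y) : Rat0 (x * y) := by
  obtain ⟨a, rfl⟩ := hx
  obtain ⟨b, rfl⟩ := hy
  exact ⟨a * b, by push_cast; rfl⟩

lemma Rat0.nat (n : ℕ) : Rat0 (n : ℂ) := ⟨n, by push_cast; rfl⟩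

lemma Rat0.inv {x : ℂ} (hx : Rat0 x) : Rat0 x⁻¹ := by
  obtain ⟨a, rfl⟩ := hx
  exact ⟨a⁻¹, by push_cast; rfl⟩

lemma Rat0.pow {x : ℂ} (hx : Rat0 x) (n : ℕ) : Rat0 (x ^ n) := by
  obtain ⟨a, rfl⟩ := hx
  exact ⟨a ^ n, by push_cast; rfl⟩

lemma Rat0.zero : Rat0 0 := ⟨0, by simp⟩

lemma Rat0.sum {ι : Type*} (s : Finset ι) (f : ι → ℂ) (h : ∀ i ∈ s, Rat0 (f i)) :
    Rat0 (∑ i ∈ s, f i) := by
  induction s using Finset.induction_on with
  | empty => simpa using Rat0.zero
  | insert a s ha ih =>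
    rw [Finset.sum_insert ha]
    exact (h a (Finset.mem_insert_self _ _)).add (ih fun i hi => h i (Finset.mem_insert_of_mem hi))

/-- a linear character of a subgroup, extended by zero -/
def ext0 {E : Type} [Group E] (C : Subgroup E) (kap : C →* ℂˣ) (x : E) : ℂ :=
  if h : x ∈ C then ((kap ⟨x, h⟩ : ℂˣ) : ℂ) else 0

lemma ext0_coe {E : Type} [Group E] (C : Subgroup E) (kap : C →* ℂˣ) (x : C) :
    ext0 C kap x = ((kap x : ℂˣ) : ℂ) := by
  unfold ext0
  rw [dif_pos x.2]

section

variable {E : Type} [Group E] [Fintype E]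

lemma sum_word_char {chi : E → ℂ} (h : IsIrrChar chi) (g : ℕ) :
    ∑ q : Fin g → E × E, chi (surfaceWord q) = chi 1 * ((Nat.card E : ℂ) / chi 1) ^ (2 * g) := by
  obtain ⟨V, _, _, _, rho, hr, rfl⟩ := h
  have h1 := congrArg (LinearMap.trace ℂ V) (sum_word rho g)
  rw [comm_scalar rho hr, map_sum] at h1
  have h2 : ((((Nat.card E : ℂ) / rho.character 1) ^ 2) • (LinearMap.id : V →ₗ[ℂ] V)) ^ g =
      (((Nat.card E : ℂ) / rho.character 1) ^ (2 * g)) • (LinearMap.id : V →ₗ[ℂ] V) := by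
    rw [pow_mul]
    generalize ((Nat.card E : ℂ) / rho.character 1) ^ 2 = c
    induction g with
    | zero => rw [pow_zero, pow_zero, one_smul]; rfl
    | succ k ih =>
      rw [pow_succ, ih]
      · ext v
        simp [smul_smul, pow_succ, mul_comm]
      · exact congrArg (LinearMap.trace ℂ V) (sum_word rho k) |>.trans (by
          rw [comm_scalar rho hr]) |> fun h => by
            rw [map_sum] at h
            exact h
  rw [h2, map_smul, LinearMap.trace_id, smul_eq_mul, ← rho.char_one] at h1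
  rw [mul_comm]
  exact h1

lemma ext0_class (C : Subgroup E) (hC : C ≤ Subgroup.center E) (kap : C →* ℂˣ) :
    IsClass (ext0 C kap) := by
  intro x y
  by_cases hx : x ∈ C
  · have h1 : y * x * y⁻¹ = x := by
      rw [Subgroup.mem_center_iff.1 (hC hx) y, mul_inv_cancel_right]
    rw [h1]
  · have h1 : y * x * y⁻¹ ∉ C := by
      intro h
      apply hx
      have h2 : x = y⁻¹ * (y * x * y⁻¹) * y := by group
      rw [h2, mul_assoc, ← Subgroup.mem_center_iff.1 (hC h) y, inv_mul_cancel_left]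
      exact h
    unfold ext0
    rw [dif_neg hx, dif_neg h1]

lemma B_ext0 (C : Subgroup E) (kap : C →* ℂˣ) {chi : E → ℂ} (h : IsIrrChar chi) :
    Rat0 (B (ext0 C kap) chi) := by
  obtain ⟨V, _, _, _, rho, hr, rfl⟩ := h
  unfold B
  refine (Rat0.nat _).inv.mul ?_
  let S : Representation ℂ C V := rho.comp C.subtype
  let T : Representation ℂ C ℂ :=
    { toFun := fun x => ((kap x : ℂˣ) : ℂ) • (1 : Module.End ℂ ℂ)
      map_one' := by simp
      map_mul' := fun x y => by
        rw [map_mul, Units.val_mul, mul_smul, smul_mul_assoc, one_mul] }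
  have hT : ∀ x, T.character x = ((kap x : ℂˣ) : ℂ) := by
    intro x
    change LinearMap.trace ℂ ℂ (((kap x : ℂˣ) : ℂ) • (1 : Module.End ℂ ℂ)) = _
    rw [map_smul, LinearMap.trace_one, Module.finrank_self]
    simp
  have : Invertible (Nat.card C : ℂ) := invertibleOfNonzero cardG_ne
  have h1 := card_inv_mul_sum_char_mul_char_eq_finrank S T
  have h2 : ∑ x : C, T.character x * S.character x⁻¹ =
      (Nat.card C : ℂ) * (Module.finrank ℂ (IntertwiningMap S T) : ℂ) := by
    rw [← h1, mul_inv_cancel_left₀ cardG_ne]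
  have h3 : ∑ x : E, ext0 C kap x * rho.character x⁻¹ =
      ∑ x : C, T.character x * S.character x⁻¹ := by
    have h4 : ∀ x : E, x ∉ (Finset.univ.filter fun x : E => x ∈ C) →
        ext0 C kap x * rho.character x⁻¹ = 0 := by
      intro x hx
      rw [Finset.mem_filter] at hx
      have : x ∉ C := fun h => hx ⟨Finset.mem_univ _, h⟩
      unfold ext0
      rw [dif_neg this, zero_mul]
    rw [← Finset.sum_subset (Finset.subset_univ (Finset.univ.filter fun x : E => x ∈ C))
      (fun x _ hx => h4 x hx)]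
    rw [Finset.sum_subtype (p := fun x : E => x ∈ C) (F := inferInstance) _ (fun x => by simp)]
    refine Finset.sum_congr rfl fun x _ => ?_
    rw [hT]
    congr 1
    exact ext0_coe C kap x
  rw [h3, h2]
  exact (Rat0.nat _).mul (Rat0.nat _)

/-- the sum over all tuples is rational -/
theorem rat_all (C : Subgroup E) (hC : C ≤ Subgroup.center E) (kap : C →* ℂˣ) (g : ℕ) :
    Rat0 (∑ q : Fin g → E × E, ext0 C kap (surfaceWord q)) := by
  have h1 := expand (ext0 C kap) (ext0_class C hC kap)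
  have h2 : ∑ q : Fin g → E × E, ext0 C kap (surfaceWord q) =
      ∑ chi ∈ Irr E, B (ext0 C kap) chi * (chi 1 * ((Nat.card E : ℂ) / chi 1) ^ (2 * g)) := by
    have h3 : ∀ q : Fin g → E × E, ext0 C kap (surfaceWord q) =
        ∑ chi ∈ Irr E, B (ext0 C kap) chi * chi (surfaceWord q) := by
      intro q
      conv_lhs => rw [h1]
      rw [Finset.sum_apply]
      rfl
    rw [Finset.sum_congr rfl fun q _ => h3 q, Finset.sum_comm]
    refine Finset.sum_congr rfl fun chi hchi => ?_
    rw [← Finset.mul_sum, sum_word_char (mem_Irr.1 hchi)]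
  rw [h2]
  refine Rat0.sum _ _ fun chi hchi => (B_ext0 C kap (mem_Irr.1 hchi)).mul ?_
  have h3 : Rat0 (chi 1) := by
    rw [(dg_spec (mem_Irr.1 hchi)).1]
    exact Rat0.nat _
  refine h3.mul (Rat0.pow ?_ _)
  rw [div_eq_mul_inv]
  exact (Rat0.nat _).mul h3.inv

end

end Pool.Agent.Helper15.AW
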