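import Pool.Agent.Helper15.AWC.Twist

/-!
# Sums of a linear character over generating tuples are rational
-/

open scoped Classical BigOperators
open Representation Pool.Agent.Helper884.IC Pool.Agent.Y63.AWC

set_option linter.unusedSectionVars false

noncomputable section

namespace Pool.Agent.Helper15.AW

open Pool.Agent.Y63.KR (surfaceWord coords sum_word comm_scalar dg dg_spec)

section

variable {E : Type} [Group E] [Fintype E]

lemma rat_sub (C : Subgroup E) (hC : C ≤ Subgroup.center E) (kap : C →* ℂˣ) (g : ℕ)
    (L : Subgroup E) (hL : C ≤ L) :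
    Rat0 (∑ q : Fin g → E × E, if coords q ⊆ L then ext0 C kap (surfaceWord q) else 0) := by
  let kap' : C.subgroupOf L →* ℂˣ := kap.comp (Subgroup.subgroupOfEquivOfLe hL).toMonoidHom
  have hC' : C.subgroupOf L ≤ Subgroup.center L := by
    intro x hx
    rw [Subgroup.mem_center_iff]
    intro y
    apply Subtype.ext
    exact Subgroup.mem_center_iff.1 (hC hx) y
  have h1 := rat_all (C.subgroupOf L) hC' kap' g
  have h2 : ∀ x : L, ext0 (C.subgroupOf L) kap' x = ext0 C kap (x : E) := by
    intro x
    unfold ext0
    by_cases hx : (x : E) ∈ C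
    · rw [dif_pos hx, dif_pos (show x ∈ C.subgroupOf L from hx)]
      rfl
    · rw [dif_neg hx, dif_neg (show x ∉ C.subgroupOf L from hx)]
  have h3 : (∑ q : Fin g → E × E, if coords q ⊆ L then ext0 C kap (surfaceWord q) else 0) =
      ∑ q : Fin g → L × L, ext0 (C.subgroupOf L) kap' (surfaceWord q) := by
    rw [← Finset.sum_filter]
    rw [Finset.sum_subtype (p := fun q : Fin g → E × E => coords q ⊆ L ∧ True)
      (F := inferInstance) _ (fun q => by simp)]
    rw [← (subT L (fun _ => True)).sum_comp]
    rw [← (Equiv.subtypeUnivEquiv (p := fun q : Fin g → L × L => True)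
      (fun _ => trivial)).symm.sum_comp]
    refine Finset.sum_congr rfl fun q _ => ?_
    rw [h2]
    congr 1
    exact word_mapT L.subtype q
  rw [h3]
  exact h1

/-- the sum over the tuples which generate `L` together with `C` -/
def sumGen (C : Subgroup E) (kap : C →* ℂˣ) (g : ℕ) (L : Subgroup E) : ℂ :=
  ∑ q : Fin g → E × E, if Subgroup.closure (coords q) ⊔ C = L then
    ext0 C kap (surfaceWord q) else 0

lemma rat_le (C : Subgroup E) (hC : C ≤ Subgroup.center E) (kap : C →* ℂˣ) (g : ℕ)
    (L : Subgroup E) : Rat0 (∑ q : Fin g → E × E, if Subgroup.closure (coords q) ⊔ C ≤ L then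
      ext0 C kap (surfaceWord q) else 0) := by
  by_cases hL : C ≤ L
  · have h1 := rat_sub C hC kap g L hL
    have h2 : ∀ q : Fin g → E × E, Subgroup.closure (coords q) ⊔ C ≤ L ↔ coords q ⊆ L := by
      intro q
      rw [sup_le_iff, Subgroup.closure_le]
      exact ⟨fun h => h.1, fun h => ⟨h, hL⟩⟩
    simp only [h2]
    exact h1
  · have h2 : ∀ q : Fin g → E × E, ¬ (Subgroup.closure (coords q) ⊔ C ≤ L) :=
      fun q h => hL (le_sup_right.trans h)
    simp only [h2, if_false, Finset.sum_const_zero]
    exact Rat0.zero

theorem rat_gen (C : Subgroup E) (hC : C ≤ Subgroup.center E) (kap : C →* ℂˣ) (g : ℕ)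
    (L : Subgroup E) : Rat0 (sumGen C kap g L) := by
  have : Fintype (Subgroup E) := Fintype.ofFinite _
  induction L using WellFoundedLT.induction with
  | _ L ih =>
    have h1 : (∑ q : Fin g → E × E, if Subgroup.closure (coords q) ⊔ C ≤ L then
        ext0 C kap (surfaceWord q) else 0) =
        sumGen C kap g L + ∑ K ∈ Finset.univ.filter (fun K : Subgroup E => K < L),
          sumGen C kap g K := by
      unfold sumGen
      rw [Finset.sum_comm, ← Finset.sum_add_distrib]
      refine Finset.sum_congr rfl fun q _ => ?_
      rw [Finset.sum_ite_eq (Finset.univ.filter (fun K : Subgroup E => K < L))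
        (Subgroup.closure (coords q) ⊔ C)]
      by_cases h : Subgroup.closure (coords q) ⊔ C = L
      · rw [if_pos h, if_pos h.le, if_neg, add_zero]
        rw [h]
        simp
      · rw [if_neg h, zero_add]
        by_cases h' : Subgroup.closure (coords q) ⊔ C ≤ L
        · rw [if_pos h', if_pos]
          simp [lt_of_le_of_ne h' h]
        · rw [if_neg h', if_neg]
          simp only [Finset.mem_filter, Finset.mem_univ, true_and]
          exact fun h2 => h' h2.le
    have h3 : Rat0 (∑ K ∈ Finset.univ.filter (fun K : Subgroup E => K < L),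
        sumGen C kap g K) := Rat0.sum _ _ fun K hK => ih K (Finset.mem_filter.1 hK).2
    have h2 := (rat_le C hC kap g L).sub h3
    rw [h1, add_sub_cancel_right] at h2
    exact h2

end

end Pool.Agent.Helper15.AW
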