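import Pool.Agent.Helper15.AWC.Lift

/-!
# Characters of defect zero vanish at the nontrivial `p`-elements
-/

open scoped Classical BigOperators
open Representation Pool.Agent.Helper884.IC Pool.Agent.Y63.AWC

set_option linter.unusedSectionVars false

noncomputable section

namespace Pool.Agent.Helper15.AW

open Pool.Agent.Y63.KR (dg cod dg_spec cod_spec cod_pos DZ_iff)

/-- two matrices which are idempotent up to a scalar and congruent have the same trace -/
lemma trace_eq_of_congr {T O F : Type} [Fintype T] [CommRing O] [IsDomain O] [Field F]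
    (red : O →+* F) (c : O) (hc : red c ≠ 0) (A B : Matrix T T O) (hA : A * A = c • A)
    (hB : B * B = c • B) (h : A.map red = B.map red) : A.trace = B.trace := by
  set U : Matrix T T O := A * B + (c • 1 - A) * (c • 1 - B) with hU
  have h1 : A * U = c • (A * B) := by
    have e : A * (c • 1 - A) = 0 := by
      rw [mul_sub, hA, mul_smul_comm, mul_one, sub_self]
    rw [hU, mul_add, ← mul_assoc, hA, ← mul_assoc, e, zero_mul, add_zero, smul_mul_assoc]
  have h2 : U * B = c • (A * B) := by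
    have e : (c • 1 - B) * B = 0 := by
      rw [sub_mul, hB, smul_mul_assoc, one_mul, sub_self]
    rw [hU, add_mul, mul_assoc, hB, mul_assoc, e, mul_zero, add_zero, mul_smul_comm]
  have h3 : A * U = U * B := by rw [h1, h2]
  have h4 : red.mapMatrix U = (red c * red c) • (1 : Matrix T T F) := by
    have hA' : red.mapMatrix A = red.mapMatrix B := h
    have hB' : red.mapMatrix B * red.mapMatrix B = red c • red.mapMatrix B := by
      rw [← map_mul, hB]
      ext i j
      simp [RingHom.mapMatrix_apply, Matrix.map_apply]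
    have hc1 : red.mapMatrix (c • (1 : Matrix T T O)) = red c • (1 : Matrix T T F) := by
      ext i j
      by_cases hij : i = j
      · subst hij
        simp [RingHom.mapMatrix_apply, Matrix.map_apply]
      · simp [RingHom.mapMatrix_apply, Matrix.map_apply, hij]
    rw [hU, map_add, map_mul, map_mul, map_sub, map_sub, hc1, hA', sub_mul, mul_sub, mul_sub, hB',
      smul_mul_assoc, smul_mul_assoc, mul_smul_comm, mul_smul_comm, one_mul, mul_one, one_mul,
      smul_smul]
    abel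
  have h5 : U.det ≠ 0 := by
    intro h0
    have h6 := congrArg Matrix.det h4
    rw [← RingHom.map_det, h0, map_zero, Matrix.det_smul, Matrix.det_one, mul_one] at h6
    exact pow_ne_zero _ (mul_ne_zero hc hc) h6.symm
  have h6 := congrArg (fun S => Matrix.trace (S * U.adjugate)) h3
  simp only [mul_assoc, Matrix.mul_adjugate] at h6
  rw [mul_smul_comm, mul_one, Matrix.trace_smul, Matrix.trace_mul_comm, mul_assoc,
    Matrix.adjugate_mul, mul_smul_comm, mul_one, Matrix.trace_smul] at h6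
  exact mul_left_cancel₀ h5 h6

section

variable {M : Type} [Group M] [Fintype M]

lemma conv_irr {chi : M → ℂ} (h : IsIrrChar chi) (a b : M) :
    ∑ y : M, chi (a * y⁻¹) * chi (y * b) = (cod chi : ℂ) * chi (a * b) := by
  obtain ⟨V, _, _, _, rho, hr, rfl⟩ := h
  have hirr : IsIrrChar rho.character := ⟨V, _, _, ‹_›, rho, hr, rfl⟩
  have h1 := congrArg (fun S : Module.End ℂ V => LinearMap.trace ℂ V (rho a * S))
    (fourier rho hr (rho b))
  simp only [Finset.mul_sum, map_sum, mul_smul_comm, map_smul, smul_eq_mul] at h1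
  obtain ⟨h2, h3⟩ := dg_spec hirr
  have h4 : (Nat.card M : ℂ) / rho.character 1 = (cod rho.character : ℂ) := by
    rw [h2, ← cod_spec hirr]
    have : (dg rho.character : ℂ) ≠ 0 := by exact_mod_cast h3.ne'
    push_cast
    field_simp
  rw [h4] at h1
  refine Eq.trans (Finset.sum_congr rfl fun y _ => ?_) (h1.trans ?_)
  · rw [mul_comm]
    congr 1
    · change LinearMap.trace ℂ V (rho (y * b)) = _
      rw [map_mul, LinearMap.trace_mul_comm]
    · change LinearMap.trace ℂ V (rho (a * y⁻¹)) = _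
      rw [map_mul]
  · congr 1
    change _ = LinearMap.trace ℂ V (rho (a * b))
    rw [map_mul rho a b]

/-- a residue field of the ring of all algebraic integers -/
lemma exists_red (p : ℕ) [hp : Fact p.Prime] : ∃ (F : Type) (_ : Field F)
    (_ : integralClosure ℤ ℂ →+* F), (p : F) = 0 := by
  have h1 : Ideal.span {(p : integralClosure ℤ ℂ)} ≠ ⊤ := by
    intro h
    rw [Ideal.span_singleton_eq_top] at h
    obtain ⟨u, hu⟩ := h
    have h2 : (p : ℂ) * ((u⁻¹ : (integralClosure ℤ ℂ)ˣ) : integralClosure ℤ ℂ) = 1 := by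
      have h3 : (u : integralClosure ℤ ℂ) * ((u⁻¹ : (integralClosure ℤ ℂ)ˣ) :
        integralClosure ℤ ℂ) = 1 := Units.mul_inv u
      rw [hu] at h3
      have h4 := congrArg (Subtype.val) h3
      simpa using h4
    have hp0 : (p : ℂ) ≠ 0 := by exact_mod_cast hp.out.ne_zero
    have h5 : (((u⁻¹ : (integralClosure ℤ ℂ)ˣ) : integralClosure ℤ ℂ) : ℂ) =
        algebraMap ℚ ℂ ((p : ℚ)⁻¹) := by
      rw [map_inv₀, map_natCast]
      exact eq_inv_of_mul_eq_one_right h2
    have h6 : IsIntegral ℤ (algebraMap ℚ ℂ ((p : ℚ)⁻¹)) := by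
      rw [← h5]
      exact ((u⁻¹ : (integralClosure ℤ ℂ)ˣ) : integralClosure ℤ ℂ).2
    rw [isIntegral_algebraMap_iff (FaithfulSMul.algebraMap_injective ℚ ℂ)] at h6
    obtain ⟨k, hk⟩ := IsIntegrallyClosed.isIntegral_iff.mp h6
    have hk' : (k : ℚ) = (p : ℚ)⁻¹ := by simpa using hk
    have h7 : (k : ℚ) * p = 1 := by
      rw [hk']
      exact inv_mul_cancel₀ (by exact_mod_cast hp.out.ne_zero)
    have h8 : k * (p : ℤ) = 1 := by exact_mod_cast h7
    have h9 : (p : ℤ) ∣ 1 := ⟨k, by rw [mul_comm]; exact h8.symm⟩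
    have h10 : p ∣ 1 := by exact_mod_cast h9
    exact hp.out.one_lt.ne' (Nat.dvd_one.1 h10)
  obtain ⟨I, hI, hle⟩ := Ideal.exists_le_maximal _ h1
  refine ⟨integralClosure ℤ ℂ ⧸ I, Ideal.Quotient.field I, Ideal.Quotient.mk I, ?_⟩
  have h2 : (Ideal.Quotient.mk I) (p : integralClosure ℤ ℂ) = 0 := by
    rw [Ideal.Quotient.eq_zero_iff_mem]
    exact hle (Ideal.mem_span_singleton_self _)
  rw [map_natCast] at h2
  exact h2

lemma sum_cosets (H : Subgroup M) (f : M → ℂ) :
    ∑ y : M, f y = ∑ t : M ⧸ H, ∑ h : H, f (t.out * (h : M)⁻¹) := by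
  rw [← Fintype.sum_prod_type (f := fun x : (M ⧸ H) × H => f (x.1.out * (x.2 : M)⁻¹))]
  symm
  refine Fintype.sum_bijective (fun x : (M ⧸ H) × H => x.1.out * (x.2 : M)⁻¹) ⟨?_, ?_⟩ _ _
    (fun _ => rfl)
  · rintro ⟨t, h⟩ ⟨t', h'⟩ he
    have he' : t.out * (h : M)⁻¹ = t'.out * (h' : M)⁻¹ := he
    have h1 : ∀ (t : M ⧸ H) (h : H), ((t.out * (h : M)⁻¹ : M) : M ⧸ H) = t := by
      intro t h
      rw [QuotientGroup.mk_mul_of_mem _ (inv_mem h.2)]
      exact Quotient.out_eq t
    have h2 : t = t' := by rw [← h1 t h, he', h1]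
    subst h2
    have h3 : (h : M)⁻¹ = (h' : M)⁻¹ := mul_left_cancel he'
    rw [inv_inj] at h3
    rw [Subtype.ext h3]
  · intro y
    obtain ⟨h, hh⟩ := QuotientGroup.mk_out_eq_mul H y
    exact ⟨((y : M ⧸ H), h), by
      change (y : M ⧸ H).out * (h : M)⁻¹ = y
      rw [hh, mul_inv_cancel_right]⟩

/-- the matrix of a central idempotent on functions which are semi-invariant under `H` -/
def Amat (chi : M → ℂ) (H : Subgroup M) (lam : H →* ℂˣ) : Matrix (M ⧸ H) (M ⧸ H) ℂ :=
  fun s t => ∑ h : H, ((lam h : ℂˣ) : ℂ) * chi (s.out * h * (t.out)⁻¹)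

lemma Amat_sq {chi : M → ℂ} (hc : IsIrrChar chi) (H : Subgroup M) (lam : H →* ℂˣ) :
    Amat chi H lam * Amat chi H lam = (cod chi : ℂ) • Amat chi H lam := by
  ext s r
  rw [Matrix.mul_apply, Matrix.smul_apply, smul_eq_mul]
  unfold Amat
  have h1 : ∀ t : M ⧸ H, (∑ h : H, ((lam h : ℂˣ) : ℂ) * chi (s.out * h * (t.out)⁻¹)) *
      (∑ h : H, ((lam h : ℂˣ) : ℂ) * chi (t.out * h * (r.out)⁻¹)) =
      ∑ l : H, ∑ h : H, ((lam l : ℂˣ) : ℂ) * (chi (s.out * (t.out * (h : M)⁻¹)⁻¹) *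
        chi ((t.out * (h : M)⁻¹) * (l * (r.out)⁻¹))) := by
    intro t
    rw [Finset.sum_mul, Finset.sum_comm]
    refine Finset.sum_congr rfl fun h _ => ?_
    rw [Finset.mul_sum]
    refine Fintype.sum_equiv (Equiv.mulLeft h) _ _ fun h' => ?_
    rw [Equiv.coe_mulLeft, map_mul, Units.val_mul]
    have e1 : s.out * (t.out * (h : M)⁻¹)⁻¹ = s.out * h * (t.out)⁻¹ := by group
    have e2 : t.out * (h : M)⁻¹ * (((h * h' : H) : M) * (r.out)⁻¹) = t.out * h' * (r.out)⁻¹ := by
      rw [Subgroup.coe_mul]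
      group
    rw [e1, e2]
    ring
  rw [Finset.sum_congr rfl fun t _ => h1 t, Finset.sum_comm, Finset.mul_sum]
  refine Finset.sum_congr rfl fun l _ => ?_
  simp_rw [← Finset.mul_sum]
  rw [← sum_cosets H (fun y => chi (s.out * y⁻¹) * chi (y * (l * (r.out)⁻¹))), conv_irr hc]
  rw [← mul_assoc (s.out) (l : M)]
  ring

lemma Amat_trace {chi : M → ℂ} (hc : IsIrrChar chi) (H : Subgroup M) (lam : H →* ℂˣ) :
    (Amat chi H lam).trace = (Nat.card (M ⧸ H) : ℂ) * ∑ h : H, ((lam h : ℂˣ) : ℂ) * chi h := by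
  change ∑ s : M ⧸ H, (∑ h : H, ((lam h : ℂˣ) : ℂ) * chi (s.out * h * (s.out)⁻¹)) = _
  have h1 : ∀ s : M ⧸ H, (∑ h : H, ((lam h : ℂˣ) : ℂ) * chi (s.out * h * (s.out)⁻¹)) =
      ∑ h : H, ((lam h : ℂˣ) : ℂ) * chi h := by
    intro s
    refine Finset.sum_congr rfl fun h _ => ?_
    rw [hc.isClass]
  rw [Finset.sum_congr rfl fun s _ => h1 s, Finset.sum_const, Finset.card_univ, nsmul_eq_mul,
    ← Nat.card_eq_fintype_card]

lemma Amat_integral {chi : M → ℂ} (hc : IsIrrChar chi) (H : Subgroup M) (lam : H →* ℂˣ)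
    (s t : M ⧸ H) : IsIntegral ℤ (Amat chi H lam s t) := by
  unfold Amat
  refine IsIntegral.sum _ fun h _ => IsIntegral.mul ?_ (isIntegral_char hc _)
  refine IsIntegral.of_pow (n := Nat.card H) Nat.card_pos ?_
  rw [← Units.val_pow_eq_pow_val, ← map_pow, pow_card_eq_one', map_one]
  exact isIntegral_one

/-- the sum of a character of defect zero over a `p`-subgroup, twisted by a linear character -/
lemma sum_twist {p : ℕ} [hp : Fact p.Prime] {chi : M → ℂ} (hc : IsIrrChar chi)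
    (hz : ¬ p ∣ cod chi) (H : Subgroup M) (hH : IsPGroup p H) (lam : H →* ℂˣ) :
    ∑ h : H, ((lam h : ℂˣ) : ℂ) * chi h = ∑ h : H, chi h := by
  obtain ⟨F, _, red, hred⟩ := exists_red p
  have hchar : CharP F p := (CharP.charP_iff_prime_eq_zero hp.out).2 hred
  -- the matrices over the algebraic integers
  let A : ∀ _ : H →* ℂˣ, Matrix (M ⧸ H) (M ⧸ H) (integralClosure ℤ ℂ) :=
    fun lam => Matrix.of fun s t => ⟨Amat chi H lam s t, Amat_integral hc H lam s t⟩
  let val : integralClosure ℤ ℂ →+* ℂ := (integralClosure ℤ ℂ).toSubring.subtype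
  have hval : ∀ lam, (A lam).map val = Amat chi H lam := fun lam => rfl
  have hinj : Function.Injective (fun S : Matrix (M ⧸ H) (M ⧸ H) (integralClosure ℤ ℂ) =>
      val.mapMatrix S) := by
    intro S S' h
    ext i j
    exact congrFun (congrFun h i) j
  have hsq : ∀ lam, A lam * A lam = ((cod chi : ℕ) : integralClosure ℤ ℂ) • A lam := by
    intro lam
    apply hinj
    change val.mapMatrix (A lam * A lam) = val.mapMatrix (((cod chi : ℕ) :
      integralClosure ℤ ℂ) • A lam)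
    rw [map_mul]
    have h1 : val.mapMatrix (A lam) = Amat chi H lam := hval lam
    have h2 : val.mapMatrix (((cod chi : ℕ) : integralClosure ℤ ℂ) • A lam) =
        (cod chi : ℂ) • Amat chi H lam := by
      rw [← h1]
      ext i j
      simp [RingHom.mapMatrix_apply, Matrix.map_apply]
    rw [h1, h2, Amat_sq hc]
  have hlam : ∀ (lam : H →* ℂˣ) (h : H), ∃ hi : IsIntegral ℤ ((lam h : ℂˣ) : ℂ),
      red ⟨_, hi⟩ = 1 := by
    intro lam h
    obtain ⟨k, hk⟩ := IsPGroup.iff_card.1 hH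
    have h1 : ((lam h : ℂˣ) : ℂ) ^ p ^ k = 1 := by
      rw [← Units.val_pow_eq_pow_val, ← map_pow, ← hk, pow_card_eq_one', map_one, Units.val_one]
    have hi : IsIntegral ℤ ((lam h : ℂˣ) : ℂ) := by
      refine IsIntegral.of_pow (n := p ^ k) (pow_pos hp.out.pos _) ?_
      rw [h1]
      exact isIntegral_one
    refine ⟨hi, ?_⟩
    have h2 : red ⟨_, hi⟩ ^ p ^ k = 1 := by
      rw [← map_pow]
      have : (⟨_, hi⟩ : integralClosure ℤ ℂ) ^ p ^ k = 1 := Subtype.ext h1
      rw [this, map_one]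
    have h3 : (red ⟨_, hi⟩ - 1) ^ p ^ k = 0 := by
      rw [sub_pow_char_pow, h2, one_pow, sub_self]
    exact sub_eq_zero.1 (pow_eq_zero_iff (pow_pos hp.out.pos _).ne' |>.1 h3)
  have hmod : (A lam).map red = (A 1).map red := by
    ext s t
    rw [Matrix.map_apply, Matrix.map_apply]
    have h1 : ∀ lam : H →* ℂˣ, A lam s t = ∑ h : H,
        (⟨((lam h : ℂˣ) : ℂ), (hlam lam h).1⟩ : integralClosure ℤ ℂ) *
          ⟨chi (s.out * h * (t.out)⁻¹), isIntegral_char hc _⟩ := by
      intro lam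
      apply Subtype.ext
      rw [AddSubmonoidClass.coe_finsetSum]
      rfl
    rw [h1 lam, h1 1, map_sum, map_sum]
    refine Finset.sum_congr rfl fun h _ => ?_
    rw [map_mul, map_mul, (hlam lam h).2, (hlam 1 h).2]
  have hc0 : red ((cod chi : ℕ) : integralClosure ℤ ℂ) ≠ 0 := by
    rw [map_natCast]
    intro h
    exact hz ((CharP.cast_eq_zero_iff F p _).1 h)
  have key := trace_eq_of_congr red _ hc0 (A lam) (A 1) (hsq lam) (hsq 1) hmod
  have key2 : (Amat chi H lam).trace = (Amat chi H 1).trace := by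
    have h1 : ∀ lam, val (A lam).trace = (Amat chi H lam).trace := by
      intro lam
      rw [← hval lam]
      exact (AddMonoidHom.map_trace val.toAddMonoidHom (A lam))
    rw [← h1, ← h1, key]
  rw [Amat_trace hc, Amat_trace hc] at key2
  have hne : (Nat.card (M ⧸ H) : ℂ) ≠ 0 := by exact_mod_cast Nat.card_pos.ne'
  have h3 := mul_left_cancel₀ hne key2
  rw [h3]
  refine Finset.sum_congr rfl fun h _ => ?_
  rw [MonoidHom.one_apply, Units.val_one, one_mul]

/-- characters of defect zero vanish at the nontrivial `p`-elements -/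
theorem vanish {p : ℕ} [hp : Fact p.Prime] {chi : M → ℂ} (hc : IsIrrChar chi)
    (hz : ¬ p ∣ cod chi) {u : M} (hu : ∃ k, u ^ p ^ k = 1) (hu1 : u ≠ 1) : chi u = 0 := by
  open scoped IsMulCommutative in
  let H := Subgroup.zpowers u
  have hH : IsPGroup p H := by
    rintro ⟨x, hx⟩
    obtain ⟨i, rfl⟩ := Subgroup.mem_zpowers_iff.1 hx
    obtain ⟨k, hk⟩ := hu
    refine ⟨k, Subtype.ext ?_⟩
    change (u ^ i) ^ p ^ k = 1
    rw [← zpow_natCast, ← zpow_mul, mul_comm, zpow_mul, zpow_natCast, hk, one_zpow]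
  let _ : CommGroup H := inferInstance
  let x : H := ⟨u, Subgroup.mem_zpowers u⟩
  have hx1 : x ≠ 1 := fun h => hu1 (congrArg Subtype.val h)
  have : Finite (H →* ℂˣ) := by
    obtain ⟨e⟩ := CommGroup.monoidHom_mulEquiv_of_hasEnoughRootsOfUnity H ℂ
    exact Finite.of_equiv _ e.symm.toEquiv
  have : Fintype (H →* ℂˣ) := Fintype.ofFinite _
  have horth : ∀ y : H, y ≠ 1 → ∑ lam : H →* ℂˣ, ((lam y : ℂˣ) : ℂ) = 0 := by
    intro y hy
    obtain ⟨mu, hmu⟩ := CommGroup.exists_apply_ne_one_of_hasEnoughRootsOfUnity H ℂ hy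
    have h1 : ((mu y : ℂˣ) : ℂ) * ∑ lam : H →* ℂˣ, ((lam y : ℂˣ) : ℂ) =
        ∑ lam : H →* ℂˣ, ((lam y : ℂˣ) : ℂ) := by
      rw [Finset.mul_sum]
      refine Fintype.sum_equiv (Equiv.mulLeft mu) _ _ fun lam => ?_
      rw [Equiv.coe_mulLeft, MonoidHom.mul_apply, Units.val_mul]
    have h2 : (((mu y : ℂˣ) : ℂ) - 1) * ∑ lam : H →* ℂˣ, ((lam y : ℂˣ) : ℂ) = 0 := by
      rw [sub_mul, h1, one_mul, sub_self]
    rcases mul_eq_zero.1 h2 with h3 | h3
    · exact absurd (Units.ext (sub_eq_zero.1 h3)) hmu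
    · exact h3
  have h1 : ∑ lam : H →* ℂˣ, ((lam x⁻¹ : ℂˣ) : ℂ) * ∑ h : H, ((lam h : ℂˣ) : ℂ) * chi h =
      (Fintype.card (H →* ℂˣ) : ℂ) * chi u := by
    simp_rw [Finset.mul_sum]
    rw [Finset.sum_comm, Finset.sum_eq_single x]
    · have h2 : ∀ lam : H →* ℂˣ, ((lam x⁻¹ : ℂˣ) : ℂ) * (((lam x : ℂˣ) : ℂ) * chi x) = chi u := by
        intro lam
        rw [← mul_assoc, ← Units.val_mul, ← map_mul, inv_mul_cancel, map_one, Units.val_one, one_mul]
      rw [Finset.sum_congr rfl fun lam _ => h2 lam, Finset.sum_const, Finset.card_univ,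
        nsmul_eq_mul]
    · intro h _ hne
      have h2 : ∀ lam : H →* ℂˣ, ((lam x⁻¹ : ℂˣ) : ℂ) * (((lam h : ℂˣ) : ℂ) * chi h) =
          ((lam (x⁻¹ * h) : ℂˣ) : ℂ) * chi h := by
        intro lam
        rw [← mul_assoc, ← Units.val_mul, ← map_mul]
      rw [Finset.sum_congr rfl fun lam _ => h2 lam, ← Finset.sum_mul, horth, zero_mul]
      intro h3
      exact hne (inv_mul_eq_one.1 h3).symm
    · intro h
      exact absurd (Finset.mem_univ _) h
  have h2 : ∑ lam : H →* ℂˣ, ((lam x⁻¹ : ℂˣ) : ℂ) * ∑ h : H, ((lam h : ℂˣ) : ℂ) * chi h = 0 := by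
    have h3 : ∀ lam : H →* ℂˣ, ((lam x⁻¹ : ℂˣ) : ℂ) * ∑ h : H, ((lam h : ℂˣ) : ℂ) * chi h =
        ((lam x⁻¹ : ℂˣ) : ℂ) * ∑ h : H, chi h := by
      intro lam
      rw [sum_twist hc hz H hH lam]
    rw [Finset.sum_congr rfl fun lam _ => h3 lam, ← Finset.sum_mul, horth _ (by
      rwa [ne_eq, inv_eq_one]), zero_mul]
  rw [h1] at h2
  rcases mul_eq_zero.1 h2 with h3 | h3
  · exfalso
    have h4 : (Fintype.card (H →* ℂˣ)) = 0 := by exact_mod_cast h3
    rw [Fintype.card_eq_zero_iff] at h4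
    exact h4.elim 1
  · exact h3

end

end Pool.Agent.Helper15.AW
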