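import Pool.Agent.Helper15.AWC.Schur
import Pool.Agent.Helper15.AWC.Count

/-!
# Sums over the lifts of a homomorphism
-/

open scoped Classical BigOperators
open Representation Pool.Agent.Helper884.IC Pool.Agent.Y63.AWC

set_option linter.unusedSectionVars false

noncomputable section

namespace Pool.Agent.Helper15.AW

open Pool.Agent.Y63.KR (surfaceWord coords map_surfaceWord surfaceWord_cons)

/-- the product of tuples -/
def mulT {g : ℕ} {K : Type} [Mul K] (q m : Fin g → K × K) : Fin g → K × K :=
  fun i => ((q i).1 * (m i).1, (q i).2 * (m i).2)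

lemma mapT_mulT {g : ℕ} {K L : Type} [Group K] [Group L] (f : K →* L) (q m : Fin g → K × K) :
    mapT f (mulT q m) = mulT (mapT f q) (mapT f m) := by
  funext i
  simp [mapT, mulT]

lemma word_mulT_mem {g : ℕ} {K : Type} [Group K] (N : Subgroup K) [N.Normal]
    (q m : Fin g → K × K) (hm : ∀ i, (m i).1 ∈ N ∧ (m i).2 ∈ N) :
    (surfaceWord q)⁻¹ * surfaceWord (mulT q m) ∈ N := by
  rw [← QuotientGroup.eq_one_iff, ← QuotientGroup.mk'_apply, map_mul, map_inv,
    ← word_mapT, ← word_mapT, mapT_mulT]
  have h : mulT (mapT (QuotientGroup.mk' N) q) (mapT (QuotientGroup.mk' N) m) =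
      mapT (QuotientGroup.mk' N) q := by
    funext i
    have h1 : (QuotientGroup.mk' N) (m i).1 = 1 := (QuotientGroup.eq_one_iff _).2 (hm i).1
    have h2 : (QuotientGroup.mk' N) (m i).2 = 1 := (QuotientGroup.eq_one_iff _).2 (hm i).2
    simp only [mulT, mapT, h1, h2, mul_one]
  rw [h, inv_mul_cancel]

section

variable {G : Type} [Group G] [Fintype G] {M : Subgroup G} [M.Normal]
  {V : Type} [AddCommGroup V] [Module ℂ V] [FiniteDimensional ℂ V]

/-- the pairs of an element of `G` and an operator which induces the same conjugation on `M` -/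
def Khat (rho : Representation ℂ M V) : Subgroup (G × (Module.End ℂ V)ˣ) where
  carrier := {x | ∀ m : M, (x.2 : Module.End ℂ V) * rho m = rho (MulAut.conjNormal x.1 m) * x.2}
  one_mem' := by
    intro m
    simp
  mul_mem' := by
    intro x y hx hy m
    simp only [Prod.fst_mul, Prod.snd_mul, Units.val_mul, map_mul, MulAut.mul_apply]
    rw [mul_assoc, hy m, ← mul_assoc, hx, mul_assoc]
  inv_mem' := by
    intro x hx m
    simp only [Prod.fst_inv, Prod.snd_inv]
    rw [Units.inv_mul_eq_iff_eq_mul, ← mul_assoc, hx, map_inv, MulAut.apply_inv_self,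
      Units.mul_inv_cancel_right]

/-- `M` as a subgroup -/
def jhat (rho : Representation ℂ M V) : M →* Khat rho where
  toFun m := ⟨((m : G), MonoidHom.toHomUnits rho m), by
    intro n
    change rho m * rho n = rho (MulAut.conjNormal (m : G) n) * rho m
    rw [← map_mul, ← map_mul]
    congr 1
    ext
    simp⟩
  map_one' := by
    ext
    · rfl
    · simp
  map_mul' m n := by
    ext
    · rfl
    · simp

instance jhat_normal (rho : Representation ℂ M V) : (jhat rho).range.Normal := by
  constructor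
  rintro _ ⟨m, rfl⟩ x
  refine ⟨MulAut.conjNormal x.1.1 m, ?_⟩
  have hx := x.2 m
  ext
  · simp [jhat]
  · have h1 : ((x.1.2 * MonoidHom.toHomUnits rho m * x.1.2⁻¹ : (Module.End ℂ V)ˣ) : Module.End ℂ V) =
        rho (MulAut.conjNormal x.1.1 m) := by
      rw [Units.val_mul, Units.val_mul]
      change (x.1.2 : Module.End ℂ V) * rho m * (x.1.2⁻¹ : (Module.End ℂ V)ˣ) = _
      rw [hx, mul_assoc, Units.mul_inv, mul_one]
    exact congrArg (fun S : Module.End ℂ V => S _) h1.symm

end

lemma mulT_cons {g : ℕ} {K : Type} [Mul K] (a b : K × K) (q m : Fin g → K × K) :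
    mulT (Fin.cons a q : Fin (g + 1) → K × K) (Fin.cons b m) =
      Fin.cons (a.1 * b.1, a.2 * b.2) (mulT q m) := by
  funext i
  refine Fin.cases ?_ (fun j => ?_) i
  · simp [mulT]
  · simp [mulT]

lemma mapT_cons {g : ℕ} {K L : Type} (f : K → L) (a : K × K) (q : Fin g → K × K) :
    mapT f (Fin.cons a q : Fin (g + 1) → K × K) = Fin.cons (f a.1, f a.2) (mapT f q) := by
  funext i
  refine Fin.cases ?_ (fun j => ?_) i
  · simp [mapT]
  · simp [mapT]

/-- the sum of the products of commutators of operators -/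
theorem sum_words {M : Type} [Group M] [Fintype M] {V : Type} [AddCommGroup V] [Module ℂ V]
    [FiniteDimensional ℂ V] (rho : Representation ℂ M V) (hr : rho.IsIrreducible) :
    ∀ (g : ℕ) (u : Fin g → (Module.End ℂ V)ˣ × (Module.End ℂ V)ˣ),
      ∑ m : Fin g → M × M,
        ((surfaceWord (mulT u (mapT (MonoidHom.toHomUnits rho) m)) : (Module.End ℂ V)ˣ) :
          Module.End ℂ V) =
        ((((Nat.card M : ℂ) / rho.character 1) ^ 2) ^ g) • (1 : Module.End ℂ V) := by
  intro g
  induction g with
  | zero =>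
    intro u
    rw [Fintype.sum_unique, pow_zero, one_smul]
    simp [surfaceWord]
  | succ g ih =>
    intro u
    rw [← (Fin.consEquiv (fun _ : Fin (g + 1) => M × M)).sum_comp, Fintype.sum_prod_type]
    have hu : u = Fin.cons (u 0) (Fin.tail u) := (Fin.cons_self_tail u).symm
    have h1 : ∀ (c : M × M) (m : Fin g → M × M),
        ((surfaceWord (mulT u (mapT (MonoidHom.toHomUnits rho)
          ((Fin.consEquiv (fun _ : Fin (g + 1) => M × M)) (c, m)))) : (Module.End ℂ V)ˣ) :
            Module.End ℂ V) =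
        (((u 0).1 : Module.End ℂ V) * rho c.1) * ((u 0).2 * rho c.2) *
          (rho c.1⁻¹ * ((u 0).1⁻¹ : (Module.End ℂ V)ˣ)) *
          (rho c.2⁻¹ * ((u 0).2⁻¹ : (Module.End ℂ V)ˣ)) *
        ((surfaceWord (mulT (Fin.tail u) (mapT (MonoidHom.toHomUnits rho) m)) :
          (Module.End ℂ V)ˣ) : Module.End ℂ V) := by
      intro c m
      have e1 : (Fin.consEquiv (fun _ : Fin (g + 1) => M × M)) (c, m) = Fin.cons c m := rfl
      rw [e1, hu, mapT_cons, mulT_cons, surfaceWord_cons]
      simp only [Fin.cons_zero, Fin.tail_cons, mul_inv_rev, Units.val_mul]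
      rfl
    simp only [h1]
    rw [← Finset.sum_mul_sum (s := Finset.univ) (t := Finset.univ),
      comm_avg rho hr _ _ _ _ (Units.mul_inv _) (Units.mul_inv _), ih (Fin.tail u),
      smul_mul_assoc, one_mul, smul_smul]
    congr 1
    rw [pow_succ' _ g]

section

variable {G : Type} [Group G] [Fintype G] {M : Subgroup G} [M.Normal]
  {V : Type} [AddCommGroup V] [Module ℂ V] [FiniteDimensional ℂ V]

/-- a representation of `M`, extended by zero -/
def rho0 (rho : Representation ℂ M V) (x : G) : Module.End ℂ V :=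
  if h : x ∈ M then rho ⟨x, h⟩ else 0

lemma rho0_coe (rho : Representation ℂ M V) (x : M) : rho0 rho (x : G) = rho x := by
  unfold rho0
  rw [dif_pos x.2]

/-- the first component -/
def fstH (rho : Representation ℂ M V) : Khat rho →* G :=
  (MonoidHom.fst _ _).comp (Khat rho).subtype

/-- the second component -/
def sndH (rho : Representation ℂ M V) : Khat rho →* (Module.End ℂ V)ˣ :=
  (MonoidHom.snd _ _).comp (Khat rho).subtype

/-- the sum over all lifts -/
theorem sum_lifts (rho : Representation ℂ M V) (hr : rho.IsIrreducible) {g : ℕ}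
    (u : Fin g → Khat rho × Khat rho) (hw : surfaceWord (mapT (fstH rho) u) ∈ M) :
    ∃ c : ℂ, c ≠ 0 ∧
      ((surfaceWord (mapT (sndH rho) u) : (Module.End ℂ V)ˣ) : Module.End ℂ V) =
        c • rho ⟨_, hw⟩ ∧
      ∑ m : Fin g → M × M, rho0 rho (surfaceWord (mulT (mapT (fstH rho) u) (mapT M.subtype m))) =
        (c⁻¹ * (((Nat.card M : ℂ) / rho.character 1) ^ 2) ^ g) • (1 : Module.End ℂ V) := by
  have hnt := irr_nontrivial rho hr
  set W : (Module.End ℂ V)ˣ := surfaceWord (mapT (sndH rho) u) with hW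
  set w : M := ⟨_, hw⟩ with hwdef
  have hWs : W = sndH rho (surfaceWord u) := word_mapT _ _
  have hws : (w : G) = fstH rho (surfaceWord u) := word_mapT _ _
  have hK := (surfaceWord u).2
  obtain ⟨c, hc⟩ := scalar_of_comm rho hr (rho w⁻¹ * W) (by
    intro m
    have h1 : (W : Module.End ℂ V) * rho m = rho (MulAut.conjNormal (w : G) m) * W := by
      rw [hWs, hws]
      exact hK m
    rw [mul_assoc, h1, ← mul_assoc, ← mul_assoc, ← map_mul, ← map_mul]
    congr 2
    ext
    simp [mul_assoc])
  have hc' : (W : Module.End ℂ V) = c • rho w := by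
    have h1 : rho w * (rho w⁻¹ * (W : Module.End ℂ V)) = rho w * (c • 1) := by rw [hc]
    rw [← mul_assoc, ← map_mul, mul_inv_cancel, map_one, one_mul, mul_smul_comm, mul_one] at h1
    exact h1
  have hc0 : c ≠ 0 := by
    rintro rfl
    rw [zero_smul] at hc'
    have : (1 : Module.End ℂ V) = 0 := by
      rw [← Units.mul_inv W, hc', zero_mul]
    exact one_ne_zero this
  refine ⟨c, hc0, hc', ?_⟩
  rw [mul_smul, ← sum_words rho hr g (mapT (sndH rho) u), Finset.smul_sum]
  refine Finset.sum_congr rfl fun m _ => ?_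
  have hmem := word_mulT_mem (jhat rho).range u (mapT (jhat rho) m) (fun i =>
    ⟨⟨_, rfl⟩, ⟨_, rfl⟩⟩)
  obtain ⟨x, hx⟩ := hmem
  have hx' : surfaceWord (mulT u (mapT (jhat rho) m)) = surfaceWord u * jhat rho x := by
    rw [hx, mul_inv_cancel_left]
  have h1 : surfaceWord (mulT (mapT (fstH rho) u) (mapT M.subtype m)) = (w * x : M) := by
    have h2 := congrArg (fstH rho) hx'
    rw [← word_mapT, mapT_mulT, map_mul, ← hws] at h2
    exact h2
  have h3 : surfaceWord (mulT (mapT (sndH rho) u) (mapT (MonoidHom.toHomUnits rho) m)) =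
      W * MonoidHom.toHomUnits rho x := by
    have h2 := congrArg (sndH rho) hx'
    rw [← word_mapT, mapT_mulT, map_mul, ← hWs] at h2
    exact h2
  rw [h1, h3, rho0_coe, Units.val_mul, hc', map_mul]
  change rho w * rho x = c⁻¹ • (c • rho w * rho x)
  rw [smul_mul_assoc, smul_smul, inv_mul_cancel₀ hc0, one_smul]

/-- the scalar is a root of unity -/
theorem scalar_integral (rho : Representation ℂ M V) (hr : rho.IsIrreducible) {g : ℕ}
    (u : Fin g → (Module.End ℂ V)ˣ × (Module.End ℂ V)ˣ) (w : M) (c : ℂ)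
    (hc : ((surfaceWord u : (Module.End ℂ V)ˣ) : Module.End ℂ V) = c • rho w) :
    IsIntegral ℤ c⁻¹ := by
  have hnt := irr_nontrivial rho hr
  have hdet : LinearMap.det ((surfaceWord u : (Module.End ℂ V)ˣ) : Module.End ℂ V) = 1 := by
    let f : (Module.End ℂ V)ˣ →* ℂˣ := Units.map (LinearMap.det : Module.End ℂ V →* ℂ)
    have h1 : f (surfaceWord u) = 1 := by
      rw [← word_mapT]
      have h2 : ∀ q : Fin g → ℂˣ × ℂˣ, surfaceWord q = 1 := by
        intro q
        unfold surfaceWord
        rw [List.prod_eq_one]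
        intro x hx
        rw [List.mem_ofFn] at hx
        obtain ⟨i, rfl⟩ := hx
        rw [mul_comm (q i).1, mul_inv_cancel_right, mul_inv_cancel]
      exact h2 _
    exact congrArg Units.val h1
  rw [hc, LinearMap.det_smul] at hdet
  have h2 : (LinearMap.det (rho w)) ^ Nat.card M = 1 := by
    rw [← map_pow, ← map_pow, pow_card_eq_one', map_one, map_one]
  have h3 : c ^ (Module.finrank ℂ V * Nat.card M) = 1 := by
    have h4 : (c ^ Module.finrank ℂ V * LinearMap.det (rho w)) ^ Nat.card M = 1 ^ Nat.card M := by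
      rw [hdet]
    rw [mul_pow, h2, mul_one, one_pow, ← pow_mul] at h4
    exact h4
  have hpos : Module.finrank ℂ V * Nat.card M ≠ 0 :=
    Nat.mul_ne_zero (Module.finrank_pos (R := ℂ) (M := V)).ne' Nat.card_pos.ne'
  refine ⟨Polynomial.X ^ (Module.finrank ℂ V * Nat.card M) - 1,
    Polynomial.monic_X_pow_sub_C 1 hpos, ?_⟩
  rw [Polynomial.eval₂_sub, Polynomial.eval₂_pow, Polynomial.eval₂_X, Polynomial.eval₂_one,
    inv_pow, h3, inv_one, sub_self]

end

end Pool.Agent.Helper15.AW
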