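import Pool.Agent.Helper15.AWC.Trans3

/-!
# The surjections onto the supplements of a normal subgroup, by characters
-/

open scoped Classical BigOperators
open Representation Pool.Agent.Helper884.IC Pool.Agent.Y63.AWC

set_option linter.unusedSectionVars false

noncomputable section

namespace Pool.Agent.Helper15.AW

open Pool.Agent.Y63.KR (surfaceWord coords map_surfaceWord surfaceWord_cons dg cod dg_spec cod_spec
  cod_pos DZ_iff unit_pow two_mul_ge numHom)

section

variable {G : Type} [Group G] [Fintype G] {M : Subgroup G} [M.Normal]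

/-- the normalized sum of a character over the lifts -/
def zf {g : ℕ} (q : Fin g → G × G) (theta : M → ℂ) : ℂ :=
  (∑ m : Fin g → M × M, if h : surfaceWord (mulT q (mapT M.subtype m)) ∈ M then
    theta ⟨_, h⟩ else 0) / (theta 1 * (((Nat.card M : ℂ) / theta 1) ^ 2) ^ g)

lemma zf_eq {g : ℕ} {q : Fin g → G × G} (hw : surfaceWord q ∈ M) {theta : M → ℂ}
    (ht : IsIrrChar theta) (z : ℂ) (h : ∑ m : Fin g → M × M, theta ⟨_, word_lift_mem hw m⟩ =
      z * theta 1 * (((Nat.card M : ℂ) / theta 1) ^ 2) ^ g) : zf q theta = z := by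
  obtain ⟨h4, h5⟩ := dg_spec ht
  have h7 : (dg theta : ℂ) ≠ 0 := by exact_mod_cast h5.ne'
  have h8 : theta 1 * (((Nat.card M : ℂ) / theta 1) ^ 2) ^ g ≠ 0 := by
    rw [h4]
    exact mul_ne_zero h7 (pow_ne_zero _ (pow_ne_zero _ (div_ne_zero cardG_ne h7)))
  unfold zf
  rw [div_eq_iff h8, ← mul_assoc, ← h]
  refine Finset.sum_congr rfl fun m _ => ?_
  rw [dif_pos (word_lift_mem hw m)]

lemma zf_spec {g : ℕ} {q : Fin g → G × G} (hw : surfaceWord q ∈ M)
    (hq : Subgroup.closure (coords q) ⊔ M = ⊤) {theta : M → ℂ} (ht : IsIrrChar theta) :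
    IsIntegral ℤ (zf q theta) ∧ (¬ Invariant theta → zf q theta = 0) ∧
      ∑ m : Fin g → M × M, theta ⟨_, word_lift_mem hw m⟩ =
        zf q theta * theta 1 * (((Nat.card M : ℂ) / theta 1) ^ 2) ^ g := by
  obtain ⟨z, h1, h2, _, h3⟩ := char_sum q hw hq ht
  have h4 := zf_eq hw ht z h3
  rw [h4]
  exact ⟨h1, h2, h3⟩

/-- the lifts of a homomorphism, by characters -/
theorem card_lifts_zf {n : ℕ} (q : Fin (n + 1) → G × G) (hw : surfaceWord q ∈ M)
    (hq : Subgroup.closure (coords q) ⊔ M = ⊤) :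
    (Nat.card {m : Fin (n + 1) → M × M // surfaceWord (mulT q (mapT M.subtype m)) = 1} : ℂ) =
        (Nat.card M : ℂ) * ∑ theta ∈ Irr M, zf q theta * (cod theta : ℂ) ^ (2 * n) := by
  have hM := cardG_ne (G := M)
  have h2 : (Nat.card M : ℂ) *
      (Nat.card {m : Fin (n + 1) → M × M // surfaceWord (mulT q (mapT M.subtype m)) = 1} : ℂ) =
      ∑ m : Fin (n + 1) → M × M, ∑ theta ∈ Irr M, theta ⟨_, word_lift_mem hw m⟩ * theta (1 : M)⁻¹ := by
    simp_rw [col_orth]
    have h3 : ∀ m : Fin (n + 1) → M × M,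
        (Nat.card {x : M // x * ⟨_, word_lift_mem hw m⟩ * x⁻¹ = 1} : ℂ) =
          if surfaceWord (mulT q (mapT M.subtype m)) = 1 then (Nat.card M : ℂ) else 0 := by
      intro m
      by_cases hm : surfaceWord (mulT q (mapT M.subtype m)) = 1
      · rw [if_pos hm]
        norm_cast
        refine Nat.card_congr (Equiv.subtypeUnivEquiv fun x => ?_)
        have : (⟨_, word_lift_mem hw m⟩ : M) = 1 := Subtype.ext hm
        rw [this]
        group
      · rw [if_neg hm]
        norm_cast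
        rw [Nat.card_eq_zero]
        left
        constructor
        rintro ⟨x, hx⟩
        apply hm
        have h4 : (⟨_, word_lift_mem hw m⟩ : M) = 1 := by
          calc (⟨_, word_lift_mem hw m⟩ : M) =
              x⁻¹ * (x * ⟨_, word_lift_mem hw m⟩ * x⁻¹) * x := by group
            _ = 1 := by rw [hx]; group
        exact congrArg Subtype.val h4
    rw [Finset.sum_congr rfl fun m _ => h3 m, ← Finset.sum_filter, Finset.sum_const, nsmul_eq_mul,
      mul_comm]
    congr 2
    rw [Nat.card_eq_fintype_card, Fintype.card_subtype]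
  apply mul_left_cancel₀ hM
  rw [h2, Finset.sum_comm, Finset.mul_sum, Finset.mul_sum]
  refine Finset.sum_congr rfl fun theta ht => ?_
  rw [← Finset.sum_mul, (zf_spec hw hq (mem_Irr.1 ht)).2.2, inv_one]
  obtain ⟨h4, h5⟩ := dg_spec (mem_Irr.1 ht)
  have h6 : (Nat.card M : ℂ) = (dg theta : ℂ) * (cod theta : ℂ) := by
    rw [← cod_spec (mem_Irr.1 ht)]
    push_cast
    ring
  have h7 : (dg theta : ℂ) ≠ 0 := by exact_mod_cast h5.ne'
  rw [h4, h6, mul_div_cancel_left₀ _ h7]
  ring

/-- the sum over the generating tuples of the quotient -/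
def zs (g : ℕ) (theta : M → ℂ) : ℂ :=
  ∑ r : Fin g → (G ⧸ M) × (G ⧸ M), if surfaceWord r = 1 ∧ Subgroup.closure (coords r) = ⊤ then
    zf (liftT r) theta else 0

lemma liftT_word {g : ℕ} {r : Fin g → (G ⧸ M) × (G ⧸ M)} (h : surfaceWord r = 1) :
    surfaceWord (liftT r) ∈ M := by
  rw [← QuotientGroup.eq_one_iff, ← QuotientGroup.mk'_apply, ← word_mapT, mapT_liftT]
  exact h

lemma liftT_gen {g : ℕ} {r : Fin g → (G ⧸ M) × (G ⧸ M)} (h : Subgroup.closure (coords r) = ⊤) :
    Subgroup.closure (coords (liftT r)) ⊔ M = ⊤ := by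
  rw [← quot_sup_iff, ← closure_mapT, mapT_liftT]
  exact h

theorem supplements_zs [Fintype (Subgroup G)] (n : ℕ) :
    ((∑ K : Subgroup G, if K ⊔ M = ⊤ then numSurj (n + 1) K else 0 : ℕ) : ℂ) =
      (Nat.card M : ℂ) * ∑ theta ∈ Irr M, zs (n + 1) theta * (cod theta : ℂ) ^ (2 * n) := by
  rw [supplements_count, ← fiber_sum (fun q : Fin (n + 1) → G × G => surfaceWord q = 1 ∧
    Subgroup.closure (coords q) ⊔ M = ⊤) (fun q => mapT (QuotientGroup.mk' M) q)]
  unfold zs
  simp only [Finset.sum_mul]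
  rw [Finset.sum_comm, Finset.mul_sum, Nat.cast_sum]
  refine Finset.sum_congr rfl fun r _ => ?_
  rw [card_fibre]
  split_ifs with hr
  · rw [card_lifts_zf (liftT r) (liftT_word hr.1) (liftT_gen hr.2)]
  · simp

/-- if the sums belonging to the invariant characters of defect zero are small, then the number of
surjections onto supplements is small -/
theorem supplements_small {p : ℕ} [hp : Fact p.Prime] [Fintype (Subgroup G)] {g N : ℕ} (hg : 2 ≤ g)
    (hd : p ^ N * (p - 1) ∣ g - 1)
    (h : ∀ theta : M → ℂ, IsIrrChar theta → Invariant theta → ¬ p ∣ cod theta →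
      ∃ y : ℂ, IsIntegral ℤ y ∧ zs g theta = (p : ℂ) ^ (N + 1) * y) :
    (p : ℤ) ^ (N + 1) ∣ ((∑ K : Subgroup G, if K ⊔ M = ⊤ then numSurj g K else 0 : ℕ) : ℤ) := by
  obtain ⟨n, rfl⟩ : ∃ n, g = n + 1 := ⟨g - 1, by omega⟩
  rw [Nat.add_sub_cancel] at hd
  have hcod : ∀ theta ∈ Irr M, ∃ w : ℂ, IsIntegral ℤ w ∧
      zs (n + 1) theta * (cod theta : ℂ) ^ (2 * n) = (p : ℂ) ^ (N + 1) * w := by
    intro theta ht
    have hirr := mem_Irr.1 ht
    have hzi : IsIntegral ℤ (zs (n + 1) theta) := by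
      unfold zs
      refine IsIntegral.sum _ fun r _ => ?_
      split_ifs with hr
      · exact (zf_spec (liftT_word hr.1) (liftT_gen hr.2) hirr).1
      · exact isIntegral_zero
    by_cases hinv : Invariant theta
    · by_cases hp1 : p ∣ cod theta
      · obtain ⟨k, hk⟩ := hp1
        refine ⟨zs (n + 1) theta * ((p ^ (2 * n - (N + 1)) * k ^ (2 * n) : ℕ) : ℂ), hzi.mul ?_, ?_⟩
        · exact isIntegral_algebraMap (R := ℤ) (A := ℂ)
            (x := ((p ^ (2 * n - (N + 1)) * k ^ (2 * n) : ℕ) : ℤ)) |> fun h => by simpa using h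
        · have h4 : N + 1 ≤ 2 * n := two_mul_ge (p := p) (by omega) hd
          have h5 : (cod theta : ℂ) ^ (2 * n) =
              (p : ℂ) ^ (N + 1) * ((p : ℂ) ^ (2 * n - (N + 1)) * (k : ℂ) ^ (2 * n)) := by
            rw [hk]
            push_cast
            rw [mul_pow, ← mul_assoc, ← pow_add, Nat.add_sub_cancel' h4]
          rw [h5]
          push_cast
          ring
      · obtain ⟨y, hy1, hy2⟩ := h theta hirr hinv hp1
        refine ⟨y * ((cod theta ^ (2 * n) : ℕ) : ℂ), hy1.mul ?_, ?_⟩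
        · exact isIntegral_algebraMap (R := ℤ) (A := ℂ)
            (x := ((cod theta ^ (2 * n) : ℕ) : ℤ)) |> fun h => by simpa using h
        · rw [hy2]
          push_cast
          ring
    · refine ⟨0, isIntegral_zero, ?_⟩
      have h1 : zs (n + 1) theta = 0 := by
        unfold zs
        refine Finset.sum_eq_zero fun r _ => ?_
        split_ifs with hr
        · exact (zf_spec (liftT_word hr.1) (liftT_gen hr.2) hirr).2.1 hinv
        · rfl
      rw [h1, zero_mul, mul_zero]
  have hw' : ∀ theta : M → ℂ, ∃ w : ℂ, IsIntegral ℤ w ∧ (theta ∈ Irr M →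
      zs (n + 1) theta * (cod theta : ℂ) ^ (2 * n) = (p : ℂ) ^ (N + 1) * w) := by
    intro theta
    by_cases ht : theta ∈ Irr M
    · obtain ⟨w, h1, h2⟩ := hcod theta ht
      exact ⟨w, h1, fun _ => h2⟩
    · exact ⟨0, isIntegral_zero, fun h => absurd h ht⟩
  choose w hwi hw2 using hw'
  refine dvd_of_integral N _ ((Nat.card M : ℂ) * ∑ theta ∈ Irr M, w theta)
    (IsIntegral.mul ?_ (IsIntegral.sum _ fun theta _ => hwi theta)) ?_
  · exact isIntegral_algebraMap (R := ℤ) (A := ℂ) (x := ((Nat.card M : ℕ) : ℤ)) |> fun h => by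
      simpa using h
  · rw [Int.cast_natCast, supplements_zs, Finset.sum_congr rfl fun theta ht => hw2 theta ht,
      ← Finset.mul_sum]
    ring

end

end Pool.Agent.Helper15.AW
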